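import Mathlib

/-!
The single-step forcing: a finite stem followed by normed blocks (Blass-Shelah type).
-/

set_option autoImplicit false

namespace Pool.Agent.Lib.Common.Iter

open Set

/-- Raw data of a condition: stem, cut points, families on the blocks. -/
abbrev Raw : Type := Finset ℕ × (ℕ → ℕ) × (ℕ → Finset (Finset ℕ))

/-- Agreement on the interval `[a, b)`. -/
def Agree (W W' : Set ℕ) (a b : ℕ) : Prop := ∀ m, a ≤ m → m < b → (m ∈ W ↔ m ∈ W')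

theorem Agree.refl (W : Set ℕ) (a b : ℕ) : Agree W W a b := fun _ _ _ => Iff.rfl

theorem Agree.symm {W W' : Set ℕ} {a b : ℕ} (h : Agree W W' a b) : Agree W' W a b :=
  fun m h1 h2 => (h m h1 h2).symm

theorem Agree.trans {W W' W'' : Set ℕ} {a b : ℕ} (h : Agree W W' a b) (h' : Agree W' W'' a b) :
    Agree W W'' a b := fun m h1 h2 => (h m h1 h2).trans (h' m h1 h2)

theorem Agree.mono {W W' : Set ℕ} {a b a' b' : ℕ} (h : Agree W W' a b) (ha : a ≤ a')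
    (hb : b' ≤ b) : Agree W W' a' b' := fun m h1 h2 => h m (ha.trans h1) (h2.trans_le hb)

/-- The trace of `W` on block `l` is empty or a member of the family. -/
def Blk (c : Raw) (l : ℕ) (W : Set ℕ) : Prop :=
  ∃ t : Finset ℕ, (t = ∅ ∨ t ∈ c.2.2 l) ∧ Agree W t (c.2.1 l) (c.2.1 (l + 1))

theorem Blk.congr {c : Raw} {l : ℕ} {W W' : Set ℕ} (h : Blk c l W)
    (h' : Agree W' W (c.2.1 l) (c.2.1 (l + 1))) : Blk c l W' :=
  let ⟨t, h1, h2⟩ := h
  ⟨t, h1, h'.trans h2⟩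

theorem blk_of_empty {c : Raw} {l : ℕ} {W : Set ℕ}
    (h : ∀ m, c.2.1 l ≤ m → m < c.2.1 (l + 1) → m ∉ W) : Blk c l W :=
  ⟨∅, Or.inl rfl, fun m h1 h2 => by simpa using h m h1 h2⟩

/-- The closed set of (finite and infinite) branches. -/
def K (c : Raw) : Set (Set ℕ) := {W | Agree W c.1 0 (c.2.1 0) ∧ ∀ l, Blk c l W}

/-- Every colouring with `k + 1` colours has a monochromatic nonempty member. -/
def L0 (k : ℕ) (G : Finset (Finset ℕ)) : Prop :=
  ∀ χ : ℕ → Fin (k + 1), ∃ t ∈ G, t.Nonempty ∧ ∀ a ∈ t, ∀ b ∈ t, χ a = χ b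

theorem L0.mono {k : ℕ} {G G' : Finset (Finset ℕ)} (h : L0 k G) (h' : G ⊆ G') : L0 k G' :=
  fun χ => let ⟨t, h1, h2⟩ := h χ; ⟨t, h' h1, h2⟩

theorem L0.col {k : ℕ} {G : Finset (Finset ℕ)} (h : L0 k G) {C : Type} [Fintype C]
    (hC : Fintype.card C ≤ k + 1) (χ : ℕ → C) :
    ∃ t ∈ G, t.Nonempty ∧ ∀ a ∈ t, ∀ b ∈ t, χ a = χ b := by
  obtain ⟨f⟩ : Nonempty (C ↪ Fin (k + 1)) :=
    Function.Embedding.nonempty_of_card_le (by simpa using hC)
  obtain ⟨t, h1, h2, h3⟩ := h (f ∘ χ)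
  exact ⟨t, h1, h2, fun a ha b hb => f.injective (h3 a ha b hb)⟩

theorem L0.anti {k m : ℕ} {G : Finset (Finset ℕ)} (h : L0 k G) (hm : m ≤ k) : L0 m G :=
  fun χ => h.col (by simpa using hm) χ

theorem L0.nonempty {k : ℕ} {G : Finset (Finset ℕ)} (h : L0 k G) : ∃ t ∈ G, t.Nonempty :=
  let ⟨t, h1, h2, _⟩ := h (fun _ => 0); ⟨t, h1, h2⟩

theorem L0.part {m : ℕ} {G G1 G2 : Finset (Finset ℕ)} (h : L0 ((m + 1) * (m + 1)) G)
    (hG : ∀ t ∈ G, t ∈ G1 ∨ t ∈ G2) : L0 m G1 ∨ L0 m G2 := by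
  by_contra hc
  simp only [L0, not_or, not_forall, not_exists, not_and] at hc
  obtain ⟨⟨χ1, h1⟩, ⟨χ2, h2⟩⟩ := hc
  obtain ⟨t, ht, hne, hm⟩ := h.col (C := Fin (m + 1) × Fin (m + 1)) (by simp)
    (fun a => (χ1 a, χ2 a))
  rcases hG t ht with h' | h'
  · obtain ⟨a, ha, b, hb, hab⟩ := h1 t h' hne
    exact hab (congrArg Prod.fst (hm a ha b hb))
  · obtain ⟨a, ha, b, hb, hab⟩ := h2 t h' hne
    exact hab (congrArg Prod.snd (hm a ha b hb))

open Classical in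
theorem L0.split {m : ℕ} {G : Finset (Finset ℕ)} (h : L0 (2 * ((m + 1) * (m + 1) + 1)) G)
    (Y : Set ℕ) :
    L0 m (G.filter fun t => ∀ a ∈ t, a ∈ Y) ∨ L0 m (G.filter fun t => ∀ a ∈ t, a ∉ Y) := by
  refine L0.part (G := G.filter fun t => (∀ a ∈ t, a ∈ Y) ∨ ∀ a ∈ t, a ∉ Y) (fun χ => ?_) ?_
  · obtain ⟨t, ht, ⟨a, ha⟩, hm⟩ := h.col (C := Fin ((m + 1) * (m + 1) + 1) × Bool)
      (by simp; omega) (fun a => (χ a, decide (a ∈ Y)))
    refine ⟨t, Finset.mem_filter.2 ⟨ht, ?_⟩, ⟨a, ha⟩,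
      fun b hb c hc => congrArg Prod.fst (hm b hb c hc)⟩
    have key : ∀ b ∈ t, (b ∈ Y ↔ a ∈ Y) := fun b hb => by
      simpa using congrArg Prod.snd (hm b hb a ha)
    by_cases haY : a ∈ Y
    · exact Or.inl fun b hb => (key b hb).2 haY
    · exact Or.inr fun b hb h' => haY ((key b hb).1 h')
  · intro t ht
    simp only [Finset.mem_filter] at ht ⊢
    tauto

/-- Genuine conditions. -/
structure Valid (c : Raw) : Prop where
  lt : ∀ l, c.2.1 l < c.2.1 (l + 1)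
  large : ∀ l, L0 l (c.2.2 l)
  sub : ∀ l, ∀ t ∈ c.2.2 l, ∀ a ∈ t, c.2.1 l ≤ a ∧ a < c.2.1 (l + 1)

theorem Valid.strictMono {c : Raw} (h : Valid c) : StrictMono c.2.1 :=
  strictMono_nat_of_lt_succ h.lt

theorem Valid.mono {c : Raw} (h : Valid c) {a b : ℕ} (hab : a ≤ b) : c.2.1 a ≤ c.2.1 b :=
  h.strictMono.monotone hab

theorem Valid.le {c : Raw} (h : Valid c) (l : ℕ) : l ≤ c.2.1 l := h.strictMono.id_le l

theorem K_closed {c : Raw} {W : Set ℕ} (h : ∀ N, ∃ W' ∈ K c, Agree W W' 0 N) : W ∈ K c := by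
  refine ⟨?_, fun l => ?_⟩
  · obtain ⟨W', h1, h2⟩ := h (c.2.1 0)
    exact h2.trans h1.1
  · obtain ⟨W', h1, h2⟩ := h (c.2.1 (l + 1))
    exact (h1.2 l).congr (h2.mono (Nat.zero_le _) le_rfl)

theorem K_glue {c : Raw} (hc : Valid c) {W W₁ : Set ℕ} {j : ℕ} (h1 : W₁ ∈ K c)
    (ha : Agree W W₁ 0 (c.2.1 j)) (h2 : ∀ l, j ≤ l → Blk c l W) : W ∈ K c := by
  refine ⟨(ha.mono le_rfl (hc.mono (Nat.zero_le _))).trans h1.1, fun l => ?_⟩
  rcases lt_or_ge l j with h | h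
  · exact (h1.2 l).congr (ha.mono (Nat.zero_le _) (hc.mono h))
  · exact h2 l h

open Classical in
/-- The trace below `N`. -/
noncomputable def tr (W : Set ℕ) (N : ℕ) : Finset ℕ := (Finset.range N).filter (· ∈ W)

theorem mem_tr {W : Set ℕ} {N m : ℕ} : m ∈ tr W N ↔ m < N ∧ m ∈ W := by simp [tr]

theorem agree_tr (W : Set ℕ) (N : ℕ) : Agree W (tr W N) 0 N := fun m _ h => by
  simp [mem_tr, h]

theorem tr_congr {W W' : Set ℕ} {N : ℕ} (h : Agree W W' 0 N) : tr W N = tr W' N := by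
  ext m
  simp only [mem_tr]
  exact and_congr_right fun hm => h m (Nat.zero_le _) hm

theorem tr_eq {s : Finset ℕ} {N : ℕ} (h : ∀ a ∈ s, a < N) : tr s N = s := by
  ext m
  simp only [mem_tr, Finset.mem_coe]
  exact ⟨fun h' => h'.2, fun h' => ⟨h m h', h'⟩⟩

theorem tr_eq_of_agree {W : Set ℕ} {s : Finset ℕ} {N : ℕ} (h : ∀ a ∈ s, a < N)
    (h' : Agree W s 0 N) : tr W N = s := (tr_congr h').trans (tr_eq h)

theorem tr_mem {c : Raw} (hc : Valid c) {W : Set ℕ} (h : W ∈ K c) (j : ℕ) :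
    (tr W (c.2.1 j) : Set ℕ) ∈ K c :=
  K_glue hc h (agree_tr W _).symm fun _ hl => blk_of_empty fun _ h1 _ h3 =>
    absurd (mem_tr.1 h3).1 (not_lt.2 ((hc.mono hl).trans h1))

theorem stem_mem {c : Raw} (hc : Valid c) : (tr c.1 (c.2.1 0) : Set ℕ) ∈ K c :=
  ⟨(agree_tr _ _).symm, fun l => blk_of_empty fun _ h1 _ h3 =>
    absurd (mem_tr.1 h3).1 (not_lt.2 ((hc.mono (Nat.zero_le l)).trans h1))⟩

/-- Adding a set located beyond the `j`-th cut. -/
theorem union_mem {c : Raw} (hc : Valid c) {s t : Set ℕ} {j : ℕ} (hs : s ∈ K c)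
    (hs' : ∀ a ∈ s, a < c.2.1 j) (ht : ∀ a ∈ t, c.2.1 j ≤ a) (ht' : ∀ l, j ≤ l → Blk c l t) :
    s ∪ t ∈ K c := by
  refine K_glue hc hs (j := j) (fun m _ h2 => ?_) fun l hl => (ht' l hl).congr fun m h1 _ => ?_
  · exact ⟨fun h => h.elim id fun h' => absurd (ht m h') (not_le.2 h2), Or.inl⟩
  · exact ⟨fun h => h.elim (fun h' => absurd (hs' m h') (not_lt.2 ((hc.mono hl).trans h1))) id,
      Or.inr⟩

theorem blk_single {c : Raw} (hc : Valid c) {t : Finset ℕ} {i : ℕ} (ht : t ∈ c.2.2 i) (l : ℕ) :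
    Blk c l t := by
  rcases lt_trichotomy l i with h | rfl | h
  · exact blk_of_empty fun m _ h2 h3 =>
      absurd (hc.sub i t ht m h3).1 (not_le.2 (h2.trans_le (hc.mono h)))
  · exact ⟨t, Or.inr ht, Agree.refl _ _ _⟩
  · exact blk_of_empty fun m h1 _ h3 =>
      absurd (hc.sub i t ht m h3).2 (not_lt.2 ((hc.mono h).trans h1))

theorem union_single_mem {c : Raw} (hc : Valid c) {s : Set ℕ} {t : Finset ℕ} {i : ℕ}
    (hs : s ∈ K c) (hs' : ∀ a ∈ s, a < c.2.1 i) (ht : t ∈ c.2.2 i) : s ∪ t ∈ K c :=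
  union_mem hc hs hs' (fun a ha => (hc.sub i t ht a ha).1) fun l _ => blk_single hc ht l

theorem exists_infinite {c : Raw} (hc : Valid c) {W₁ : Set ℕ} (h : W₁ ∈ K c) (j : ℕ) :
    ∃ W ∈ K c, W.Infinite ∧ Agree W W₁ 0 (c.2.1 j) := by
  choose t ht hne using fun l => (hc.large l).nonempty
  let T : Set ℕ := {a | ∃ l, j ≤ l ∧ a ∈ t l}
  have hT : ∀ a ∈ T, c.2.1 j ≤ a := fun a ⟨l, h1, h2⟩ =>
    (hc.mono h1).trans (hc.sub l _ (ht l) a h2).1
  refine ⟨tr W₁ (c.2.1 j) ∪ T, union_mem hc (tr_mem hc h j) (fun a ha => (mem_tr.1 ha).1) hT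
    fun l hl => ⟨t l, Or.inr (ht l), fun m h1 h2 => ⟨fun ⟨l', _, h4⟩ => ?_, fun h3 => ⟨l, hl, h3⟩⟩⟩,
    ?_, fun m _ h2 => ?_⟩
  · have h5 := hc.sub l' _ (ht l') m h4
    have a1 : l < l' + 1 := hc.strictMono.lt_iff_lt.1 (h1.trans_lt h5.2)
    have a2 : l' < l + 1 := hc.strictMono.lt_iff_lt.1 (h5.1.trans_lt h2)
    obtain rfl : l = l' := by omega
    exact h4
  · refine Infinite.mono subset_union_right (infinite_of_not_bddAbove fun ⟨N, hN⟩ => ?_)
    obtain ⟨a, ha⟩ := hne (max j (N + 1))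
    have h1 := hN (⟨_, le_max_left _ _, ha⟩ : a ∈ T)
    have h2 := (hc.sub _ _ (ht _) a ha).1
    have h3 := hc.le (max j (N + 1))
    omega
  · simp only [mem_union, Finset.mem_coe, mem_tr]
    exact ⟨fun h => h.elim And.right fun h' => absurd (hT m h') (not_le.2 h2),
      fun h => Or.inl ⟨h2, h⟩⟩

/-- Inclusion of the branch sets, in countable form. -/
def Sub (c' c : Raw) : Prop := ∀ s : Finset ℕ, (s : Set ℕ) ∈ K c' → (s : Set ℕ) ∈ K c

theorem Sub.subset {c' c : Raw} (hc : Valid c') (h : Sub c' c) : K c' ⊆ K c := fun W hW =>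
  K_closed fun N => ⟨_, h _ (tr_mem hc hW N), (agree_tr W _).mono le_rfl (hc.le N)⟩

theorem subset_of_infinite {c' c : Raw} (hc : Valid c')
    (h : ∀ W ∈ K c', W.Infinite → W ∈ K c) : K c' ⊆ K c := fun _ hW =>
  K_closed fun N =>
    let ⟨W', h1, h2, h3⟩ := exists_infinite hc hW N
    ⟨W', h W' h1 h2, h3.symm.mono le_rfl (hc.le N)⟩

/-- The condition with stem `s` and the blocks from `j` on. -/
def cut (c : Raw) (j : ℕ) (s : Finset ℕ) : Raw :=
  (s, fun l => c.2.1 (l + j), fun l => c.2.2 (l + j))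

theorem Valid.cut {c : Raw} (hc : Valid c) (j : ℕ) (s : Finset ℕ) : Valid (cut c j s) :=
  ⟨fun l => by simpa only [Iter.cut, Nat.add_right_comm l 1 j] using hc.lt (l + j),
    fun l => (hc.large (l + j)).anti (Nat.le_add_right _ _),
    fun l => by simpa only [Iter.cut, Nat.add_right_comm l 1 j] using hc.sub (l + j)⟩

theorem mem_cut_iff {c : Raw} {j : ℕ} {s : Finset ℕ} {W : Set ℕ} :
    W ∈ K (cut c j s) ↔ Agree W s 0 (c.2.1 j) ∧ ∀ l, j ≤ l → Blk c l W := by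
  have : ∀ l, Blk (cut c j s) l W ↔ Blk c (l + j) W := fun l => by
    simp only [Blk, cut, Nat.add_right_comm l 1 j]
  simp only [K, mem_ofPred_eq, this]
  refine and_congr (by simp only [cut, Nat.zero_add]) ⟨fun h l hl => ?_, fun h l => h _ (by omega)⟩
  have := h (l - j)
  rwa [Nat.sub_add_cancel hl] at this

theorem mem_cut {c : Raw} {j : ℕ} {s : Finset ℕ} {W : Set ℕ} (h : W ∈ K c)
    (h' : Agree W s 0 (c.2.1 j)) : W ∈ K (cut c j s) := mem_cut_iff.2 ⟨h', fun l _ => h.2 l⟩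

theorem cut_subset {c : Raw} (hc : Valid c) {j : ℕ} {s : Finset ℕ} (hs : (s : Set ℕ) ∈ K c) :
    K (cut c j s) ⊆ K c := fun _ h => K_glue hc hs (mem_cut_iff.1 h).1 (mem_cut_iff.1 h).2

/-- Same stem and same first `n` blocks. -/
def Same (n : ℕ) (c' c : Raw) : Prop :=
  c'.1 = c.1 ∧ (∀ l, l ≤ n → c'.2.1 l = c.2.1 l) ∧ ∀ l, l < n → c'.2.2 l = c.2.2 l

theorem Same.refl (n : ℕ) (c : Raw) : Same n c c := ⟨rfl, fun _ _ => rfl, fun _ _ => rfl⟩

theorem Same.symm {n : ℕ} {c c' : Raw} (h : Same n c c') : Same n c' c :=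
  ⟨h.1.symm, fun l hl => (h.2.1 l hl).symm, fun l hl => (h.2.2 l hl).symm⟩

theorem Same.trans {n : ℕ} {c c' c'' : Raw} (h : Same n c c') (h' : Same n c' c'') :
    Same n c c'' :=
  ⟨h.1.trans h'.1, fun l hl => (h.2.1 l hl).trans (h'.2.1 l hl),
    fun l hl => (h.2.2 l hl).trans (h'.2.2 l hl)⟩

theorem Same.anti {n m : ℕ} {c c' : Raw} (h : Same n c c') (hm : m ≤ n) : Same m c c' :=
  ⟨h.1, fun l hl => h.2.1 l (hl.trans hm), fun l hl => h.2.2 l (hl.trans_le hm)⟩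

theorem Same.mem {n : ℕ} {c c' : Raw} (h : Same n c c') (hc : Valid c') {W : Set ℕ}
    (hW : W ∈ K c) (hb : ∀ a ∈ W, a < c'.2.1 n) : W ∈ K c' := by
  refine ⟨by rw [← h.1, ← h.2.1 0 (Nat.zero_le _)]; exact hW.1, fun l => ?_⟩
  rcases lt_or_ge l n with hl | hl
  · have := hW.2 l
    unfold Blk at this ⊢
    rwa [← h.2.2 l hl, ← h.2.1 l hl.le, ← h.2.1 (l + 1) hl]
  · exact blk_of_empty fun m h1 _ h3 => absurd (hb m h3) (not_lt.2 ((hc.mono hl).trans h1))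

/-- The cut of a pure extension is below the cut. -/
theorem cut_mono {c c' : Raw} (hc : Valid c) (hc' : Valid c') {j : ℕ} (h : Same j c' c) (hK : K c' ⊆ K c)
    (s : Finset ℕ) : K (cut c' j s) ⊆ K (cut c j s) := by
  intro W hW
  obtain ⟨h1, h2⟩ := mem_cut_iff.1 hW
  have he := h.2.1 j le_rfl
  refine mem_cut_iff.2 ⟨he ▸ h1, fun l hl => ?_⟩
  have h3 : (tr c'.1 (c'.2.1 0) : Set ℕ) ∪ {a ∈ W | c'.2.1 j ≤ a} ∈ K c' :=
    union_mem hc' (j := j) (stem_mem hc')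
      (fun a ha => (mem_tr.1 ha).1.trans_le (hc'.mono (Nat.zero_le _))) (fun a ha => ha.2)
      fun l hl => (h2 l hl).congr fun m h4 _ => ⟨fun h => h.1, fun h => ⟨h, (hc'.mono hl).trans h4⟩⟩
  refine ((hK h3).2 l).congr fun m h4 _ => ?_
  have h5 : c'.2.1 j ≤ m := he ▸ (hc.mono hl).trans h4
  refine ⟨fun h => Or.inr ⟨h, h5⟩, fun h => h.elim (fun h' => ?_) fun h' => h'.1⟩
  exact absurd ((mem_tr.1 h').1.trans_le (hc'.mono (Nat.zero_le j))) (not_lt.2 h5)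

/-- The trivial condition. -/
def top : Raw := (∅, fun l => l, fun l => {{l}})

theorem valid_top : Valid top :=
  ⟨fun l => Nat.lt_succ_self l,
    fun l χ => ⟨{l}, by simp [top], by simp, by simp⟩,
    fun l t ht a ha => by
      simp only [top, Finset.mem_singleton] at ht ⊢
      subst ht
      simp only [Finset.mem_singleton] at ha
      omega⟩

theorem mem_top (W : Set ℕ) : W ∈ K top := by
  refine ⟨fun m _ h => absurd h (Nat.not_lt_zero _), fun l => ?_⟩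
  by_cases h : l ∈ W
  · refine ⟨{l}, Or.inr (by simp [top]), fun m h1 h2 => ?_⟩
    obtain rfl : m = l := by simp only [top] at h1 h2; omega
    simpa using h
  · refine blk_of_empty fun m h1 h2 => ?_
    obtain rfl : m = l := by simp only [top] at h1 h2; omega
    exact h

/-- The limit of a fusion sequence starting at stage `k₀`. -/
def lim (k₀ : ℕ) (c : ℕ → Raw) : Raw :=
  ((c k₀).1, fun l => (c (k₀ + l)).2.1 l, fun l => (c (k₀ + l + 1)).2.2 l)

theorem same_chain {c : ℕ → Raw} {k₀ n : ℕ} (h : ∀ k, k₀ ≤ k → Same (n + k) (c (k + 1)) (c k))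
    {k k' : ℕ} (hk : k₀ ≤ k) (hk' : k ≤ k') : Same (n + k) (c k') (c k) := by
  induction k', hk' using Nat.le_induction with
  | base => exact Same.refl _ _
  | succ k' hk' ih => exact ((h k' (hk.trans hk')).anti (by omega)).trans ih

theorem same_lim {c : ℕ → Raw} {k₀ n : ℕ} (h : ∀ k, k₀ ≤ k → Same (n + k) (c (k + 1)) (c k))
    {k : ℕ} (hk : k₀ ≤ k) : Same (n + k) (lim k₀ c) (c k) := by
  refine ⟨(same_chain h le_rfl hk).1.symm, fun l hl => ?_, fun l hl => ?_⟩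
  · show (c (k₀ + l)).2.1 l = _
    rw [← (same_chain h (k := k₀ + l) (k' := k₀ + l + k) (by omega) (by omega)).2.1 l (by omega),
      (same_chain h (k' := k₀ + l + k) hk (by omega)).2.1 l hl]
  · show (c (k₀ + l + 1)).2.2 l = _
    rw [← (same_chain h (k := k₀ + l + 1) (k' := k₀ + l + 1 + k) (by omega) (by omega)).2.2 l
      (by omega), (same_chain h (k' := k₀ + l + 1 + k) hk (by omega)).2.2 l hl]

theorem valid_lim {c : ℕ → Raw} {k₀ n : ℕ} (hv : ∀ k, Valid (c k))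
    (h : ∀ k, k₀ ≤ k → Same (n + k) (c (k + 1)) (c k)) : Valid (lim k₀ c) := by
  have key := fun l => same_lim h (k := k₀ + l + 1) (by omega)
  refine ⟨fun l => ?_, fun l => ?_, fun l => ?_⟩
  · rw [(key l).2.1 l (by omega), (key l).2.1 (l + 1) (by omega)]
    exact (hv _).lt l
  · rw [(key l).2.2 l (by omega)]
    exact (hv _).large l
  · rw [(key l).2.1 l (by omega), (key l).2.1 (l + 1) (by omega), (key l).2.2 l (by omega)]
    exact (hv _).sub l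

theorem lim_subset {c : ℕ → Raw} {k₀ n : ℕ} (hv : ∀ k, Valid (c k))
    (h : ∀ k, k₀ ≤ k → Same (n + k) (c (k + 1)) (c k)) (hK : ∀ k, K (c (k + 1)) ⊆ K (c k))
    (k : ℕ) : K (lim k₀ c) ⊆ K (c k) := by
  have hanti : Antitone fun k => K (c k) := antitone_nat_of_succ_le hK
  refine Sub.subset (valid_lim hv h) fun s hs => ?_
  obtain ⟨N, hN⟩ := s.bddAbove
  refine hanti (show k ≤ k₀ + k + N + 1 by omega)
    ((same_lim h (k := k₀ + k + N + 1) (by omega)).mem (hv _) hs fun a ha => ?_)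
  have h1 := hN ha
  have h2 := (hv (k₀ + k + N + 1)).le (n + (k₀ + k + N + 1))
  omega

end Pool.Agent.Lib.Common.Iter
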