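import Mathlib
import Pool.Agent.Lib.Common.Iter.Q

/-!
Measurability of the basic notions.
-/

set_option autoImplicit false

namespace Pool.Agent.Lib.Common.Iter

open Set

instance : StandardBorelSpace (Set ℕ) := inferInstanceAs (StandardBorelSpace (ℕ → Prop))

/-- Infinite sets of natural numbers. -/
abbrev X : Type := {W : Set ℕ // W.Infinite}

instance : StandardBorelSpace X :=
  (MeasurableSet.setOfPred_infinite (α := ℕ)).standardBorel

instance : Inhabited X := ⟨⟨univ, infinite_univ⟩⟩

instance : StandardBorelSpace Raw := inferInstance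

variable {α : Type*} [MeasurableSpace α]

theorem meas_disc {β γ : Type*} [MeasurableSpace β] [MeasurableSpace γ] [Countable β]
    [MeasurableSingletonClass β] {f : α → β} (hf : Measurable f) {g : β → α → γ}
    (hg : ∀ b, Measurable (g b)) : Measurable fun x => g (f x) x :=
  (measurable_from_prod_countable_right (f := fun p : β × α => g p.1 p.2) hg).comp
    (hf.prodMk measurable_id)

@[fun_prop]
theorem meas_le {f g : α → ℕ} (hf : Measurable f) (hg : Measurable g) :
    Measurable fun x => f x ≤ g x :=
  (measurable_of_countable fun p : ℕ × ℕ => p.1 ≤ p.2).comp (hf.prodMk hg)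

@[fun_prop]
theorem meas_lt {f g : α → ℕ} (hf : Measurable f) (hg : Measurable g) :
    Measurable fun x => f x < g x :=
  (measurable_of_countable fun p : ℕ × ℕ => p.1 < p.2).comp (hf.prodMk hg)

theorem meas_eq {β : Type*} [MeasurableSpace β] [Countable β] [MeasurableSingletonClass β]
    {f g : α → β} (hf : Measurable f) (hg : Measurable g) : Measurable fun x => f x = g x :=
  (measurable_of_countable fun p : β × β => p.1 = p.2).comp (hf.prodMk hg)

@[fun_prop]
theorem meas_coe {s : α → Finset ℕ} (hs : Measurable s) : Measurable fun x => (s x : Set ℕ) :=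
  measurable_finset_iff_measurable_set.1 hs

@[fun_prop]
theorem meas_mem {f : α → ℕ} {W : α → Set ℕ} (hf : Measurable f) (hW : Measurable W) :
    Measurable fun x => f x ∈ W x :=
  meas_disc hf (g := fun b x => b ∈ W x) fun b => (measurable_set_mem b).comp hW

@[fun_prop]
theorem meas_agree {W W' : α → Set ℕ} {a b : α → ℕ} (hW : Measurable W) (hW' : Measurable W')
    (ha : Measurable a) (hb : Measurable b) :
    Measurable fun x => Agree (W x) (W' x) (a x) (b x) := by
  unfold Agree
  fun_prop

@[fun_prop]
theorem meas_fmem {G : α → Finset (Finset ℕ)} (hG : Measurable G) (t : Finset ℕ) :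
    Measurable fun x => t ∈ G x := (measurable_finset_mem t).comp hG

@[fun_prop]
theorem meas_blk {c : α → Raw} {W : α → Set ℕ} (hc : Measurable c) (hW : Measurable W) (l : ℕ) :
    Measurable fun x => Blk (c x) l (W x) := by
  unfold Blk
  fun_prop

@[fun_prop]
theorem meas_K {c : α → Raw} {W : α → Set ℕ} (hc : Measurable c) (hW : Measurable W) :
    Measurable fun x => W x ∈ K (c x) := by
  simp only [K, mem_ofPred_eq]
  fun_prop

@[fun_prop]
theorem meas_L0 {G : α → Finset (Finset ℕ)} (hG : Measurable G) (k : ℕ) :
    Measurable fun x => L0 k (G x) := (measurable_of_countable (L0 k)).comp hG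

@[fun_prop]
theorem meas_valid {c : α → Raw} (hc : Measurable c) : Measurable fun x => Valid (c x) := by
  have : ∀ c, Valid c ↔ (∀ l, c.2.1 l < c.2.1 (l + 1)) ∧ (∀ l, L0 l (c.2.2 l)) ∧
      ∀ l, ∀ t, t ∈ c.2.2 l → ∀ a, a ∈ t → c.2.1 l ≤ a ∧ a < c.2.1 (l + 1) :=
    fun c => ⟨fun h => ⟨h.1, h.2, h.3⟩, fun h => ⟨h.1, h.2.1, h.2.2⟩⟩
  simp only [this]
  fun_prop

@[fun_prop]
theorem meas_sub {c c' : α → Raw} (hc : Measurable c) (hc' : Measurable c') :
    Measurable fun x => Sub (c x) (c' x) := by
  unfold Sub
  fun_prop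

@[fun_prop]
theorem meas_same {c c' : α → Raw} (hc : Measurable c) (hc' : Measurable c') (n : ℕ) :
    Measurable fun x => Same n (c x) (c' x) := by
  unfold Same
  refine (meas_eq (by fun_prop) (by fun_prop)).and (Measurable.and ?_ ?_)
  · exact .forall fun l => .imp measurable_const (meas_eq (by fun_prop) (by fun_prop))
  · exact .forall fun l => .imp measurable_const (meas_eq (by fun_prop) (by fun_prop))

@[fun_prop]
theorem meas_tr {W : α → Set ℕ} {N : α → ℕ} (hW : Measurable W) (hN : Measurable N) :
    Measurable fun x => tr (W x) (N x) := by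
  refine measurable_finset_iff.2 fun a => ?_
  simp only [mem_tr]
  fun_prop

@[fun_prop]
theorem meas_cut {c : α → Raw} {s : α → Finset ℕ} (hc : Measurable c) (hs : Measurable s)
    (j : ℕ) : Measurable fun x => cut (c x) j (s x) := by
  unfold cut
  fun_prop

@[fun_prop]
theorem meas_lim {c : ℕ → α → Raw} (hc : ∀ k, Measurable (c k)) (k₀ : ℕ) :
    Measurable fun x => lim k₀ fun k => c k x := by
  unfold lim
  fun_prop

open Classical in
/-- Replace non-conditions by the trivial condition. -/
noncomputable def fix (c : Raw) : Raw := if Valid c then c else top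

theorem valid_fix (c : Raw) : Valid (fix c) := by
  unfold fix
  split_ifs with h
  exacts [h, valid_top]

theorem fix_eq {c : Raw} (h : Valid c) : fix c = c := if_pos h

@[fun_prop]
theorem meas_fix {c : α → Raw} (hc : Measurable c) : Measurable fun x => fix (c x) :=
  Measurable.ite (meas_valid hc).setOf hc measurable_const

/-- Measurable choice of a witness in a countable type. -/
theorem exists_idx {κ : Type} [Countable κ] [Nonempty κ] [MeasurableSpace κ]
    (P : κ → α → Prop) (hP : ∀ k, Measurable (P k)) :
    ∃ i : α → κ, Measurable i ∧ (∀ x y, (∀ k, P k x ↔ P k y) → i x = i y) ∧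
      ∀ x, (∃ k, P k x) → P (i x) x := by
  classical
  obtain ⟨e, he⟩ := exists_surjective_nat κ
  have hex : ∀ x, ∃ n, P (e n) x ∨ ¬ ∃ k, P k x := fun x => by
    by_cases h : ∃ k, P k x
    · obtain ⟨k, hk⟩ := h
      obtain ⟨n, rfl⟩ := he k
      exact ⟨n, Or.inl hk⟩
    · exact ⟨0, Or.inr h⟩
  refine ⟨fun x => e (Nat.find (hex x)), (measurable_of_countable e).comp
    (measurable_find hex fun n => Measurable.setOf (by fun_prop)), fun x y h => ?_,
    fun x h => (Nat.find_spec (hex x)).resolve_right (not_not.2 h)⟩
  simp only [h]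

end Pool.Agent.Lib.Common.Iter
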