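import Mathlib
import Pool.Agent.Lib.Common.Iter.Meas

/-!
Conditions of the countable support iteration, as measurable functions of the earlier generic
reals: bodies, gluing, extension of points, fusion.
-/

set_option autoImplicit false

namespace Pool.Agent.Lib.Common.Iter

open Set MeasureTheory

/-- Points: one infinite set for every coordinate. -/
abbrev Pt (ι : Type) : Type := ι → X

variable {ι : Type}

/-- The σ-algebra generated by the coordinates in `L`. -/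
@[reducible] def mL (L : Set ι) : MeasurableSpace (Pt ι) :=
  ⨆ η ∈ L, MeasurableSpace.comap (fun x => x η) inferInstance

theorem mL_mono {L M : Set ι} (h : L ⊆ M) : mL L ≤ mL M := biSup_mono h

theorem meas_up {β : Type} [MeasurableSpace β] {L M : Set ι} {g : Pt ι → β}
    (hg : Measurable[mL L] g) (h : L ⊆ M) : Measurable[mL M] g := hg.mono (mL_mono h) le_rfl

theorem meas_ev {L : Set ι} {η : ι} (h : η ∈ L) : Measurable[mL L] fun x : Pt ι => x η :=
  Measurable.of_comap_le (le_iSup₂_of_le η h le_rfl)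

theorem dep_set {L : Set ι} {S : Set (Pt ι)} (hS : MeasurableSet[mL L] S) {x y : Pt ι}
    (h : ∀ η ∈ L, x η = y η) : x ∈ S ↔ y ∈ S := by
  let m : MeasurableSpace (Pt ι) :=
    { MeasurableSet' := fun S => x ∈ S ↔ y ∈ S
      measurableSet_empty := Iff.rfl
      measurableSet_compl := fun _ h => not_congr h
      measurableSet_iUnion := fun f h => by
        simp only [mem_iUnion]
        exact exists_congr h }
  refine (show mL L ≤ m from iSup₂_le fun η hη => ?_) S hS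
  rintro _ ⟨T, -, rfl⟩
  show x η ∈ T ↔ y η ∈ T
  rw [h η hη]

theorem dep_fun {β : Type} [MeasurableSpace β] [MeasurableSingletonClass β] {L : Set ι}
    {g : Pt ι → β} (hg : Measurable[mL L] g) {x y : Pt ι} (h : ∀ η ∈ L, x η = y η) :
    g x = g y := (dep_set (hg (measurableSet_singleton (g y))) h).2 rfl

theorem dep_prop {L : Set ι} {P : Pt ι → Prop} (hP : Measurable[mL L] P) {x y : Pt ι}
    (h : ∀ η ∈ L, x η = y η) : P x ↔ P y := iff_of_eq (dep_fun hP h)

variable [LinearOrder ι]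

/-- Conditions. -/
structure Cond (ι : Type) [LinearOrder ι] where
  f : ι → Pt ι → Raw
  meas : ∀ ξ, Measurable[mL (Iio ξ)] (f ξ)
  valid : ∀ ξ x, Valid (f ξ x)
  supp : {ξ | ∃ x, f ξ x ≠ top}.Countable

/-- The points allowed by `p` on the coordinates in `L`. -/
def bd (L : Set ι) (p : Cond ι) : Set (Pt ι) := {x | ∀ η ∈ L, (x η).1 ∈ K (p.f η x)}

instance : Inhabited (Cond ι) :=
  ⟨⟨fun _ _ => top, fun _ => measurable_const, fun _ _ => valid_top, by simp⟩⟩

theorem bd_anti {L M : Set ι} (h : L ⊆ M) (p : Cond ι) : bd M p ⊆ bd L p :=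
  fun _ hx η hη => hx η (h hη)

theorem low_Iio {L : Set ι} (hL : IsLowerSet L) {η : ι} (h : η ∈ L) : Iio η ⊆ L :=
  fun _ h' => hL h'.le h

theorem low_Iic {L : Set ι} (hL : IsLowerSet L) {η : ι} (h : η ∈ L) : Iic η ⊆ L :=
  fun _ h' => hL h' h

theorem low_not {L : Set ι} (hL : IsLowerSet L) {η : ι} (h : η ∉ L) : L ⊆ Iio η :=
  fun _ h' => lt_of_not_ge fun h'' => h (hL h'' h')

theorem mem_bd_Iic {ξ : ι} {p : Cond ι} {x : Pt ι} :
    x ∈ bd (Iic ξ) p ↔ x ∈ bd (Iio ξ) p ∧ (x ξ).1 ∈ K (p.f ξ x) :=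
  ⟨fun h => ⟨bd_anti Iio_subset_Iic_self p h, h ξ le_rfl⟩, fun h η hη =>
    (lt_or_eq_of_le hη).elim (h.1 η) fun h' => h' ▸ h.2⟩

theorem meas_bd {L : Set ι} (hL : IsLowerSet L) (p : Cond ι) :
    Measurable[mL L] fun x => x ∈ bd L p := by
  have : (fun x => x ∈ bd L p) = fun x => ∀ η : {ξ | ∃ x, p.f ξ x ≠ top},
      η.1 ∈ L → (x η).1 ∈ K (p.f η x) := by
    funext x
    refine propext ⟨fun h η hη => h η hη, fun h η hη => ?_⟩
    by_cases h' : p.f η x = top
    · rw [h']; exact mem_top _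
    · exact h ⟨η, x, h'⟩ hη
  rw [this]
  have := p.supp.to_subtype
  let := mL L
  refine Measurable.forall fun η => ?_
  by_cases h : η.1 ∈ L
  · have h1 := meas_ev h
    have h2 := meas_up (p.meas η) (low_Iio hL h)
    fun_prop
  · simpa only [h, false_imp_iff] using measurable_const

theorem bd_congr {L : Set ι} (hL : IsLowerSet L) {p : Cond ι} {x y : Pt ι}
    (h : ∀ η ∈ L, x η = y η) (hx : x ∈ bd L p) : y ∈ bd L p :=
  (dep_prop (meas_bd hL p) h).1 hx

open Classical in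
/-- `r` on `L`, and beyond `L` the condition with index `i x`. -/
noncomputable def glue {L : Set ι} (hL : IsLowerSet L) (r : Cond ι) {I : Type} [Countable I]
    [MeasurableSpace I] [MeasurableSingletonClass I] {i : Pt ι → I} (hi : Measurable[mL L] i)
    (t : I → Cond ι) : Cond ι where
  f η x := if η ∈ L then r.f η x else (t (i x)).f η x
  meas η := by
    by_cases h : η ∈ L
    · simpa only [if_pos h] using r.meas η
    · simp only [if_neg h]
      exact @meas_disc _ (mL (Iio η)) _ _ _ _ _ _ _ (meas_up hi (low_not hL h))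
        (fun b x => (t b).f η x) fun b => (t b).meas η
  valid η x := by
    split_ifs
    exacts [r.valid η x, (t _).valid η x]
  supp := (r.supp.union (countable_iUnion fun b => (t b).supp)).mono fun η ⟨x, hx⟩ => by
    split_ifs at hx
    exacts [Or.inl ⟨x, hx⟩, Or.inr (mem_iUnion.2 ⟨i x, x, hx⟩)]

section
variable {L : Set ι} (hL : IsLowerSet L) (r : Cond ι) {I : Type} [Countable I]
    [MeasurableSpace I] [MeasurableSingletonClass I] {i : Pt ι → I} (hi : Measurable[mL L] i)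
    (t : I → Cond ι)

theorem glue_in {η : ι} (h : η ∈ L) : (glue hL r hi t).f η = r.f η := by
  funext x; simp only [glue, if_pos h]

theorem glue_out {η : ι} (h : η ∉ L) (x : Pt ι) : (glue hL r hi t).f η x = (t (i x)).f η x := by
  simp only [glue, if_neg h]

theorem bd_glue_low {M : Set ι} (h : M ⊆ L) : bd M (glue hL r hi t) = bd M r := by
  ext x
  exact forall₂_congr fun η hη => by rw [glue_in hL r hi t (h hη)]

theorem mem_bd_glue {M : Set ι} (h : L ⊆ M) {x : Pt ι} : x ∈ bd M (glue hL r hi t) ↔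
    x ∈ bd L r ∧ ∀ η ∈ M, η ∉ L → (x η).1 ∈ K ((t (i x)).f η x) := by
  constructor
  · intro hx
    exact ⟨fun η hη => glue_in hL r hi t hη ▸ hx η (h hη),
      fun η hη hη' => glue_out hL r hi t hη' x ▸ hx η hη⟩
  · intro hx η hη
    by_cases h' : η ∈ L
    · rw [glue_in hL r hi t h']; exact hx.1 η h'
    · rw [glue_out hL r hi t h']; exact hx.2 η hη h'

theorem glue_mem {M : Set ι} {x : Pt ι} (hx : x ∈ bd M (glue hL r hi t))
    (h : x ∈ bd L (t (i x))) : x ∈ bd M (t (i x)) := fun η hη => by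
  by_cases h' : η ∈ L
  · exact h η h'
  · exact glue_out hL r hi t h' x ▸ hx η hη

end

/-- `r` on `L` and `t` beyond. -/
noncomputable def join {L : Set ι} (hL : IsLowerSet L) (r t : Cond ι) : Cond ι :=
  glue hL r (I := Unit) (i := fun _ => ()) measurable_const fun _ => t

theorem join_in {L : Set ι} (hL : IsLowerSet L) (r t : Cond ι) {η : ι} (h : η ∈ L) :
    (join hL r t).f η = r.f η := glue_in hL r _ _ h

theorem join_out {L : Set ι} (hL : IsLowerSet L) (r t : Cond ι) {η : ι} (h : η ∉ L) :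
    (join hL r t).f η = t.f η := funext fun x => glue_out hL r _ _ h x

theorem bd_join_low {L : Set ι} (hL : IsLowerSet L) (r t : Cond ι) {M : Set ι} (h : M ⊆ L) :
    bd M (join hL r t) = bd M r := bd_glue_low hL r _ _ h

theorem mem_bd_join {L : Set ι} (hL : IsLowerSet L) (r t : Cond ι) {M : Set ι} (h : L ⊆ M)
    {x : Pt ι} : x ∈ bd M (join hL r t) ↔
      x ∈ bd L r ∧ ∀ η ∈ M, η ∉ L → (x η).1 ∈ K (t.f η x) := mem_bd_glue hL r _ _ h

theorem join_le {L : Set ι} (hL : IsLowerSet L) {r t : Cond ι} {M : Set ι} (hM : L ⊆ M)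
    (h : bd L r ⊆ bd L t) : bd M (join hL r t) ⊆ bd M t := fun _ hx =>
  glue_mem hL r _ (fun _ => t) hx (h ((mem_bd_join hL r t hM).1 hx).1)

theorem join_le_left {L : Set ι} (hL : IsLowerSet L) (r t : Cond ι) {M : Set ι} (hM : L ⊆ M) :
    bd M (join hL r t) ⊆ bd L r := fun _ hx => ((mem_bd_join hL r t hM).1 hx).1

open Classical in
/-- Replace one coordinate. -/
noncomputable def upd (p : Cond ι) (ξ : ι) {g : Pt ι → Raw} (hg : Measurable[mL (Iio ξ)] g) :
    Cond ι where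
  f η x := if η = ξ then fix (g x) else p.f η x
  meas η := by
    by_cases h : η = ξ
    · subst h
      simpa only [if_true] using @meas_fix _ (mL (Iio η)) _ hg
    · simpa only [if_neg h] using p.meas η
  valid η x := by
    split_ifs
    exacts [valid_fix _, p.valid η x]
  supp := (p.supp.insert ξ).mono fun η ⟨x, hx⟩ => by
    split_ifs at hx with h
    exacts [Or.inl h, Or.inr ⟨x, hx⟩]

theorem upd_self (p : Cond ι) (ξ : ι) {g : Pt ι → Raw} (hg : Measurable[mL (Iio ξ)] g)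
    {x : Pt ι} (h : Valid (g x)) : (upd p ξ hg).f ξ x = g x := by
  simp only [upd, if_true, fix_eq h]

theorem upd_ne (p : Cond ι) {ξ η : ι} {g : Pt ι → Raw} (hg : Measurable[mL (Iio ξ)] g)
    (h : η ≠ ξ) : (upd p ξ hg).f η = p.f η := by
  funext x; simp only [upd, if_neg h]

theorem bd_upd (p : Cond ι) {ξ : ι} {g : Pt ι → Raw} (hg : Measurable[mL (Iio ξ)] g)
    {M : Set ι} (h : ξ ∉ M) : bd M (upd p ξ hg) = bd M p := by
  ext x
  exact forall₂_congr fun η hη => by rw [upd_ne p hg fun h' => h (h' ▸ hη)]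

theorem bd_upd_Iio (p : Cond ι) {ξ : ι} {g : Pt ι → Raw} (hg : Measurable[mL (Iio ξ)] g) :
    bd (Iio ξ) (upd p ξ hg) = bd (Iio ξ) p := bd_upd p hg (lt_irrefl ξ)

/-- Almost inclusion. -/
def Als (V' V : X) : Prop := ∃ m, ∀ v, m ≤ v → v ∈ V'.1 → v ∈ V.1

theorem Als.refl (V : X) : Als V V := ⟨0, fun _ _ h => h⟩

theorem Als.of_subset {V' V : X} (h : V'.1 ⊆ V.1) : Als V' V := ⟨0, fun _ _ h' => h h'⟩

theorem Als.trans {V V' V'' : X} (h : Als V V') (h' : Als V' V'') : Als V V'' :=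
  let ⟨m, h1⟩ := h
  let ⟨m', h2⟩ := h'
  ⟨max m m', fun v hv h3 => h2 v (le_of_max_le_right hv) (h1 v (le_of_max_le_left hv) h3)⟩

theorem Als.exists_sub {V' V : X} (h : Als V' V) : ∃ V'' : X, V''.1 ⊆ V'.1 ∧ V''.1 ⊆ V.1 := by
  obtain ⟨m, hm⟩ := h
  refine ⟨⟨V'.1 \ Iio m, V'.2.sdiff (finite_Iio m)⟩, fun _ h => h.1,
    fun v h => hm v (not_lt.1 h.2) h.1⟩

theorem exists_pseudo {V : ℕ → X} (h : ∀ k, Als (V (k + 1)) (V k)) : ∃ W, ∀ k, Als W (V k) := by
  have h1 : ∀ k k', k ≤ k' → Als (V k') (V k) := fun k k' hk => by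
    induction k', hk using Nat.le_induction with
    | base => exact Als.refl _
    | succ k' _ ih => exact (h k').trans ih
  have h2 : ∀ k, ∃ v, k ≤ v ∧ ∀ j, j ≤ k → v ∈ (V j).1 := fun k => by
    choose m hm using fun j : Fin (k + 1) => h1 j k (Nat.lt_succ_iff.1 j.2)
    obtain ⟨v, h3, h4⟩ := (V k).2.exists_gt (k + Finset.univ.sup m)
    refine ⟨v, by omega, fun j hj => hm ⟨j, Nat.lt_succ_of_le hj⟩ v ?_ h3⟩
    have := Finset.le_sup (f := m) (Finset.mem_univ ⟨j, Nat.lt_succ_of_le hj⟩)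
    omega
  choose v h3 h4 using h2
  refine ⟨⟨range v, infinite_of_not_bddAbove fun ⟨N, hN⟩ => ?_⟩, fun k =>
    ⟨(Finset.range k).sup v + 1, ?_⟩⟩
  · have := hN ⟨N + 1, rfl⟩
    have := h3 (N + 1)
    omega
  · rintro _ hv ⟨j, rfl⟩
    refine h4 j k (not_lt.1 fun hj => ?_)
    have := Finset.le_sup (f := v) (Finset.mem_range.2 hj)
    omega

variable [WellFoundedLT ι]

theorem exists_ext {L : Set ι} (hL : IsLowerSet L) {p : Cond ι} {x : Pt ι} (hx : x ∈ bd L p) :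
    ∃ y, (∀ η ∈ L, y η = x η) ∧ y ∈ bd univ p := by
  classical
  have hW : ∀ c : Raw, ∃ W : X, Valid c → W.1 ∈ K c := fun c => by
    by_cases h : Valid c
    · obtain ⟨W, h1, h2, -⟩ := exists_infinite h (stem_mem h) 0
      exact ⟨⟨W, h2⟩, fun _ => h1⟩
    · exact ⟨default, fun h' => absurd h' h⟩
  choose W hW using hW
  let y : Pt ι := (wellFounded_lt (α := ι)).fix fun η ih =>
    if η ∈ L then x η else W (p.f η fun ζ => if h : ζ < η then ih ζ h else default)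
  have hy : ∀ η, y η = if η ∈ L then x η else
      W (p.f η fun ζ => if ζ < η then y ζ else default) := fun η => by
    simp only [y]
    rw [WellFounded.fix_eq]
    rfl
  have h1 : ∀ η ∈ L, y η = x η := fun η h => by rw [hy, if_pos h]
  refine ⟨y, h1, fun η _ => ?_⟩
  by_cases h : η ∈ L
  · exact bd_congr hL (fun η h => (h1 η h).symm) hx η h
  · rw [hy η, if_neg h, dep_fun (p.meas η) (x := y) (y := fun ζ => if ζ < η then y ζ else default)
      fun ζ hζ => (if_pos hζ).symm]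
    exact hW _ (p.valid _ _)

theorem bd_nonempty (L : Set ι) (p : Cond ι) : (bd L p).Nonempty :=
  let ⟨y, _, h⟩ := exists_ext isLowerSet_empty (p := p) (x := default) fun _ h => h.elim
  ⟨y, bd_anti (subset_univ _) p h⟩

theorem bd_down {L M : Set ι} (hL : IsLowerSet L) {p : Cond ι} {S : Set (Pt ι)}
    (hS : Measurable[mL L] fun x => x ∈ S) (h : bd M p ⊆ S) : bd L p ⊆ S := fun _ hx =>
  let ⟨_, h1, h2⟩ := exists_ext hL hx
  (dep_prop hS h1).1 (h (bd_anti (subset_univ _) p h2))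

theorem bd_le_down {L M : Set ι} (hL : IsLowerSet L) (hM : L ⊆ M) {p q : Cond ι}
    (h : bd M q ⊆ bd M p) : bd L q ⊆ bd L p :=
  bd_down hL (meas_bd hL p) (h.trans (bd_anti hM p))

theorem K_le {M : Set ι} {ξ : ι} (hM : Iic ξ ⊆ M) {p q : Cond ι} (h : bd M q ⊆ bd M p)
    {x : Pt ι} (hx : x ∈ bd (Iio ξ) q) : K (q.f ξ x) ⊆ K (p.f ξ x) := by
  classical
  refine subset_of_infinite (q.valid ξ x) fun W hW hinf => ?_
  have h1 : ∀ η ∈ Iio ξ, x η = Function.update x ξ ⟨W, hinf⟩ η := fun η hη =>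
    (Function.update_of_ne (ne_of_lt hη) _ _).symm
  have h2 := (mem_bd_Iic.1 (bd_le_down (isLowerSet_Iic ξ) hM h
    (mem_bd_Iic.2 ⟨bd_congr (isLowerSet_Iio ξ) h1 hx, by
      rw [← dep_fun (q.meas ξ) h1, Function.update_self]; exact hW⟩))).2
  rwa [← dep_fun (p.meas ξ) h1, Function.update_self] at h2

/-- The fusion order. -/
def LeFn (L : Set ι) (F : Finset ι) (n : ℕ) (q p : Cond ι) : Prop :=
  bd L q ⊆ bd L p ∧ ∀ ξ ∈ F, ∀ x ∈ bd (Iio ξ) q, Same n (q.f ξ x) (p.f ξ x)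

omit [WellFoundedLT ι] in
theorem LeFn.refl (L : Set ι) (F : Finset ι) (n : ℕ) (p : Cond ι) : LeFn L F n p p :=
  ⟨subset_rfl, fun _ _ _ _ => Same.refl _ _⟩

omit [WellFoundedLT ι] in
theorem LeFn.anti {L : Set ι} {F G : Finset ι} {n m : ℕ} {p q : Cond ι} (h : LeFn L F n q p)
    (hG : G ⊆ F) (hm : m ≤ n) : LeFn L G m q p :=
  ⟨h.1, fun ξ hξ x hx => (h.2 ξ (hG hξ) x hx).anti hm⟩

theorem LeFn.trans {L : Set ι} (hL : IsLowerSet L) {F : Finset ι} (hF : ↑F ⊆ L) {n : ℕ}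
    {p q r : Cond ι} (h : LeFn L F n r q) (h' : LeFn L F n q p) : LeFn L F n r p :=
  ⟨h.1.trans h'.1, fun ξ hξ x hx => (h.2 ξ hξ x hx).trans
    (h'.2 ξ hξ x (bd_le_down (isLowerSet_Iio ξ) (low_Iio hL (hF hξ)) h.1 hx))⟩

theorem exists_lim {L : Set ι} (hL : IsLowerSet L) {F : ℕ → Finset ι} (hF : Monotone F)
    (hFL : ∀ k, ↑(F k) ⊆ L) {n : ℕ} {p : ℕ → Cond ι}
    (h : ∀ k, LeFn L (F k) (n + k) (p (k + 1)) (p k))
    (hs : ∀ k, ∀ ξ ∈ L, (∃ x, (p k).f ξ x ≠ top) → ∃ k', ξ ∈ F k') :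
    ∃ q, ∀ k, LeFn L (F k) (n + k) q (p k) := by
  classical
  let q : Cond ι :=
    { f := fun ξ x => if h : ∃ k, ξ ∈ F k then fix (lim (Nat.find h) fun k => (p k).f ξ x) else top
      meas := fun ξ => by
        split_ifs with h
        · exact @meas_fix _ (mL (Iio ξ)) _ (@meas_lim _ (mL (Iio ξ)) (fun k => (p k).f ξ)
            (fun k => (p k).meas ξ) _)
        · exact measurable_const
      valid := fun ξ x => by
        split_ifs
        exacts [valid_fix _, valid_top]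
      supp := (countable_iUnion fun k => (F k).countable_toSet).mono fun ξ ⟨x, hx⟩ => by
        by_contra hc
        exact hx (dif_neg fun ⟨k, hk⟩ => hc (mem_iUnion.2 ⟨k, hk⟩)) }
  have key : ∀ ξ ∈ L, ∀ x, (∀ k, x ∈ bd (Iio ξ) (p k)) → ∀ k,
      K (q.f ξ x) ⊆ K ((p k).f ξ x) ∧ (ξ ∈ F k → Same (n + k) (q.f ξ x) ((p k).f ξ x)) := by
    intro ξ hξ x hx k
    by_cases h1 : ∃ k, ξ ∈ F k
    · have h2 : ∀ k, Nat.find h1 ≤ k → Same (n + k) ((p (k + 1)).f ξ x) ((p k).f ξ x) :=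
        fun k hk => (h k).2 ξ (hF hk (Nat.find_spec h1)) x (hx _)
      have h3 : q.f ξ x = lim (Nat.find h1) fun k => (p k).f ξ x := by
        simp only [q, dif_pos h1]
        exact fix_eq (valid_lim (fun k => (p k).valid ξ x) h2)
      rw [h3]
      exact ⟨lim_subset (fun k => (p k).valid ξ x) h2
        (fun k => K_le (low_Iic hL hξ) (h k).1 (hx _)) k,
        fun hk => same_lim h2 (Nat.find_min' h1 hk)⟩
    · refine ⟨fun W _ => ?_, fun hk => absurd ⟨k, hk⟩ h1⟩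
      by_contra hc
      exact h1 (hs k ξ hξ ⟨x, fun h4 => hc (h4 ▸ mem_top W)⟩)
  have h4 : ∀ ξ ∈ L, ∀ x ∈ bd (Iio ξ) q, ∀ k, x ∈ bd (Iio ξ) (p k) := by
    intro ξ
    induction ξ using WellFoundedLT.induction with
    | ind ξ ih =>
      intro hξ x hx k η hη
      have h5 := hL (le_of_lt hη) hξ
      exact (key η h5 x (ih η hη h5 x (bd_anti (Iio_subset_Iio (le_of_lt hη)) q hx)) k).1 (hx η hη)
  exact ⟨q, fun k => ⟨fun x hx η hη =>
    (key η hη x (h4 η hη x (bd_anti (low_Iio hL hη) q hx)) k).1 (hx η hη),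
    fun ξ hξ x hx => (key ξ (hFL k hξ) x (h4 ξ (hFL k hξ) x hx) k).2 hξ⟩⟩

theorem fusion {L : Set ι} (hL : IsLowerSet L) {σ : Type} (c : σ → Cond ι)
    (I : σ → Finset ι → Prop) (R : ℕ → σ → σ → Prop) (n : ℕ) {s₀ : σ} {F₀ : Finset ι}
    (h0 : I s₀ F₀) (hF₀ : ↑F₀ ⊆ L)
    (step : ∀ k s F, I s F → F₀ ⊆ F → ↑F ⊆ L → ∀ G : Finset ι, ↑G ⊆ L → F ⊆ G →
      ∃ s', I s' G ∧ R k s s' ∧ LeFn L F (n + k) (c s') (c s)) :
    ∃ (s : ℕ → σ) (q : Cond ι), s 0 = s₀ ∧ (∀ k, R k (s k) (s (k + 1))) ∧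
      ∀ k, LeFn L F₀ (n + k) q (c (s k)) := by
  classical
  have he : ∀ p : Cond ι, ∃ e : ℕ → Finset ι, Monotone e ∧ (∀ k, ↑(e k) ⊆ L) ∧
      ∀ ξ ∈ L, (∃ x, p.f ξ x ≠ top) → ∃ k, ξ ∈ e k := fun p => by
    obtain ⟨g, hg⟩ := Set.countable_iff_exists_injOn.1 p.supp
    have h1 : ∀ k, {ξ | (ξ ∈ L ∧ ∃ x, p.f ξ x ≠ top) ∧ g ξ ≤ k}.Finite := fun k =>
      Finite.of_finite_image (f := g) ((finite_Iic k).subset (by
        rintro _ ⟨ξ, hξ, rfl⟩; exact hξ.2)) (hg.mono fun ξ hξ => hξ.1.2)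
    refine ⟨fun k => (h1 k).toFinset, fun a b hab ξ hξ => ?_, fun k ξ hξ => ?_,
      fun ξ h2 h3 => ⟨g ξ, ?_⟩⟩
    · simp only [Finite.mem_toFinset] at hξ ⊢
      exact ⟨hξ.1, hξ.2.trans hab⟩
    · simp only [Finite.coe_toFinset] at hξ
      exact hξ.1.1
    · simp only [Finite.mem_toFinset]
      exact ⟨⟨h2, h3⟩, le_rfl⟩
  choose e he1 he2 he3 using he
  let J : σ × Finset ι × (ℕ → Finset ι) → Prop := fun s =>
    I s.1 s.2.1 ∧ F₀ ⊆ s.2.1 ∧ ↑s.2.1 ⊆ L ∧ ∀ m, ↑(s.2.2 m) ⊆ L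
  have key : ∀ k s, J s → ∃ s', J s' ∧ R k s.1 s'.1 ∧ LeFn L s.2.1 (n + k) (c s'.1) (c s.1) ∧
      s'.2.1 = s.2.1 ∪ s.2.2 k ∧ ∀ m, s'.2.2 m = s.2.2 m ∪ e (c s'.1) m := by
    rintro k ⟨s, F, H⟩ ⟨h1, h2, h3, h4⟩
    have h5 : ↑(F ∪ H k) ⊆ L := by rw [Finset.coe_union]; exact union_subset h3 (h4 k)
    obtain ⟨s', a1, a2, a3⟩ := step k s F h1 h2 h3 _ h5 Finset.subset_union_left
    refine ⟨⟨s', F ∪ H k, fun m => H m ∪ e (c s') m⟩, ⟨a1, h2.trans Finset.subset_union_left, h5,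
      fun m => ?_⟩, a2, a3, rfl, fun _ => rfl⟩
    simp only [Finset.coe_union]
    exact union_subset (h4 m) (he2 _ m)
  choose! nx hnx using key
  let d : ℕ → σ × Finset ι × (ℕ → Finset ι) := fun k =>
    Nat.rec (s₀, F₀, e (c s₀)) (fun k x => nx k x) k
  have hJ : ∀ k, J (d k) := fun k => by
    induction k with
    | zero => exact ⟨h0, subset_rfl, hF₀, he2 _⟩
    | succ k ih => exact (hnx k _ ih).1
  have hd := fun k => (hnx k _ (hJ k)).2
  have h1 : ∀ k k', k ≤ k' → ∀ m, e (c (d k).1) m ⊆ (d k').2.2 m := fun k k' hk m => by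
    induction k', hk using Nat.le_induction with
    | base =>
      cases k with
      | zero => exact subset_rfl
      | succ k => exact ((hd k).2.2.2 m).symm ▸ Finset.subset_union_right
    | succ k' _ ih => exact ((hd k').2.2.2 m).symm ▸ ih.trans Finset.subset_union_left
  obtain ⟨q, hq⟩ := exists_lim hL (F := fun k => (d k).2.1) (p := fun k => c (d k).1) (n := n)
    (monotone_nat_of_le_succ fun k => (hd k).2.2.1.symm ▸ Finset.subset_union_left)
    (fun k => (hJ k).2.2.1) (fun k => (hd k).2.1) fun k ξ h2 h3 => by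
      obtain ⟨m, hm⟩ := he3 _ ξ h2 h3
      refine ⟨max k m + 1, (hd _).2.2.1.symm ▸ Finset.mem_union_right _ ?_⟩
      exact h1 k _ (le_max_left _ _) _ (he1 _ (le_max_right _ _) hm)
  exact ⟨fun k => (d k).1, q, rfl, fun k => (hd k).1, fun k => (hq k).anti (hJ k).2.1 le_rfl⟩

end Pool.Agent.Lib.Common.Iter
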