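import Mathlib
import Pool.Agent.Lib.Common.Iter.Cond

/-!
The covering property, the Borel dichotomy and their consequences, including uniformization.
-/

set_option autoImplicit false

namespace Pool.Agent.Lib.Common.Iter

open Set MeasureTheory

variable {ι : Type} [LinearOrder ι]

/-- `S` is covered by the bodies of countably many conditions in `D`. -/
def Cov (L : Set ι) (D : Cond ι → Prop) (S : Set (Pt ι)) : Prop :=
  ∃ 𝓡 : Set (Cond ι), 𝓡.Countable ∧ ∀ x ∈ S, ∃ r ∈ 𝓡, x ∈ bd L r ∧ D r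

theorem Cov.mono {L : Set ι} {D D' : Cond ι → Prop} {S S' : Set (Pt ι)} (h : Cov L D S)
    (hD : ∀ r, D r → D' r) (hS : S' ⊆ S) : Cov L D' S' :=
  let ⟨𝓡, h1, h2⟩ := h
  ⟨𝓡, h1, fun x hx => let ⟨r, a, b, c⟩ := h2 x (hS hx); ⟨r, a, b, hD r c⟩⟩

theorem Cov.iUnion {L : Set ι} {D : Cond ι → Prop} {I : Type} [Countable I] {S : I → Set (Pt ι)}
    (h : ∀ i, Cov L D (S i)) : Cov L D (⋃ i, S i) := by
  choose 𝓡 h1 h2 using h
  refine ⟨⋃ i, 𝓡 i, countable_iUnion h1, fun x hx => ?_⟩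
  obtain ⟨i, hi⟩ := mem_iUnion.1 hx
  obtain ⟨r, a, b⟩ := h2 i x hi
  exact ⟨r, mem_iUnion.2 ⟨i, a⟩, b⟩

theorem Cov.single {L : Set ι} {D : Cond ι → Prop} {r : Cond ι} (h : D r) : Cov L D (bd L r) :=
  ⟨{r}, countable_singleton r, fun _ hx => ⟨r, rfl, hx, h⟩⟩

theorem Cov.seq {L : Set ι} {D : Cond ι → Prop} {S : Set (Pt ι)} (h : Cov L D S) :
    ∃ r : ℕ → Cond ι, ∀ x ∈ S, ∃ i, x ∈ bd L (r i) ∧ D (r i) := by
  obtain ⟨𝓡, h1, h2⟩ := h
  obtain ⟨r, hr⟩ := (h1.insert default).exists_eq_range (insert_nonempty _ _)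
  refine ⟨r, fun x hx => ?_⟩
  obtain ⟨_, a, b⟩ := h2 x hx
  obtain ⟨i, rfl⟩ := hr.subset (mem_insert_of_mem _ a)
  exact ⟨i, b⟩

omit [LinearOrder ι] in
theorem exists_idx' {L : Set ι} {κ : Type} [Countable κ] [Nonempty κ] [MeasurableSpace κ]
    (P : κ → Pt ι → Prop) (hP : ∀ k, Measurable[mL L] (P k)) :
    ∃ i : Pt ι → κ, Measurable[mL L] i ∧ ∀ x, (∃ k, P k x) → P (i x) x :=
  let ⟨i, h1, _, h2⟩ := @exists_idx _ (mL L) κ _ _ _ P hP
  ⟨i, h1, h2⟩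

theorem Cov.idx {L : Set ι} (hL : IsLowerSet L) {D : Cond ι → Prop} {S : Set (Pt ι)}
    (h : Cov L D S) : ∃ (r : ℕ → Cond ι) (i : Pt ι → ℕ), Measurable[mL L] i ∧
      ∀ x ∈ S, x ∈ bd L (r (i x)) ∧ D (r (i x)) := by
  obtain ⟨r, hr⟩ := h.seq
  obtain ⟨i, h1, h2⟩ := exists_idx' (L := L) (fun i x => x ∈ bd L (r i) ∧ D (r i)) fun i => by
    have := meas_bd hL (r i)
    let := mL L
    fun_prop
  exact ⟨r, i, h1, fun x hx => h2 x (hr x hx)⟩

/-- Density below `(V, p)` in the product with almost inclusion. -/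
def Dense2 (L : Set ι) (D : X → Cond ι → Prop) (V : X) (p : Cond ι) : Prop :=
  ∀ V' p', Als V' V → bd L p' ⊆ bd L p → ∃ V'' q, Als V'' V' ∧ bd L q ⊆ bd L p' ∧ D V'' q

theorem Dense2.mono {L : Set ι} {D : X → Cond ι → Prop} {V V' : X} {p p' : Cond ι}
    (h : Dense2 L D V p) (hV : Als V' V) (hp : bd L p' ⊆ bd L p) : Dense2 L D V' p' :=
  fun V'' p'' a b => h V'' p'' (a.trans hV) (b.trans hp)

/-- The covering property. -/
def PA (L : Set ι) : Prop :=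
  ∀ D : X → Cond ι → Prop, (∀ V V' r, D V r → Als V' V → D V' r) →
    ∀ V p (F : Finset ι) n, ↑F ⊆ L → Dense2 L D V p →
      ∃ V' q, Als V' V ∧ LeFn L F n q p ∧ Cov L (D V') (bd L q)

/-- The Borel dichotomy. -/
def PB (L : Set ι) : Prop :=
  ∀ P : Pt ι → Prop, Measurable[mL L] P → ∀ p, ∃ q, bd L q ⊆ bd L p ∧
    ((∀ x ∈ bd L q, P x) ∨ ∀ x ∈ bd L q, ¬ P x)

theorem exists_put {ξ : ι} {r p : Cond ι} {g : Pt ι → Raw} (hg : Measurable[mL (Iio ξ)] g)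
    (h1 : bd (Iio ξ) r ⊆ bd (Iio ξ) p)
    (h2 : ∀ x ∈ bd (Iio ξ) r, Valid (g x) ∧ K (g x) ⊆ K (p.f ξ x)) :
    ∃ q : Cond ι, (∀ η < ξ, q.f η = r.f η) ∧ bd (Iio ξ) q = bd (Iio ξ) r ∧
      (∀ x ∈ bd (Iio ξ) r, q.f ξ x = g x) ∧ ∀ M, Iio ξ ⊆ M → bd M q ⊆ bd M p := by
  have hL := isLowerSet_Iio ξ
  have h3 : ∀ x ∈ bd (Iio ξ) r, (join hL r (upd p ξ hg)).f ξ x = g x := fun x hx => by
    rw [join_out hL _ _ (lt_irrefl ξ), upd_self _ _ _ (h2 x hx).1]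
  refine ⟨join hL r (upd p ξ hg), fun η hη => join_in hL _ _ hη, bd_join_low hL _ _ subset_rfl,
    h3, fun M hM x hx η hη => ?_⟩
  have h4 := join_le_left hL _ _ hM hx
  rcases lt_trichotomy η ξ with h | rfl | h
  · exact h1 h4 η h
  · exact (h2 x h4).2 (h3 x h4 ▸ hx η hη)
  · have := hx η hη
    rwa [join_out hL _ _ (not_lt.2 h.le), upd_ne _ _ h.ne'] at this

variable [WellFoundedLT ι] {L : Set ι}

theorem PA.omega (hL : IsLowerSet L) (hA : PA L) {I : Type} [Countable I]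
    (D : I → X → Cond ι → Prop) (hD : ∀ i V V' r, D i V r → Als V' V → D i V' r)
    (V : X) (p : Cond ι) (F : Finset ι) (n : ℕ) (hF : ↑F ⊆ L) (h : ∀ i, Dense2 L (D i) V p) :
    ∃ V' q, Als V' V ∧ LeFn L F n q p ∧ ∀ i, Cov L (D i V') (bd L q) := by
  rcases isEmpty_or_nonempty I with hI | hI
  · exact ⟨V, p, Als.refl _, LeFn.refl _ _ _ _, fun i => hI.elim i⟩
  obtain ⟨e, he⟩ := exists_surjective_nat I
  obtain ⟨s, q, h0, h1, h2⟩ := fusion hL (σ := X × Cond ι) Prod.snd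
    (fun s _ => Als s.1 V ∧ bd L s.2 ⊆ bd L p)
    (fun k s s' => Als s'.1 s.1 ∧ Cov L (D (e k) s'.1) (bd L s'.2)) n (s₀ := (V, p))
    ⟨Als.refl _, subset_rfl⟩ hF fun k s F' a _ b _ _ _ => by
      obtain ⟨V', q, c1, c2, c3⟩ := hA (D (e k)) (hD _) s.1 s.2 F' (n + k) b ((h _).mono a.1 a.2)
      exact ⟨(V', q), ⟨c1.trans a.1, c2.1.trans a.2⟩, ⟨c1, c3⟩, c2⟩
  obtain ⟨W, hW⟩ := exists_pseudo (V := fun k => (s k).1) fun k => (h1 k).1
  refine ⟨W, q, by simpa only [h0] using hW 0, by simpa only [h0, Nat.add_zero] using h2 0, fun i => ?_⟩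
  obtain ⟨k, rfl⟩ := he i
  exact (h1 k).2.mono (fun r hr => hD _ _ _ r hr (hW (k + 1))) (h2 (k + 1)).1

theorem PA.omega' (hL : IsLowerSet L) (hA : PA L) {I : Type} [Countable I]
    (D : I → Cond ι → Prop) (p : Cond ι) (F : Finset ι) (n : ℕ) (hF : ↑F ⊆ L)
    (h : ∀ i p', bd L p' ⊆ bd L p → ∃ q, bd L q ⊆ bd L p' ∧ D i q) :
    ∃ q, LeFn L F n q p ∧ ∀ i, Cov L (D i) (bd L q) :=
  let ⟨_, q, _, h1⟩ := hA.omega hL (fun i _ => D i) (fun _ _ _ _ h _ => h) default p F n hF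
    fun i V' p' _ hp => let ⟨q, h2⟩ := h i p' hp; ⟨V', q, Als.refl _, h2⟩
  ⟨q, h1⟩

theorem PA.null (hL : IsLowerSet L) (hA : PA L) {I : Type} [Countable I]
    (P : I → Pt ι → Prop) (p : Cond ι) (F : Finset ι) (n : ℕ) (hF : ↑F ⊆ L)
    (h : ∀ i p', bd L p' ⊆ bd L p → ∃ q, bd L q ⊆ bd L p' ∧ ∀ x ∈ bd L q, ¬ P i x) :
    ∃ q, LeFn L F n q p ∧ ∀ i, ∀ x ∈ bd L q, ¬ P i x :=
  let ⟨q, h1, h2⟩ := hA.omega' hL (fun i q => ∀ x ∈ bd L q, ¬ P i x) p F n hF h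
  ⟨q, h1, fun i x hx =>
    let ⟨_, _, h3⟩ := h2 i
    let ⟨_, _, h4, h5⟩ := h3 x hx
    h5 x h4⟩

theorem PA.null' (hL : IsLowerSet L) (hA : PA L) (hB : PB L) {I : Type} [Countable I]
    (P : I → Pt ι → Prop) (hP : ∀ i, Measurable[mL L] (P i)) (p : Cond ι) (F : Finset ι) (n : ℕ)
    (hF : ↑F ⊆ L) (h : ∀ i p', bd L p' ⊆ bd L p → ¬ ∀ x ∈ bd L p', P i x) :
    ∃ q, LeFn L F n q p ∧ ∀ i, ∀ x ∈ bd L q, ¬ P i x :=
  hA.null hL P p F n hF fun i p' hp =>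
    let ⟨q, h1, h2⟩ := hB (P i) (hP i) p'
    ⟨q, h1, h2.resolve_left (h i q (h1.trans hp))⟩

theorem PA.fix (hL : IsLowerSet L) (hA : PA L) (hB : PB L) {I : Type} [Countable I]
    (P : I → Pt ι → Prop) (hP : ∀ i, Measurable[mL L] (P i)) (p : Cond ι)
    (h : ∀ x ∈ bd L p, ∃ i, P i x) : ∃ q, bd L q ⊆ bd L p ∧ ∃ i, ∀ x ∈ bd L q, P i x := by
  by_contra hc
  obtain ⟨q, h1, h2⟩ := hA.null' hL hB P hP p ∅ 0 (by simp) fun i p' a b => hc ⟨p', a, i, b⟩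
  obtain ⟨x, hx⟩ := bd_nonempty L q
  obtain ⟨i, hi⟩ := h x (h1.1 hx)
  exact h2 i x hx hi

theorem pb_step (hL : IsLowerSet L) (hA : PA L) (hB : ∀ η ∈ L, PB (Iio η)) : PB L := by
  let m : MeasurableSpace (Pt ι) :=
    { MeasurableSet' := fun S => ∀ p, ∃ q, bd L q ⊆ bd L p ∧
        ((∀ x ∈ bd L q, x ∈ S) ∨ ∀ x ∈ bd L q, x ∉ S)
      measurableSet_empty := fun p => ⟨p, subset_rfl, Or.inr fun _ _ h => h⟩
      measurableSet_compl := fun S h p =>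
        let ⟨q, h1, h2⟩ := h p
        ⟨q, h1, h2.symm.imp id fun h3 x hx h4 => h4 (h3 x hx)⟩
      measurableSet_iUnion := fun S h p => by
        by_cases h1 : ∃ q, bd L q ⊆ bd L p ∧ ∃ i, ∀ x ∈ bd L q, x ∈ S i
        · obtain ⟨q, a, i, b⟩ := h1
          exact ⟨q, a, Or.inl fun x hx => mem_iUnion.2 ⟨i, b x hx⟩⟩
        · obtain ⟨q, a, b⟩ := hA.null hL (fun i x => x ∈ S i) p ∅ 0 (by simp) fun i p' hp =>
            let ⟨q, h2, h3⟩ := h i p'
            ⟨q, h2, h3.resolve_left fun h4 => h1 ⟨q, h2.trans hp, i, h4⟩⟩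
          exact ⟨q, a.1, Or.inr fun x hx h2 => let ⟨i, hi⟩ := mem_iUnion.1 h2; b i x hx hi⟩ }
  have hm : mL L ≤ m := by
    refine iSup₂_le fun η hη => Measurable.comap_le (Measurable.subtype_mk
      (measurable_set_iff.2 fun a => measurableSet_setOfPred.1 fun p => ?_))
    have h1 := p.meas η
    obtain ⟨r, h2, h3⟩ := hB η hη (fun x => a ∈ tr (p.f η x).1 ((p.f η x).2.1 0))
      (by let := mL (Iio η); fun_prop) p
    obtain ⟨q, -, h4, h5, h6⟩ := exists_put (r := r) (p := p) (ξ := η)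
      (g := fun x => cut (p.f η x) (a + 1) (tr (p.f η x).1 ((p.f η x).2.1 0)))
      (by let := mL (Iio η); fun_prop) h2 fun x _ =>
        ⟨(p.valid η x).cut _ _, cut_subset (p.valid η x) (stem_mem (p.valid η x))⟩
    have h7 : ∀ x ∈ bd L q, x ∈ bd (Iio η) r ∧
        (a ∈ (x η).1 ↔ a ∈ tr (p.f η x).1 ((p.f η x).2.1 0)) := fun x hx => by
      have h8 := h4 ▸ bd_anti (low_Iio hL hη) q hx
      have h9 := hx η hη
      rw [h5 x h8] at h9
      exact ⟨h8, (mem_cut_iff.1 h9).1 a (Nat.zero_le _) ((p.valid η x).le (a + 1))⟩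
    exact ⟨q, h6 L (low_Iio hL hη), h3.imp (fun h x hx => (h7 x hx).2.2 (h x (h7 x hx).1))
      fun h x hx h' => h x (h7 x hx).1 ((h7 x hx).2.1 h')⟩
  exact fun P hP p => hm _ (@Measurable.setOf _ (mL L) _ hP) p

theorem exists_hull (hL : IsLowerSet L) (hA : PA L) (hB : PB L) {I : Type} [Countable I]
    (A : I → Pt ι → Prop) (p : Cond ι) (F : Finset ι) (n : ℕ) (hF : ↑F ⊆ L) :
    ∃ (q : Cond ι) (N : I → Pt ι → Prop), LeFn L F n q p ∧ (∀ i, Measurable[mL L] (N i)) ∧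
      (∀ i, ∀ x ∈ bd L q, A i x → N i x) ∧
      ∀ i r, (∀ x ∈ bd L r, N i x) → ∃ x ∈ bd L r, A i x := by
  obtain ⟨q, h1, h2⟩ := hA.omega' hL (fun i r => (∀ x ∈ bd L r, ¬ A i x) ∨
      ∀ r', bd L r' ⊆ bd L r → ∃ x ∈ bd L r', A i x) p F n hF fun i p' _ => by
    by_cases h : ∀ r', bd L r' ⊆ bd L p' → ∃ x ∈ bd L r', A i x
    · exact ⟨p', subset_rfl, Or.inr h⟩
    · push Not at h
      obtain ⟨r', a, b⟩ := h
      exact ⟨r', a, Or.inl b⟩
  choose r hr using fun i => (h2 i).seq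
  have hm : ∀ i k, Measurable[mL L] fun x => x ∈ bd L (r i k) ∧
      ∀ r', bd L r' ⊆ bd L (r i k) → ∃ x ∈ bd L r', A i x := fun i k => by
    have h3 := meas_bd hL (r i k)
    let := mL L
    exact h3.and measurable_const
  refine ⟨q, fun i x => ∃ k, x ∈ bd L (r i k) ∧
    ∀ r', bd L r' ⊆ bd L (r i k) → ∃ x ∈ bd L r', A i x, h1,
    fun i => by let := mL L; exact Measurable.exists (hm i), fun i x hx h3 => ?_,
    fun i r' h3 => ?_⟩
  · obtain ⟨k, a, b⟩ := hr i x hx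
    exact ⟨k, a, b.resolve_left fun h4 => h4 x a h3⟩
  · obtain ⟨r'', a, k, b⟩ := hA.fix hL hB _ (hm i) r' h3
    obtain ⟨y, hy⟩ := bd_nonempty L r''
    obtain ⟨x, c, d⟩ := (b y hy).2 r'' fun x hx => (b x hx).1
    exact ⟨x, a c, d⟩

theorem exists_scheme {Y Z : Type} [MeasurableSpace Y] [hY : StandardBorelSpace Y]
    [MeasurableSpace Z] [hZ : StandardBorelSpace Z] {R : Set (Y × Z)} (hR : MeasurableSet R)
    (hne : R.Nonempty) : ∃ (A B : List ℕ → Set Y) (φ : (ℕ → ℕ) → Z), Measurable φ ∧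
      (∀ σ, MeasurableSet (B σ)) ∧ (∀ σ, A σ ⊆ B σ) ∧ (∀ y z, (y, z) ∈ R → y ∈ A []) ∧
      (∀ σ, ∀ y ∈ A σ, ∃ m, y ∈ A (m :: σ)) ∧
      ∀ w y, (∀ k, y ∈ B (PiNat.res w k)) → (y, φ w) ∈ R := by
  obtain ⟨_, _, _⟩ := hY.polish
  obtain ⟨_, _, _⟩ := hZ.polish
  have h := hR.analyticSet
  rw [AnalyticSet] at h
  obtain ⟨f, hf, rfl⟩ := h.resolve_left hne.ne_empty
  let A : List ℕ → Set Y := fun σ => (fun w => (f w).1) '' {w | PiNat.res w σ.length = σ}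
  refine ⟨A, fun σ => closure (A σ), fun w => (f w).2, hf.snd.measurable,
    fun σ => isClosed_closure.measurableSet, fun σ => subset_closure, ?_, ?_, fun w y h => ?_⟩
  · rintro y z ⟨w, hw⟩
    exact ⟨w, rfl, congrArg Prod.fst hw⟩
  · rintro σ _ ⟨w, hw, rfl⟩
    exact ⟨w σ.length, w, congrArg (w σ.length :: ·) hw, rfl⟩
  · suffices y = (f w).1 from ⟨w, by rw [this]⟩
    by_contra hc
    obtain ⟨U, U', h1, h2, h3, h4, h5⟩ := t2_separation hc
    obtain ⟨_, ⟨w', k, rfl⟩, h6, h7⟩ := (PiNat.isTopologicalBasis_cylinders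
      (fun _ : ℕ => ℕ)).exists_subset_of_mem_open (a := w) h4 (h2.preimage hf.fst)
    obtain ⟨_, h8, w'', h9, rfl⟩ := mem_closure_iff.1 (h k) U h1 h3
    refine h5.ne_of_mem h8 (h7 ?_) rfl
    rw [PiNat.cylinder_eq_res] at h6 ⊢
    simp only [mem_ofPred_eq, PiNat.res_length] at h6 h9 ⊢
    exact h9.trans h6

omit [LinearOrder ι] [WellFoundedLT ι] in
theorem exists_countable_dep {Z : Type} [MeasurableSpace Z] {R : Pt ι × Z → Prop}
    (hR : Measurable[@Prod.instMeasurableSpace _ _ (mL L) _] R) :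
    ∃ C ⊆ L, C.Countable ∧ ∀ x y z, (∀ η ∈ C, x η = y η) → R (x, z) → R (y, z) := by
  let m : MeasurableSpace (Pt ι × Z) :=
    { MeasurableSet' := fun S => ∃ C ⊆ L, C.Countable ∧
        ∀ x y z, (∀ η ∈ C, x η = y η) → (x, z) ∈ S → (y, z) ∈ S
      measurableSet_empty := ⟨∅, empty_subset _, countable_empty, fun _ _ _ _ h => h⟩
      measurableSet_compl := fun _ ⟨C, h1, h2, h3⟩ => ⟨C, h1, h2, fun x y z h4 h5 h6 =>
        h5 (h3 y x z (fun η hη => (h4 η hη).symm) h6)⟩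
      measurableSet_iUnion := fun S h => by
        choose C h1 h2 h3 using h
        refine ⟨⋃ i, C i, iUnion_subset h1, countable_iUnion h2, fun x y z h4 h5 => ?_⟩
        obtain ⟨i, hi⟩ := mem_iUnion.1 h5
        exact mem_iUnion.2 ⟨i, h3 i x y z (fun η hη => h4 η (mem_iUnion.2 ⟨i, hη⟩)) hi⟩ }
  have hm : @Prod.instMeasurableSpace _ _ (mL L) _ ≤ m := by
    refine sup_le (MeasurableSpace.comap_le_iff_le_map.2 (iSup₂_le fun η hη => ?_)) ?_
    · rintro _ ⟨T, -, rfl⟩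
      refine ⟨{η}, singleton_subset_iff.2 hη, countable_singleton _, fun x y z h1 h2 => ?_⟩
      show y η ∈ T
      rw [← h1 η rfl]
      exact h2
    · rintro _ ⟨T, -, rfl⟩
      exact ⟨∅, empty_subset _, countable_empty, fun _ _ _ _ h => h⟩
  exact hm _ (@Measurable.setOf _ (@Prod.instMeasurableSpace _ _ (mL L) _) _ hR)

/-- Uniformization. -/
theorem unif (hL : IsLowerSet L) (hA : PA L) (hB : PB L) {Z : Type} [MeasurableSpace Z]
    [StandardBorelSpace Z] (R : Pt ι → Z → Prop)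
    (hR : Measurable[@Prod.instMeasurableSpace _ _ (mL L) _] fun w : Pt ι × Z => R w.1 w.2)
    (p : Cond ι) (F : Finset ι) (n : ℕ) (hF : ↑F ⊆ L) (h : ∀ x ∈ bd L p, ∃ z, R x z) :
    ∃ q g, Measurable[mL L] g ∧ LeFn L F n q p ∧ ∀ x ∈ bd L q, R x (g x) := by
  classical
  obtain ⟨C, hC, hc, hdep⟩ := exists_countable_dep hR
  have := hc.to_subtype
  let ex : (C → X) → Pt ι := fun u η => if h : η ∈ C then u ⟨η, h⟩ else default
  let rs : Pt ι → C → X := fun x η => x η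
  have hex : @Measurable _ _ _ (mL L) ex := by
    refine Measurable.of_le_map (iSup₂_le fun η _ =>
      MeasurableSpace.comap_le_iff_le_map.2 (Measurable.le_map (f := fun u => ex u η) ?_))
    by_cases h : η ∈ C
    · simpa only [ex, dif_pos h] using measurable_pi_apply _
    · simpa only [ex, dif_neg h] using measurable_const
  have hrs : Measurable[mL L] rs := by
    let := mL L
    exact measurable_pi_lambda _ fun η => meas_ev (hC η.2)
  have h1 : ∀ x, ∀ η ∈ C, x η = ex (rs x) η := fun x η hη => by simp only [ex, dif_pos hη, rs]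
  obtain ⟨A, B, φ, hφ, hBm, hAB, hA0, hAs, hBw⟩ := exists_scheme
    (R := {w : (C → X) × Z | R (ex w.1) w.2})
    (by let := mL L; exact (hR.comp (hex.prodMap measurable_id)).setOf)
    (by
      obtain ⟨x, hx⟩ := bd_nonempty L p
      obtain ⟨z, hz⟩ := h x hx
      exact ⟨(rs x, z), hdep x _ z (h1 x) hz⟩)
  obtain ⟨q₁, N, a1, a2, a3, a4⟩ := exists_hull hL hA hB (fun σ x => rs x ∈ A σ) p F n hF
  obtain ⟨q, b1, b2⟩ := hA.null' hL hB
    (fun σ x => N σ x ∧ ¬ (rs x ∈ B σ ∧ ∃ m, N (m :: σ) x)) (fun σ => by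
      let := mL L
      have := measurableSet_setOfPred.1 (hrs (hBm σ))
      exact (a2 σ).and (this.and (Measurable.exists fun m => a2 _)).not) q₁ F n hF
    fun σ r hr h2 => by
      obtain ⟨x, c1, c2⟩ := a4 σ r fun x hx => (h2 x hx).1
      obtain ⟨m, hm⟩ := hAs σ _ c2
      exact (h2 x c1).2 ⟨hAB σ c2, m, a3 _ x (hr c1) hm⟩
  choose i hi1 hi2 using fun σ : List ℕ => exists_idx' (L := L) (fun m => N (m :: σ)) fun m => a2 _
  let s : ℕ → Pt ι → List ℕ := fun k => Nat.rec (fun _ => []) (fun _ s x => i (s x) x :: s x) k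
  let _ : MeasurableSpace (List ℕ) := ⊤
  have hs : ∀ k, Measurable[mL L] (s k) := fun k => by
    let := mL L
    induction k with
    | zero => exact measurable_const
    | succ k ih =>
      exact meas_disc ih (g := fun σ x => i σ x :: σ) fun σ =>
        (measurable_of_countable (· :: σ)).comp (hi1 σ)
  have hres : ∀ x k, PiNat.res (fun k => i (s k x) x) k = s k x := fun x k => by
    induction k with
    | zero => rfl
    | succ k ih => rw [PiNat.res_succ, ih]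
  refine ⟨q, fun x => φ fun k => i (s k x) x, ?_, b1.trans hL hF a1, fun x hx => ?_⟩
  · let := mL L
    exact hφ.comp (measurable_pi_lambda _ fun k => meas_disc (hs k) hi1)
  · have hN : ∀ k, N (s k x) x := fun k => by
      induction k with
      | zero =>
        obtain ⟨z, hz⟩ := h x (a1.1 (b1.1 hx))
        exact a3 _ x (b1.1 hx) (hA0 _ z (hdep x _ z (h1 x) hz))
      | succ k ih => exact hi2 _ x (not_not.1 fun h2 => b2 _ x hx ⟨ih, fun h3 => h2 h3.2⟩)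
    refine hdep _ x _ (fun η hη => (h1 x η hη).symm) (hBw _ (rs x) fun k => ?_)
    rw [hres]
    exact not_not.1 fun h2 => b2 _ x hx ⟨hN k, fun h3 => h2 h3.1⟩

end Pool.Agent.Lib.Common.Iter
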