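import Mathlib
import Pool.Agent.Lib.Common.Iter.Q

/-!
Block-by-block constructions of conditions.
-/

set_option autoImplicit false

namespace Pool.Agent.Lib.Common.Iter

open Set

/-- Replace block `i` and make the later blocks trivial. -/
def ext1 (c : Raw) (i N : ℕ) (G : Finset (Finset ℕ)) : Raw :=
  (c.1, fun l => if l ≤ i then c.2.1 l else N + (l - (i + 1)),
    fun l => if l < i then c.2.2 l else if l = i then G else {{N + (l - (i + 1))}})

theorem same_ext1 (c : Raw) (i N : ℕ) (G : Finset (Finset ℕ)) : Same i (ext1 c i N G) c :=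
  ⟨rfl, fun _ hl => if_pos hl, fun _ hl => if_pos hl⟩

theorem ext1_e (c : Raw) (i N : ℕ) (G : Finset (Finset ℕ)) : (ext1 c i N G).2.1 (i + 1) = N := by
  simp [ext1]

theorem ext1_F (c : Raw) (i N : ℕ) (G : Finset (Finset ℕ)) : (ext1 c i N G).2.2 i = G := by
  simp [ext1]

theorem valid_ext1 {c : Raw} (hc : Valid c) {i N : ℕ} {G : Finset (Finset ℕ)} (hN : c.2.1 i < N)
    (hG : L0 i G) (hs : ∀ t ∈ G, ∀ a ∈ t, c.2.1 i ≤ a ∧ a < N) : Valid (ext1 c i N G) := by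
  refine ⟨fun l => ?_, fun l => ?_, fun l => ?_⟩
  · rcases lt_trichotomy l i with h | rfl | h
    · simpa [ext1, h.le, Nat.succ_le_of_lt h] using hc.lt l
    · simpa [ext1] using hN
    · simp only [ext1, if_neg (not_le.2 h), if_neg (show ¬ l + 1 ≤ i by omega)]
      omega
  · rcases lt_trichotomy l i with h | rfl | h
    · simpa [ext1, h] using hc.large l
    · simpa [ext1] using hG
    · simp only [ext1, if_neg (not_lt.2 h.le), if_neg h.ne']
      exact fun χ => ⟨_, Finset.mem_singleton_self _, by simp, by simp⟩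
  · rcases lt_trichotomy l i with h | rfl | h
    · simpa [ext1, h, h.le, Nat.succ_le_of_lt h] using hc.sub l
    · simpa [ext1] using hs
    · simp only [ext1, if_neg (not_lt.2 h.le), if_neg h.ne', if_neg (not_le.2 h),
        if_neg (show ¬ l + 1 ≤ i by omega), Finset.mem_singleton]
      rintro t rfl a ha
      rw [Finset.mem_singleton] at ha
      omega

theorem build {c : Raw} (hc : Valid c) (j : ℕ) (𝒩 : Finset ℕ → Prop)
    (Ex : Finset (Finset ℕ) → ℕ → Prop)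
    (h0 : ∀ s : Finset ℕ, (s : Set ℕ) ∈ K c → (∀ a ∈ s, a < c.2.1 j) → 𝒩 s)
    (step : ∀ (S : Finset (Finset ℕ)) (m N : ℕ), c.2.1 j ≤ N → (∀ s ∈ S, 𝒩 s ∧ ∀ a ∈ s, a < N) →
      ∃ N', N < N' ∧ ∃ G, L0 m G ∧ (∀ t ∈ G, ∀ a ∈ t, N ≤ a ∧ a < N') ∧ Ex G N' ∧
        ∀ t ∈ G, ∀ s ∈ S, 𝒩 (s ∪ t)) :
    ∃ c', Valid c' ∧ Same j c' c ∧ (∀ s : Finset ℕ, (s : Set ℕ) ∈ K c' → 𝒩 s) ∧
      ∀ l, j ≤ l → Ex (c'.2.2 l) (c'.2.1 (l + 1)) := by
  classical
  let I : ℕ → Raw → Prop := fun k d => Valid d ∧ c.2.1 j ≤ d.2.1 (j + k) ∧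
    ∀ s : Finset ℕ, (s : Set ℕ) ∈ K d → (∀ a ∈ s, a < d.2.1 (j + k)) → 𝒩 s
  have key : ∀ k d, I k d → ∃ d', I (k + 1) d' ∧ Same (j + k) d' d ∧
      Ex (d'.2.2 (j + k)) (d'.2.1 (j + k + 1)) := by
    rintro k d ⟨hd, hle, hN⟩
    obtain ⟨N', h1, G, h2, h3, h4, h5⟩ := step
      ((Finset.range (d.2.1 (j + k))).powerset.filter fun s => (s : Set ℕ) ∈ K d) (j + k) _ hle
      fun s hs => by
        simp only [Finset.mem_filter, Finset.mem_powerset] at hs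
        have : ∀ a ∈ s, a < d.2.1 (j + k) := fun a ha => Finset.mem_range.1 (hs.1 ha)
        exact ⟨hN s hs.2 this, this⟩
    have hv := valid_ext1 hd h1 h2 h3
    have hsame := same_ext1 d (j + k) N' G
    have he : (ext1 d (j + k) N' G).2.1 (j + k) = d.2.1 (j + k) := hsame.2.1 _ le_rfl
    refine ⟨_, ⟨hv, ?_, fun s hs hb => ?_⟩, hsame, by rw [ext1_e, ext1_F]; exact h4⟩
    · rw [← Nat.add_assoc, ext1_e]; omega
    · rw [← Nat.add_assoc, ext1_e] at hb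
      have h6 := tr_mem hv hs (j + k)
      rw [he] at h6
      have h7 := hsame.mem hd h6 fun a ha => (mem_tr.1 ha).1
      obtain ⟨t, ht, hag⟩ := hs.2 (j + k)
      rw [he, ext1_e] at hag
      rw [ext1_F] at ht
      have hs' : s = tr s (d.2.1 (j + k)) ∪ t := by
        ext a
        simp only [Finset.mem_union, mem_tr, Finset.mem_coe]
        constructor
        · intro ha
          rcases lt_or_ge a (d.2.1 (j + k)) with h | h
          · exact Or.inl ⟨h, ha⟩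
          · exact Or.inr ((hag a h (hb a ha)).1 ha)
        · rintro (h | h)
          · exact h.2
          · rcases ht with rfl | ht
            · simp at h
            · exact (hag a (h3 t ht a h).1 (h3 t ht a h).2).2 h
      rw [hs']
      rcases ht with rfl | ht
      · rw [Finset.union_empty]
        exact hN _ h7 fun a ha => (mem_tr.1 ha).1
      · refine h5 t ht _ (Finset.mem_filter.2 ⟨Finset.mem_powerset.2 fun a ha => ?_, h7⟩)
        exact Finset.mem_range.2 (mem_tr.1 ha).1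
  choose! nx hnx using key
  let d : ℕ → Raw := fun k => Nat.rec c (fun k x => nx k x) k
  have hI : ∀ k, I k (d k) := fun k => by
    induction k with
    | zero => exact ⟨hc, le_rfl, h0⟩
    | succ k ih => exact (hnx k _ ih).1
  have hS : ∀ k, 0 ≤ k → Same (j + k) (d (k + 1)) (d k) := fun k _ => (hnx k _ (hI k)).2.1
  refine ⟨lim 0 d, valid_lim (fun k => (hI k).1) hS, same_lim hS le_rfl, fun s hs => ?_,
    fun l hl => ?_⟩
  · obtain ⟨N, hN⟩ := s.bddAbove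
    have hb : ∀ a ∈ s, a < (d (N + 1)).2.1 (j + (N + 1)) := fun a ha => by
      have h1 := hN ha
      have h2 := (hI (N + 1)).1.le (j + (N + 1))
      omega
    exact (hI (N + 1)).2.2 s ((same_lim hS (Nat.zero_le (N + 1))).mem (hI (N + 1)).1 hs hb) hb
  · obtain ⟨k, rfl⟩ := Nat.exists_eq_add_of_le hl
    have h1 := same_lim hS (Nat.zero_le (k + 1))
    rw [h1.2.2 _ (by omega), h1.2.1 _ (by omega)]
    exact (hnx k _ (hI k)).2.2

/-- Large subfamilies satisfying `G` occur in infinitely many blocks. -/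
def LimL (c : Raw) (G : ℕ → Finset ℕ → Prop) : Prop :=
  ∀ m l₀, ∃ l, l₀ ≤ l ∧ ∃ H : Finset (Finset ℕ), (∀ t, t ∈ H → t ∈ c.2.2 l ∧ G l t) ∧ L0 m H

theorem LimL.mono {c : Raw} {G G' : ℕ → Finset ℕ → Prop} (h : LimL c G)
    (h' : ∀ l t, G l t → G' l t) : LimL c G' := fun m l₀ =>
  let ⟨l, h1, H, h2, h3⟩ := h m l₀
  ⟨l, h1, H, fun t ht => ⟨(h2 t ht).1, h' l t (h2 t ht).2⟩, h3⟩

theorem limL_true {c : Raw} (hc : Valid c) : LimL c fun _ _ => True := fun m l₀ =>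
  ⟨max m l₀, le_max_right _ _, _, fun _ ht => ⟨ht, trivial⟩, (hc.large _).anti (le_max_left _ _)⟩

theorem limL_or_of {c : Raw} {G G1 G2 : ℕ → Finset ℕ → Prop} (h : LimL c G) (φ : ℕ → ℕ)
    (h' : ∀ m l H, (∀ t, t ∈ H → t ∈ c.2.2 l ∧ G l t) → L0 (φ m) H →
      (∃ H, (∀ t, t ∈ H → t ∈ c.2.2 l ∧ G1 l t) ∧ L0 m H) ∨
        ∃ H, (∀ t, t ∈ H → t ∈ c.2.2 l ∧ G2 l t) ∧ L0 m H) : LimL c G1 ∨ LimL c G2 := by
  by_contra hc
  simp only [LimL, not_or, not_forall, not_exists, not_and] at hc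
  obtain ⟨⟨m1, l1, h1⟩, ⟨m2, l2, h2⟩⟩ := hc
  obtain ⟨l, hl, H, h3, h4⟩ := h (φ (max m1 m2)) (max l1 l2)
  rcases h' _ l H h3 h4 with ⟨H', h5, h6⟩ | ⟨H', h5, h6⟩
  · exact h1 l (le_of_max_le_left hl) H' h5 (h6.anti (le_max_left _ _))
  · exact h2 l (le_of_max_le_right hl) H' h5 (h6.anti (le_max_right _ _))

theorem LimL.or {c : Raw} {G1 G2 : ℕ → Finset ℕ → Prop}
    (h : LimL c fun l t => G1 l t ∨ G2 l t) : LimL c G1 ∨ LimL c G2 := by
  classical
  refine limL_or_of h (fun m => (m + 1) * (m + 1)) fun m l H h1 h2 => ?_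
  refine (h2.part (G1 := H.filter (G1 l)) (G2 := H.filter (G2 l)) fun t ht => ?_).imp
    (fun h3 => ⟨_, fun t ht => ?_, h3⟩) fun h3 => ⟨_, fun t ht => ?_, h3⟩
  · simpa [ht] using (h1 t ht).2
  · rw [Finset.mem_filter] at ht
    exact ⟨(h1 t ht.1).1, ht.2⟩
  · rw [Finset.mem_filter] at ht
    exact ⟨(h1 t ht.1).1, ht.2⟩

theorem LimL.split {c : Raw} {G : ℕ → Finset ℕ → Prop} (h : LimL c G) (Y : Set ℕ) :
    LimL c (fun l t => G l t ∧ ∀ a ∈ t, a ∈ Y) ∨ LimL c fun l t => G l t ∧ ∀ a ∈ t, a ∉ Y := by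
  refine limL_or_of h (fun m => 2 * ((m + 1) * (m + 1) + 1)) fun m l H h1 h2 => ?_
  refine (h2.split Y).imp (fun h3 => ⟨_, fun t ht => ?_, h3⟩) fun h3 => ⟨_, fun t ht => ?_, h3⟩
  · simp only [Finset.mem_filter] at ht
    exact ⟨(h1 t ht.1).1, (h1 t ht.1).2, ht.2⟩
  · simp only [Finset.mem_filter] at ht
    exact ⟨(h1 t ht.1).1, (h1 t ht.1).2, ht.2⟩

theorem LimL.diff {c : Raw} {G : ℕ → Finset ℕ → Prop} (h : LimL c G) {I : Type} (S : Finset I)
    (H : I → ℕ → Finset ℕ → Prop) (hH : ∀ i ∈ S, ¬ LimL c (H i)) :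
    LimL c fun l t => G l t ∧ ∀ i ∈ S, ¬ H i l t := by
  classical
  induction S using Finset.induction_on with
  | empty => exact h.mono fun l t h' => ⟨h', by simp⟩
  | insert i S _ ih =>
    have h1 := ih fun i' hi' => hH i' (Finset.mem_insert_of_mem hi')
    refine (LimL.or (G2 := H i) (h1.mono fun l t h' => ?_)).resolve_right
      (hH i (Finset.mem_insert_self _ _))
    by_cases h2 : H i l t
    · exact Or.inr h2
    · exact Or.inl ⟨h'.1, Finset.forall_mem_insert _ _ _ |>.2 ⟨h2, h'.2⟩⟩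

/-- The new blocks consist of old block elements satisfying `G`. -/
def Thin (j : ℕ) (c' c : Raw) (G : ℕ → Finset ℕ → Prop) : Prop :=
  ∀ l', j ≤ l' → ∀ t, t ∈ c'.2.2 l' →
    ∃ l, j ≤ l ∧ t ∈ c.2.2 l ∧ G l t ∧ c.2.1 (l + 1) ≤ c'.2.1 (l' + 1)

theorem exists_thin {c : Raw} (hc : Valid c) (j : ℕ) {G : ℕ → Finset ℕ → Prop} (h : LimL c G) :
    ∃ c', Valid c' ∧ Same j c' c ∧ Sub c' c ∧ Thin j c' c G := by
  refine build hc j (fun s => (s : Set ℕ) ∈ K c)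
    (fun H N => ∀ t, t ∈ H → ∃ l, j ≤ l ∧ t ∈ c.2.2 l ∧ G l t ∧ c.2.1 (l + 1) ≤ N)
    (fun s hs _ => hs) fun S m N _ hS => ?_
  obtain ⟨l, hl, H, h1, h2⟩ := h m (max j N)
  have h3 : N ≤ c.2.1 l := (le_of_max_le_right hl).trans (hc.le l)
  refine ⟨c.2.1 (l + 1), h3.trans_lt (hc.lt l), H, h2, fun t ht a ha => ?_,
    fun t ht => ⟨l, le_of_max_le_left hl, (h1 t ht).1, (h1 t ht).2, le_rfl⟩, fun t ht s hs => ?_⟩
  · have := hc.sub l t (h1 t ht).1 a ha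
    exact ⟨h3.trans this.1, this.2⟩
  · rw [Finset.coe_union]
    exact union_single_mem hc (hS s hs).1 (fun a ha => ((hS s hs).2 a ha).trans_le h3) (h1 t ht).1

theorem Thin.spec {c c' : Raw} (hc' : Valid c') {j : ℕ}
    {G : ℕ → Finset ℕ → Prop} (hs : Same j c' c) (hK : K c' ⊆ K c) (h : Thin j c' c G)
    {s : Finset ℕ} (hs1 : (s : Set ℕ) ∈ K c) (hs2 : ∀ a ∈ s, a < c.2.1 j) {W : Set ℕ}
    (hW : W ∈ K (cut c' j s)) (hinf : W.Infinite) :
    ∃ l t, j ≤ l ∧ G l t ∧ W ∈ K (cut c (l + 1) (s ∪ t)) := by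
  classical
  have he := hs.2.1 j le_rfl
  have hs3 : (s : Set ℕ) ∈ K c' := hs.symm.mem hc' hs1 (by rw [he]; exact hs2)
  obtain ⟨hW1, hW2⟩ := mem_cut_iff.1 hW
  have hex : ∃ l', ∃ a ∈ W, c'.2.1 j ≤ a ∧ a < c'.2.1 (l' + 1) := by
    obtain ⟨a, ha, h1⟩ := hinf.exists_gt (c'.2.1 j)
    exact ⟨a, a, ha, h1.le, hc'.le (a + 1)⟩
  obtain ⟨a, ha, ha1, ha2⟩ := Nat.find_spec hex
  set l' := Nat.find hex with hl'
  have hj : j ≤ l' := Nat.lt_succ_iff.1 (hc'.strictMono.lt_iff_lt.1 (ha1.trans_lt ha2))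
  have hmin : ∀ b ∈ W, c'.2.1 j ≤ b → c'.2.1 l' ≤ b := fun b hb hb1 => by
    rcases Nat.eq_zero_or_pos l' with h0 | h0
    · rw [h0]; exact (hc'.mono (Nat.zero_le _)).trans hb1
    · by_contra hlt
      refine Nat.find_min hex (show l' - 1 < l' by omega) ⟨b, hb, hb1, ?_⟩
      rw [Nat.sub_add_cancel h0]
      exact not_le.1 hlt
  obtain ⟨t, ht, hag⟩ := hW2 l' hj
  have hat : a ∈ t := (hag a (hmin a ha ha1) ha2).1 ha
  have ht' : t ∈ c'.2.2 l' := ht.resolve_left fun h0 => by simp [h0] at hat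
  obtain ⟨l, h1, h2, h3, h4⟩ := h l' hj t ht'
  refine ⟨l, t, h1, h3, mem_cut (hK (cut_subset hc' hs3 hW)) fun m h5 h6 => ?_⟩
  rw [Finset.coe_union, mem_union, Finset.mem_coe, Finset.mem_coe]
  have hts := hc'.sub l' t ht' m
  rcases lt_or_ge m (c'.2.1 j) with h7 | h7
  · rw [hW1 m h5 h7, Finset.mem_coe]
    exact ⟨Or.inl, fun h8 => h8.elim id fun h9 =>
      absurd ((hc'.mono hj).trans (hts h9).1) (not_le.2 h7)⟩
  · constructor
    · exact fun h8 => Or.inr ((hag m (hmin m h8 h7) (h6.trans_le h4)).1 h8)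
    · rintro (h8 | h8)
      · exact absurd (hs2 m h8) (not_lt.2 (he ▸ h7))
      · exact (hag m (hts h8).1 (hts h8).2).2 h8

theorem exists_neg {c : Raw} (hc : Valid c) {n : ℕ} {s₀ : Finset ℕ} (h1 : (s₀ : Set ℕ) ∈ K c)
    (h2 : ∀ a ∈ s₀, a < c.2.1 n) {Y : Type} [Fintype Y] (Pos : Y → ℕ → Finset ℕ → Prop)
    (h3 : ∀ κ, ¬ Pos κ n s₀)
    (h4 : ∀ j (s : Finset ℕ) κ, n ≤ j → (s : Set ℕ) ∈ K c → (∀ a ∈ s, a < c.2.1 j) →
      (∀ κ, ¬ Pos κ j s) → ¬ LimL c fun l t => Pos κ (l + 1) (s ∪ t)) :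
    ∃ c', Valid c' ∧ Sub c' (cut c n s₀) ∧ ∀ s : Finset ℕ, (s : Set ℕ) ∈ K c' →
      ∃ j, n ≤ j ∧ (∀ a ∈ s, a < c.2.1 j) ∧ ∀ κ, ¬ Pos κ j s := by
  classical
  have hcut := cut_subset hc (j := n) h1
  refine (build (hc.cut n s₀) 0
    (fun s => (s : Set ℕ) ∈ K (cut c n s₀) ∧
      ∃ j, n ≤ j ∧ (∀ a ∈ s, a < c.2.1 j) ∧ ∀ κ, ¬ Pos κ j s) (fun _ _ => True)
    (fun s hs hb => ?_) fun S m N hN hS => ?_).imp fun c' ⟨a1, _, a2, _⟩ =>
      ⟨a1, fun s hs => (a2 s hs).1, fun s hs => (a2 s hs).2⟩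
  · have hb' : ∀ a ∈ s, a < c.2.1 n := by simpa only [cut, Nat.zero_add] using hb
    have : s = s₀ := (tr_eq hb').symm.trans (tr_eq_of_agree h2 (mem_cut_iff.1 hs).1)
    exact ⟨hs, n, le_rfl, hb', this ▸ h3⟩
  · have hN' : c.2.1 n ≤ N := by simpa only [cut, Nat.zero_add] using hN
    obtain ⟨l, hl, H, b1, b2⟩ := (limL_true hc).diff (S ×ˢ (Finset.univ : Finset Y))
      (fun i l t => Pos i.2 (l + 1) (i.1 ∪ t)) (fun i hi => by
        obtain ⟨⟨b1, j, b2, b3, b4⟩, -⟩ := hS i.1 (Finset.mem_product.1 hi).1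
        exact h4 j i.1 i.2 b2 (hcut b1) b3 b4) m N
    have h5 : N ≤ c.2.1 l := hl.trans (hc.le l)
    refine ⟨c.2.1 (l + 1), h5.trans_lt (hc.lt l), H, b2, fun t ht a ha => ?_, trivial,
      fun t ht s hs => ⟨?_, l + 1, ?_, fun a ha => ?_, fun κ => ?_⟩⟩
    · have := hc.sub l t (b1 t ht).1 a ha
      exact ⟨h5.trans this.1, this.2⟩
    · rw [Finset.coe_union]
      refine mem_cut (union_single_mem hc (hcut (hS s hs).1.1)
        (fun a ha => ((hS s hs).2 a ha).trans_le h5) (b1 t ht).1) fun m b3 b4 => ?_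
      rw [← (mem_cut_iff.1 (hS s hs).1.1).1 m b3 b4]
      refine ⟨fun h => h.elim id fun h' => ?_, Or.inl⟩
      have := (hc.sub l t (b1 t ht).1 m h').1
      omega
    · have := hc.le n
      omega
    · rcases Finset.mem_union.1 ha with h | h
      · exact (((hS s hs).2 a h).trans_le h5).trans (hc.lt l)
      · exact (hc.sub l t (b1 t ht).1 a h).2
    · exact (b1 t ht).2.2 (s, κ) (Finset.mem_product.2 ⟨hs, Finset.mem_univ _⟩)

theorem exists_block {c : Raw} (hc : Valid c) {a j : ℕ} (h : c.2.1 j ≤ a) :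
    ∃ l, j ≤ l ∧ c.2.1 l ≤ a ∧ a < c.2.1 (l + 1) := by
  classical
  have hex : ∃ l, a < c.2.1 (l + 1) := ⟨a, hc.le (a + 1)⟩
  have h1 := Nat.find_spec hex
  refine ⟨Nat.find hex, Nat.lt_succ_iff.1 (hc.strictMono.lt_iff_lt.1 (h.trans_lt h1)), ?_, h1⟩
  rcases Nat.eq_zero_or_pos (Nat.find hex) with h0 | h0
  · rw [h0]; exact (hc.mono (Nat.zero_le _)).trans h
  · have := Nat.find_min hex (show Nat.find hex - 1 < Nat.find hex by omega)
    rw [Nat.sub_add_cancel h0] at this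
    exact not_lt.1 this

/-- All branches are, beyond the stem, inside `Y`. -/
def Ins (c : Raw) (Y : Set ℕ) : Prop := ∀ l, ∀ t, t ∈ c.2.2 l → ∀ a, a ∈ t → a ∈ Y

theorem Ins.spec {c : Raw} (hc : Valid c) {Y : Set ℕ} (h : Ins c Y) {W : Set ℕ} (hW : W ∈ K c)
    {a : ℕ} (ha : a ∈ W) (h0 : c.2.1 0 ≤ a) : a ∈ Y := by
  obtain ⟨l, -, h1, h2⟩ := exists_block hc h0
  obtain ⟨t, ht, hag⟩ := hW.2 l
  have hat : a ∈ t := (hag a h1 h2).1 ha
  exact h l t (ht.resolve_left fun h0 => by simp [h0] at hat) a hat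

theorem exists_hom {c : Raw} (hc : Valid c) (Y : Set ℕ) :
    ∃ c', Valid c' ∧ Sub c' c ∧ (Ins c' Y ∨ Ins c' Yᶜ) := by
  rcases (limL_true hc).split Y with h | h
  · obtain ⟨c', h1, -, h2, h3⟩ := exists_thin hc 0 h
    exact ⟨c', h1, h2, Or.inl fun l t ht =>
      let ⟨_, _, _, h4, _⟩ := h3 l (Nat.zero_le _) t ht; h4.2⟩
  · obtain ⟨c', h1, -, h2, h3⟩ := exists_thin hc 0 h
    exact ⟨c', h1, h2, Or.inr fun l t ht =>
      let ⟨_, _, _, h4, _⟩ := h3 l (Nat.zero_le _) t ht; h4.2⟩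

theorem exists_graft {c d : Raw} (hc : Valid c) (hd : Valid d) (hK : K d ⊆ K c) {j : ℕ}
    {s : Finset ℕ} (hs : (s : Set ℕ) ∈ K d) (hb : ∀ a ∈ s, a < c.2.1 j) :
    ∃ c', Valid c' ∧ Same j c' c ∧ Sub c' c ∧ Sub (cut c' j s) d := by
  refine (build hc j
    (fun s' => (s' : Set ℕ) ∈ K c ∧ (Agree s' s 0 (c.2.1 j) → (s' : Set ℕ) ∈ K d))
    (fun _ _ => True) (fun s' h1 h2 => ⟨h1, fun h3 => ?_⟩) fun S m N hN hS => ?_).imp
    fun c' ⟨a1, a2, a3, _⟩ => ?_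
  rotate_left 2
  · refine ⟨a1, a2, fun s' h => (a3 s' h).1, fun s' h => (a3 s' ?_).2 ?_⟩
    · exact cut_subset a1 (a2.symm.mem a1 (hK hs) (by rw [a2.2.1 j le_rfl]; exact hb)) h
    · rw [← a2.2.1 j le_rfl]
      exact (mem_cut_iff.1 h).1
  · rwa [(tr_eq h2).symm.trans (tr_eq_of_agree hb h3)]
  · have h1 := hc.le N
    have h2 := hd.le (m + c.2.1 N)
    have h3 := hc.le j
    refine ⟨d.2.1 (m + c.2.1 N + 1), by have := hd.lt (m + c.2.1 N); omega, d.2.2 (m + c.2.1 N),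
      (hd.large _).anti (by omega), fun t ht a ha => ?_, trivial, fun t ht s' hs' => ?_⟩
    · have := hd.sub _ t ht a ha
      omega
    · have h4 : ∀ a ∈ t, d.2.1 (m + c.2.1 N) ≤ a := fun a ha => (hd.sub _ t ht a ha).1
      have h5 : (s : Set ℕ) ∪ t ∈ K c :=
        hK (union_single_mem hd hs (fun a ha => by have := hb a ha; omega) ht)
      rw [Finset.coe_union]
      refine ⟨union_mem hc (j := N) (hS s' hs').1.1
        (fun a ha => ((hS s' hs').2 a ha).trans_le h1) (fun a ha => by have := h4 a ha; omega)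
        fun l hl => (h5.2 l).congr fun a h6 _ => ⟨Or.inr, fun h7 => h7.elim (fun h8 => ?_) id⟩,
        fun h6 => union_single_mem hd ((hS s' hs').1.2 fun a h7 h8 => ?_)
          (fun a ha => by have := (hS s' hs').2 a ha; omega) ht⟩
      · have := hb a h8
        have := hc.mono (show j ≤ l by omega)
        omega
      · rw [← h6 a h7 h8]
        refine ⟨Or.inl, fun h => h.elim id fun h' => ?_⟩
        have := h4 a h'
        omega

end Pool.Agent.Lib.Common.Iter
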