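import Mathlib
import Pool.Agent.Lib.Common.Iter.AB
import Pool.Agent.Lib.Common.Iter.Build

/-!
The accept / reject argument at one coordinate, and the covering property for all lower sets.
-/

set_option autoImplicit false

namespace Pool.Agent.Lib.Common.Iter

open Set MeasureTheory

variable {ι : Type} [LinearOrder ι]

section
variable (L : Set ι) (ξ : ι) (p : Cond ι) {Y : Type} (D : Y → X → Cond ι → Prop)

/-- Some tail below `p` is covered over `S`. -/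
def Good (κ : Y) (V : X) (S : Set (Pt ι)) : Prop :=
  ∃ t, bd L t ⊆ bd L p ∧ S ⊆ bd (Iic ξ) t ∧ Cov L (D κ V) (bd L t ∩ S)

/-- Acceptance. -/
def Accepts (κ : Y) (j : ℕ) (s : Finset ℕ) (V : X) (q : Cond ι) : Prop :=
  Good L ξ p D κ V {x | x ∈ bd (Iic ξ) q ∧ Agree (x ξ).1 s 0 ((q.f ξ x).2.1 j)}

/-- Rejection. -/
def Rejects (κ : Y) (j : ℕ) (s : Finset ℕ) (V : X) (q : Cond ι) : Prop :=
  ∀ V' q', Als V' V → LeFn (Iic ξ) {ξ} j q' q → ¬ Accepts L ξ p D κ j s V' q'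

/-- The outcome of one stage. -/
def Stage (j : ℕ) (V : X) (q : Cond ι) (Pos : Y → Finset ℕ → Pt ι → Prop) : Prop :=
  (∀ κ s, Measurable[mL (Iio ξ)] (Pos κ s)) ∧
  (∀ κ s, Good L ξ p D κ V
    {x | x ∈ bd (Iic ξ) q ∧ Pos κ s x ∧ Agree (x ξ).1 s 0 ((q.f ξ x).2.1 j)}) ∧
  ∀ κ s V' q', Als V' V → LeFn (Iic ξ) {ξ} j q' q →
    (∀ x ∈ bd (Iio ξ) q', ¬ Pos κ s x ∧ ∀ a ∈ s, a < (q.f ξ x).2.1 j) →
      ¬ Accepts L ξ p D κ j s V' q'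

end

variable {L : Set ι} {ξ : ι} {p : Cond ι} {Y : Type} {D : Y → X → Cond ι → Prop}

theorem Good.mono (hD : ∀ κ V V' r, D κ V r → Als V' V → D κ V' r) {κ : Y} {V V' : X}
    {S S' : Set (Pt ι)} (h : Good L ξ p D κ V S) (hV : Als V' V) (hS : S' ⊆ S) :
    Good L ξ p D κ V' S' :=
  let ⟨t, h1, h2, h3⟩ := h
  ⟨t, h1, hS.trans h2, h3.mono (fun r hr => hD κ V V' r hr hV) (inter_subset_inter_right _ hS)⟩

theorem LeFn.same {j : ℕ} {q q' : Cond ι} (h : LeFn (Iic ξ) {ξ} j q' q) {x : Pt ι}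
    (hx : x ∈ bd (Iio ξ) q') : Same j (q'.f ξ x) (q.f ξ x) :=
  h.2 ξ (Finset.mem_singleton_self ξ) x hx

theorem lefn_one {j : ℕ} {q q' : Cond ι} (h : bd (Iic ξ) q' ⊆ bd (Iic ξ) q)
    (h' : ∀ x ∈ bd (Iio ξ) q', Same j (q'.f ξ x) (q.f ξ x)) : LeFn (Iic ξ) {ξ} j q' q :=
  ⟨h, fun _ hη => by rw [Finset.mem_singleton.1 hη]; exact h'⟩

theorem lefn_join {j : ℕ} {q r : Cond ι} (h : bd (Iio ξ) r ⊆ bd (Iio ξ) q) :
    LeFn (Iic ξ) {ξ} j (join (isLowerSet_Iio ξ) r q) q :=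
  lefn_one (join_le _ Iio_subset_Iic_self h) fun x _ => by
    rw [join_out (isLowerSet_Iio ξ) _ _ (lt_irrefl ξ)]; exact Same.refl _ _

theorem Accepts.mono (hD : ∀ κ V V' r, D κ V r → Als V' V → D κ V' r) {κ : Y} {j : ℕ}
    {s : Finset ℕ} {V V' : X} {q q' : Cond ι} (h : Accepts L ξ p D κ j s V q) (hV : Als V' V)
    (hq : LeFn (Iic ξ) {ξ} j q' q) : Accepts L ξ p D κ j s V' q' :=
  Good.mono hD h hV fun _ hx =>
    ⟨hq.1 hx.1, (hq.same (mem_bd_Iic.1 hx.1).1).2.1 j le_rfl ▸ hx.2⟩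

variable [WellFoundedLT ι]

theorem LeFn.trans1 {j : ℕ} {q q' q'' : Cond ι} (h : LeFn (Iic ξ) {ξ} j q'' q')
    (h' : LeFn (Iic ξ) {ξ} j q' q) : LeFn (Iic ξ) {ξ} j q'' q :=
  h.trans (isLowerSet_Iic ξ) (by simp) h'

theorem LeFn.down {j : ℕ} {F : Finset ι} {q q' : Cond ι} (h : LeFn (Iic ξ) F j q' q) :
    bd (Iio ξ) q' ⊆ bd (Iio ξ) q := bd_le_down (isLowerSet_Iio ξ) Iio_subset_Iic_self h.1

theorem Good.iUnion (hξ : Iic ξ ⊆ L) {κ : Y} {V : X} {I : Type} [Countable I]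
    {S : I → Set (Pt ι)} (hS : ∀ i, Measurable[mL (Iic ξ)] fun x => x ∈ S i)
    (h : ∀ i, Good L ξ p D κ V (S i)) : Good L ξ p D κ V (⋃ i, S i) := by
  choose t h1 h2 h3 using h
  let _ : MeasurableSpace (Option I) := ⊤
  obtain ⟨i, h4, h5⟩ := exists_idx' (L := Iic ξ) (κ := Option I)
    (fun k x => k.elim (¬ ∃ i, x ∈ S i) fun i => x ∈ S i) fun k => by
      let := mL (Iic ξ)
      cases k with
      | none => exact (Measurable.exists hS).not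
      | some i => exact hS i
  have h6 : ∀ x, (i x).elim (¬ ∃ i, x ∈ S i) fun i => x ∈ S i := fun x => h5 x (by
    by_cases h : ∃ i, x ∈ S i
    · exact ⟨some h.choose, h.choose_spec⟩
    · exact ⟨none, h⟩)
  have hL := isLowerSet_Iic ξ
  have key : ∀ x ∈ bd L (glue hL p h4 fun k => k.elim p t),
      x ∈ bd L p ∧ ((∃ i, x ∈ S i) → ∃ i, x ∈ S i ∧ x ∈ bd L (t i)) := fun x hx => by
    have h7 := glue_mem hL p h4 _ hx
    have h8 := h6 x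
    have h9 := ((mem_bd_glue hL p h4 _ hξ).1 hx).1
    generalize i x = k at h7 h8
    cases k with
    | none => exact ⟨h7 h9, fun h => absurd h h8⟩
    | some k => exact ⟨h1 k (h7 (h2 k h8)), fun _ => ⟨k, h8, h7 (h2 k h8)⟩⟩
  refine ⟨_, fun x hx => (key x hx).1, iUnion_subset fun k => ?_,
    (Cov.iUnion h3).mono (fun _ h => h) fun x hx => ?_⟩
  · rw [bd_glue_low hL p h4 _ subset_rfl]
    exact (h2 k).trans (bd_le_down hL hξ (h1 k))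
  · obtain ⟨k, a, b⟩ := (key x hx.1).2 (mem_iUnion.1 hx.2)
    exact mem_iUnion.2 ⟨k, b, a⟩

theorem exists_dec (hD : ∀ κ V V' r, D κ V r → Als V' V → D κ V' r) (j : ℕ)
    (S : Finset (Finset ℕ × Y)) (V : X) (q : Cond ι) : ∃ V' q', Als V' V ∧
      LeFn (Iic ξ) {ξ} j q' q ∧
        ∀ a ∈ S, Accepts L ξ p D a.2 j a.1 V' q' ∨ Rejects L ξ p D a.2 j a.1 V' q' := by
  classical
  induction S using Finset.induction_on with
  | empty => exact ⟨V, q, Als.refl _, LeFn.refl _ _ _ _, by simp⟩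
  | insert a S _ ih =>
    obtain ⟨V', q', h1, h2, h3⟩ := ih
    by_cases h : Rejects L ξ p D a.2 j a.1 V' q'
    · exact ⟨V', q', h1, h2, Finset.forall_mem_insert _ _ _ |>.2 ⟨Or.inr h, h3⟩⟩
    · simp only [Rejects, not_forall, not_not] at h
      obtain ⟨V'', q'', a1, a2, a3⟩ := h
      refine ⟨V'', q'', a1.trans h1, a2.trans1 h2, Finset.forall_mem_insert _ _ _ |>.2
        ⟨Or.inl a3, fun b hb => (h3 b hb).imp (fun h => h.mono hD a1 a2) fun h U r c1 c2 => ?_⟩⟩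
      exact h U r (c1.trans a1) (c2.trans1 a2)

theorem exists_stage [Fintype Y] (hξ : Iic ξ ⊆ L) (hA : PA (Iio ξ)) (hB : PB (Iio ξ))
    (hD : ∀ κ V V' r, D κ V r → Als V' V → D κ V' r) (j : ℕ) (V : X) (q : Cond ι) (F : Finset ι)
    (hF : ↑F ⊆ Iic ξ) :
    ∃ V' q' Pos, Als V' V ∧ LeFn (Iic ξ) F j q' q ∧ Stage L ξ p D j V' q' Pos := by
  classical
  have hL := isLowerSet_Iio ξ
  obtain ⟨V', r, a1, a2, a3⟩ := hA (fun V' r => LeFn (Iic ξ) {ξ} j r q ∧ ∃ N,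
      (∀ x ∈ bd (Iio ξ) r, (r.f ξ x).2.1 j = N) ∧ ∀ (s : Finset ℕ) κ, (∀ a ∈ s, a < N) →
        Accepts L ξ p D κ j s V' r ∨ Rejects L ξ p D κ j s V' r)
    (fun V V' r ⟨h1, N, h2, h3⟩ hV => ⟨h1, N, h2, fun s κ hs => (h3 s κ hs).imp
      (fun h => h.mono hD hV (LeFn.refl _ _ _ _)) fun h U r c => h U r (c.trans hV)⟩)
    V q (F.erase ξ) j (fun η hη => by
      rw [Finset.mem_coe, Finset.mem_erase] at hη
      exact lt_of_le_of_ne (hF hη.2) hη.1) fun V' p' _ hp => by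
      have h1 := q.meas ξ
      obtain ⟨r₁, b1, N, b2⟩ := hA.fix hL hB (fun N x => (q.f ξ x).2.1 j = N)
        (fun N => by let := mL (Iio ξ); exact meas_eq (by fun_prop) measurable_const) p'
        fun x _ => ⟨_, rfl⟩
      have b3 := lefn_join (j := j) (b1.trans hp)
      obtain ⟨V'', q₂, c1, c2, c3⟩ := exists_dec (L := L) (ξ := ξ) (p := p) hD j
        ((Finset.range N).powerset ×ˢ Finset.univ) V' (join hL r₁ q)
      have c4 : bd (Iio ξ) q₂ ⊆ bd (Iio ξ) r₁ := c2.down.trans (bd_join_low _ _ _ subset_rfl).subset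
      refine ⟨V'', q₂, c1, c4.trans b1, c2.trans1 b3, N, fun x hx => ?_, fun s κ hs =>
        c3 (s, κ) (Finset.mem_product.2 ⟨Finset.mem_powerset.2 fun a ha =>
          Finset.mem_range.2 (hs a ha), Finset.mem_univ _⟩)⟩
      rw [((c2.trans1 b3).same hx).2.1 j le_rfl, b2 x (c4 hx)]
  obtain ⟨rr, i, b1, b2⟩ := a3.idx hL
  have e1 : bd (Iio ξ) (glue hL r b1 rr) = bd (Iio ξ) r := bd_glue_low hL r b1 rr subset_rfl
  have e2 : ∀ x, (glue hL r b1 rr).f ξ x = (rr (i x)).f ξ x := glue_out hL r b1 rr (lt_irrefl ξ)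
  have e3 : ∀ x ∈ bd (Iic ξ) (glue hL r b1 rr), x ∈ bd (Iic ξ) (rr (i x)) := fun x hx =>
    glue_mem hL r b1 rr hx (b2 x (e1 ▸ (mem_bd_Iic.1 hx).1)).1
  refine ⟨V', glue hL r b1 rr, fun κ s x => Accepts L ξ p D κ j s V' (rr (i x)), a1,
    ⟨fun x hx => (b2 x (e1 ▸ (mem_bd_Iic.1 hx).1)).2.1.1 (e3 x hx), fun η hη x hx => ?_⟩,
    fun κ s => ?_, fun κ s => ?_, fun κ s V'' q'' c1 c2 c3 c4 => ?_⟩
  · rcases lt_or_eq_of_le (show η ≤ ξ from hF hη) with h | rfl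
    · rw [glue_in hL r b1 rr h]
      rw [bd_glue_low hL r b1 rr (Iio_subset_Iio h.le)] at hx
      exact a2.2 η (Finset.mem_erase.2 ⟨h.ne, hη⟩) x hx
    · rw [e2]
      exact (b2 x (e1 ▸ hx)).2.1.same (b2 x (e1 ▸ hx)).1
  · exact (measurable_of_countable fun k => Accepts L ξ p D κ j s V' (rr k)).comp b1
  · refine (Good.iUnion hξ (S := fun k => {x | Accepts L ξ p D κ j s V' (rr k) ∧
      x ∈ bd (Iic ξ) (rr k) ∧ Agree (x ξ).1 s 0 (((rr k).f ξ x).2.1 j)}) (fun k => ?_)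
      fun k => ?_).mono hD (Als.refl _) fun x hx => mem_iUnion.2 ⟨i x, hx.2.1, e3 x hx.1, ?_⟩
    · have h1 := meas_bd (isLowerSet_Iic ξ) (rr k)
      have h2 := meas_up ((rr k).meas ξ) Iio_subset_Iic_self
      let := mL (Iic ξ)
      exact measurable_const.and (h1.and (by fun_prop (disch := simp)))
    · by_cases h : Accepts L ξ p D κ j s V' (rr k)
      · exact Good.mono hD h (Als.refl _) fun x hx => hx.2
      · exact ⟨p, subset_rfl, fun x hx => absurd hx.1 h, ∅, countable_empty,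
          fun x hx => absurd hx.2.1 h⟩
    · exact e2 x ▸ hx.2.2
  · obtain ⟨r₂, d1, k, d2⟩ := hA.fix hL hB (fun k x => i x = k)
      (fun k => by let := mL (Iio ξ); exact meas_eq b1 measurable_const) q'' fun x _ => ⟨_, rfl⟩
    have d3 := lefn_join (j := j) d1
    have d4 : bd (Iio ξ) (join hL r₂ q'') = bd (Iio ξ) r₂ := bd_join_low _ _ _ subset_rfl
    obtain ⟨y, hy⟩ := bd_nonempty (Iio ξ) r₂
    obtain ⟨d5, -, N, d6, d7⟩ := b2 y (e1 ▸ c2.down (d1 hy))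
    have d8 := c3 y (d1 hy)
    beta_reduce at d8
    rw [e2, d6 y d5, d2 y hy] at d8
    rw [d2 y hy] at d7
    refine (d7 s κ d8.2).resolve_left d8.1 V'' _ c1 (lefn_one (fun x hx => ?_) fun x hx => ?_)
      (c4.mono hD (Als.refl _) d3)
    · exact d2 x (d4 ▸ (mem_bd_Iic.1 hx).1) ▸ e3 x ((d3.trans1 c2).1 hx)
    · have := (d3.trans1 c2).same hx
      rwa [e2, d2 x (d4 ▸ hx)] at this

theorem exists_pos [Fintype Y] (hξ : Iic ξ ⊆ L) (hA : PA (Iio ξ)) (hB : PB (Iio ξ))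
    (hD : ∀ κ V V' r, D κ V r → Als V' V → D κ V' r) (n : ℕ) (V₀ : X) (F : Finset ι)
    (hF : ↑F ⊆ Iic ξ) (hF' : ξ ∈ F) : ∃ (V : X) (q : Cond ι) (Pos : ℕ → Y → Finset ℕ → Pt ι → Prop),
      Als V V₀ ∧ LeFn (Iic ξ) F n q p ∧ (∀ j κ s, Measurable[mL (Iio ξ)] (Pos j κ s)) ∧
        ∀ j, n ≤ j → Stage L ξ p D j V q (Pos j) := by
  obtain ⟨s, q, h0, h1, h2⟩ := fusion (isLowerSet_Iic ξ)
    (σ := X × Cond ι × (Y → Finset ℕ → Pt ι → Prop)) (fun s => s.2.1) (fun _ _ => True)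
    (fun k s s' => Als s'.1 s.1 ∧ Stage L ξ p D (n + k) s'.1 s'.2.1 s'.2.2) n
    (s₀ := (V₀, p, fun _ _ _ => True)) trivial hF fun k s F' _ _ b _ _ _ => by
      obtain ⟨V', q, Pos, c1, c2, c3⟩ := exists_stage (p := p) hξ hA hB hD (n + k) s.1 s.2.1 F' b
      exact ⟨(V', q, Pos), trivial, ⟨c1, c3⟩, c2⟩
  obtain ⟨W, hW⟩ := exists_pseudo (V := fun k => (s k).1) fun k => (h1 k).1
  refine ⟨W, q, fun j => (s (j - n + 1)).2.2, by simpa only [h0] using hW 0,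
    by simpa only [h0, Nat.add_zero] using h2 0, fun j => (h1 _).2.1, fun j hj => ?_⟩
  obtain ⟨k, rfl⟩ := Nat.exists_eq_add_of_le hj
  simp only [Nat.add_sub_cancel_left]
  have h3 : LeFn (Iic ξ) {ξ} (n + k) q (s (k + 1)).2.1 :=
    (h2 (k + 1)).anti (Finset.singleton_subset_iff.2 hF') (by omega)
  obtain ⟨-, a1, a2, a3⟩ := h1 k
  refine ⟨a1, fun κ t => (a2 κ t).mono hD (hW (k + 1)) fun x hx => ⟨h3.1 hx.1, hx.2.1, ?_⟩,
    fun κ t V' q' b1 b2 b3 => a3 κ t V' q' (b1.trans (hW (k + 1))) (b2.trans1 h3)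
      fun x hx => ⟨(b3 x hx).1, ?_⟩⟩
  · exact (h3.same (mem_bd_Iic.1 hx.1).1).2.1 _ le_rfl ▸ hx.2.2
  · exact (h3.same (b2.down hx)).2.1 _ le_rfl ▸ (b3 x hx).2

theorem claim_one (hξ : Iic ξ ⊆ L) (hA : PA (Iio ξ)) (hB : PB (Iio ξ))
    (hD : ∀ κ V V' r, D κ V r → Als V' V → D κ V' r) {n : ℕ} {V : X} {q : Cond ι}
    {Pos : ℕ → Y → Finset ℕ → Pt ι → Prop} (hm : ∀ j κ s, Measurable[mL (Iio ξ)] (Pos j κ s))
    (hs : ∀ j, n ≤ j → Stage L ξ p D j V q (Pos j)) {j : ℕ} (hj : n ≤ j) (s : Finset ℕ) (κ : Y)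
    {r : Cond ι} (hr : bd (Iio ξ) r ⊆ bd (Iio ξ) q) :
    ¬ ∀ x ∈ bd (Iio ξ) r, (s : Set ℕ) ∈ K (q.f ξ x) ∧ (∀ a, a ∈ s → a < (q.f ξ x).2.1 j) ∧
      ¬ Pos j κ s x ∧ LimL (q.f ξ x) fun l t => Pos (l + 1) κ (s ∪ t) x := by
  intro h
  have h1 := q.meas ξ
  obtain ⟨r', g, a1, a2, a3⟩ := unif (isLowerSet_Iio ξ) hA hB
    (fun x c => Valid c ∧ Same j c (q.f ξ x) ∧ Sub c (q.f ξ x) ∧
      Thin j c (q.f ξ x) fun l t => Pos (l + 1) κ (s ∪ t) x)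
    (by let := mL (Iio ξ); unfold Thin; fun_prop) r ∅ 0 (by simp)
    fun x hx => exists_thin (q.valid ξ x) j (h x hx).2.2.2
  obtain ⟨q', -, b1, b2, b3⟩ := exists_put a1 (a2.1.trans hr)
    fun x hx => ⟨(a3 x hx).1, (a3 x hx).2.2.1.subset (a3 x hx).1⟩
  have b4 : LeFn (Iic ξ) {ξ} j q' q := lefn_one (b3 _ Iio_subset_Iic_self) fun x hx => by
    rw [b2 x (b1 ▸ hx)]; exact (a3 x (b1 ▸ hx)).2.1
  refine (hs j hj).2.2 κ s V q' (Als.refl _) b4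
    (fun x hx => ⟨(h x (a2.1 (b1 ▸ hx))).2.2.1, (h x (a2.1 (b1 ▸ hx))).2.1⟩) ?_
  refine (Good.iUnion hξ (I := {l // j ≤ l} × Finset ℕ) (S := fun k => {x | x ∈ bd (Iic ξ) q ∧
    Pos (k.1.1 + 1) κ (s ∪ k.2) x ∧
      Agree (x ξ).1 (s ∪ k.2 : Finset ℕ) 0 ((q.f ξ x).2.1 (k.1.1 + 1))})
    (fun k => ?_) fun k => (hs _ (by have := k.1.2; omega)).2.1 κ _).mono hD (Als.refl _)
    fun x hx => ?_
  · have h2 := meas_bd (isLowerSet_Iic ξ) q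
    have h3 := meas_up h1 Iio_subset_Iic_self
    have h5 := meas_up (hm (k.1.1 + 1) κ (s ∪ k.2)) Iio_subset_Iic_self
    let := mL (Iic ξ)
    exact h2.and (h5.and (by fun_prop (disch := simp)))
  · obtain ⟨c1, c2⟩ := mem_bd_Iic.1 hx.1
    have c3 := hx.2
    rw [b1] at c1
    rw [b2 x c1] at c2 c3
    obtain ⟨d1, d2, d3, d4⟩ := a3 x c1
    obtain ⟨l, t, e1, e2, e3⟩ := d4.spec d1 d2 (d3.subset d1) (h x (a2.1 c1)).1 (h x (a2.1 c1)).2.1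
      (mem_cut c2 c3) (x ξ).2
    exact mem_iUnion.2 ⟨(⟨l, e1⟩, t), b4.1 hx.1, e2, (mem_cut_iff.1 e3).1⟩

theorem claim_two [Fintype Y] (hξ : Iic ξ ⊆ L) (hA : PA (Iio ξ)) (hB : PB (Iio ξ))
    (hD : ∀ κ V V' r, D κ V r → Als V' V → D κ V' r) {n : ℕ} {V : X} {q : Cond ι}
    (hq : bd (Iic ξ) q ⊆ bd (Iic ξ) p) (hd : Dense2 L (fun V r => ∃ κ, D κ V r) V p)
    {Pos : ℕ → Y → Finset ℕ → Pt ι → Prop} (hm : ∀ j κ s, Measurable[mL (Iio ξ)] (Pos j κ s))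
    (hs : ∀ j, n ≤ j → Stage L ξ p D j V q (Pos j)) (s₀ : Finset ℕ)
    {r : Cond ι} (hr : bd (Iio ξ) r ⊆ bd (Iio ξ) q) :
    ¬ ∀ x ∈ bd (Iio ξ) r, (s₀ : Set ℕ) ∈ K (q.f ξ x) ∧ (∀ a, a ∈ s₀ → a < (q.f ξ x).2.1 n) ∧
      ∀ κ, ¬ Pos n κ s₀ x := by
  intro h
  have hL := isLowerSet_Iio ξ
  have h1 := q.meas ξ
  obtain ⟨r₁, a1, a2⟩ := hA.null' hL hB (I := {j // n ≤ j} × Finset ℕ × Y)
    (fun k x => (k.2.1 : Set ℕ) ∈ K (q.f ξ x) ∧ (∀ a, a ∈ k.2.1 → a < (q.f ξ x).2.1 k.1) ∧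
      ¬ Pos k.1 k.2.2 k.2.1 x ∧ LimL (q.f ξ x) fun l t => Pos (l + 1) k.2.2 (k.2.1 ∪ t) x)
    (fun k => by let := mL (Iio ξ); unfold LimL; fun_prop) r ∅ 0 (by simp)
    fun k r' hr' => claim_one hξ hA hB hD hm hs k.1.2 _ _ (hr'.trans hr)
  obtain ⟨r₂, g, b1, b2, b3⟩ := unif hL hA hB
    (fun x c => Valid c ∧ Sub c (cut (q.f ξ x) n s₀) ∧ ∀ s : Finset ℕ, (s : Set ℕ) ∈ K c →
      ∃ j, n ≤ j ∧ (∀ a, a ∈ s → a < (q.f ξ x).2.1 j) ∧ ∀ κ, ¬ Pos j κ s x)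
    (by let := mL (Iio ξ); fun_prop) r₁ ∅ 0 (by simp) fun x hx =>
      exists_neg (q.valid ξ x) (h x (a1.1 hx)).1 (h x (a1.1 hx)).2.1 (fun κ j s => Pos j κ s x)
        (h x (a1.1 hx)).2.2 fun j s κ c1 c2 c3 c4 c5 => a2 (⟨j, c1⟩, s, κ) x hx ⟨c2, c3, c4 κ, c5⟩
  have b4 : ∀ x ∈ bd (Iio ξ) r₂, K (g x) ⊆ K (q.f ξ x) := fun x hx =>
    ((b3 x hx).2.1.subset (b3 x hx).1).trans (cut_subset (q.valid ξ x) (h x (a1.1 (b2.1 hx))).1)
  have b5 : bd (Iio ξ) r₂ ⊆ bd (Iio ξ) q := b2.1.trans (a1.1.trans hr)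
  obtain ⟨q₁, -, c1, c2, c3⟩ := exists_put (p := p) b1
    (b5.trans (bd_le_down hL Iio_subset_Iic_self hq))
    fun x hx => ⟨(b3 x hx).1, (b4 x hx).trans (K_le subset_rfl hq (b5 hx))⟩
  have hξ' := Iio_subset_Iic_self.trans hξ
  obtain ⟨V', q₂, d1, d2, κ, d3⟩ := hd V q₁ (Als.refl _) (c3 L hξ')
  have d4 : bd (Iio ξ) q₂ ⊆ bd (Iio ξ) r₂ := c1 ▸ bd_le_down hL hξ' d2
  have d5 : ∀ x ∈ bd (Iio ξ) q₂, K (q₂.f ξ x) ⊆ K (g x) := fun x hx =>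
    c2 x (d4 hx) ▸ K_le hξ d2 hx
  have h2 := q₂.meas ξ
  obtain ⟨r₃, e1, ⟨j, s⟩, e2⟩ := hA.fix hL hB (I := ℕ × Finset ℕ)
    (fun k x => (k.2 : Set ℕ) ∈ K (q₂.f ξ x) ∧ n ≤ k.1 ∧
      (∀ a, a ∈ k.2 → a < (q.f ξ x).2.1 k.1) ∧ ∀ κ, ¬ Pos k.1 κ k.2 x)
    (fun k => by let := mL (Iio ξ); fun_prop) q₂ fun x hx =>
      let ⟨j, hj⟩ := (b3 x (d4 hx)).2.2 _ (d5 x hx (stem_mem (q₂.valid ξ x)))
      ⟨(j, _), stem_mem (q₂.valid ξ x), hj⟩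
  obtain ⟨r₄, g', f1, f2, f3⟩ := unif hL hA hB
    (fun x c => Valid c ∧ Same j c (q.f ξ x) ∧ Sub c (q.f ξ x) ∧ Sub (cut c j s) (q₂.f ξ x))
    (by let := mL (Iio ξ); fun_prop) r₃ ∅ 0 (by simp) fun x hx =>
      exists_graft (q.valid ξ x) (q₂.valid ξ x) ((d5 x (e1 hx)).trans (b4 x (d4 (e1 hx))))
        (e2 x hx).1 (e2 x hx).2.2.1
  obtain ⟨q', -, g1, g2, g3⟩ := exists_put (p := q) f1 (f2.1.trans (e1.trans (d4.trans b5)))
    fun x hx => ⟨(f3 x hx).1, (f3 x hx).2.2.1.subset (f3 x hx).1⟩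
  obtain ⟨y, hy⟩ := bd_nonempty (Iio ξ) r₃
  refine (hs j (e2 y hy).2.1).2.2 κ s V' q' d1 (lefn_one (g3 _ Iio_subset_Iic_self) fun x hx => ?_)
    (fun x hx => ⟨(e2 x (f2.1 (g1 ▸ hx))).2.2.2 κ, (e2 x (f2.1 (g1 ▸ hx))).2.2.1⟩)
    ⟨q₂, d2.trans (c3 L hξ'), fun x hx => ?_, (Cov.single d3).mono (fun _ h => h) inter_subset_left⟩
  · rw [g2 x (g1 ▸ hx)]; exact (f3 x (g1 ▸ hx)).2.1
  · obtain ⟨i1, i2⟩ := mem_bd_Iic.1 hx.1
    have i3 := hx.2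
    rw [g1] at i1
    rw [g2 x i1] at i2 i3
    exact mem_bd_Iic.2 ⟨e1 (f2.1 i1),
      (f3 x i1).2.2.2.subset ((f3 x i1).1.cut j s) (mem_cut i2 i3)⟩

/-- Pure decision at the coordinate `ξ`. -/
theorem aplus [Fintype Y] [Nonempty Y] [MeasurableSpace Y] [MeasurableSingletonClass Y]
    (hξ : Iic ξ ⊆ L) (hA : PA (Iio ξ)) (hB : PB (Iio ξ))
    (hD : ∀ κ V V' r, D κ V r → Als V' V → D κ V' r) (n : ℕ) (V₀ : X)
    (hd : Dense2 L (fun V r => ∃ κ, D κ V r) V₀ p) (F : Finset ι) (hF : ↑F ⊆ Iic ξ) :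
    ∃ (V : X) (q : Cond ι) (κ : Finset ℕ → Pt ι → Y), Als V V₀ ∧ LeFn L F n q p ∧
      (∀ s, Measurable[mL (Iio ξ)] (κ s)) ∧ ∀ k, Cov L (D k V)
        {x | x ∈ bd L q ∧ κ (tr (x ξ).1 ((q.f ξ x).2.1 n)) x = k} := by
  classical
  have hL := isLowerSet_Iio ξ
  have hL' := isLowerSet_Iic ξ
  obtain ⟨V, q, Pos, a1, a2, a3, a4⟩ := exists_pos (p := p) hξ hA hB hD n V₀ (insert ξ F)
    (by rw [Finset.coe_insert]; exact insert_subset le_rfl hF) (Finset.mem_insert_self _ _)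
  have h1 := q.meas ξ
  obtain ⟨r, b1, b2⟩ := hA.null' hL hB (I := Finset ℕ)
    (fun s x => (s : Set ℕ) ∈ K (q.f ξ x) ∧ (∀ a, a ∈ s → a < (q.f ξ x).2.1 n) ∧
      ∀ κ, ¬ Pos n κ s x) (fun k => by let := mL (Iio ξ); fun_prop) q (F.erase ξ) n
    (fun η hη => by
      rw [Finset.mem_coe, Finset.mem_erase] at hη
      exact lt_of_le_of_ne (hF hη.2) hη.1)
    fun s r hr => claim_two hξ hA hB hD a2.1 (hd.mono a1 subset_rfl) a3 a4 s hr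
  choose κ c1 c2 using fun s => exists_idx' (L := Iio ξ) (fun k => Pos n k s) fun k => a3 n k s
  have h2 := meas_bd hL' q
  have h3 := meas_up h1 Iio_subset_Iic_self
  have c3 : ∀ k, Good L ξ p D k V (⋃ s, {x | x ∈ bd (Iic ξ) q ∧ Pos n k s x ∧
      Agree (x ξ).1 s 0 ((q.f ξ x).2.1 n)}) := fun k =>
    Good.iUnion hξ (fun s => by
      have h5 := meas_up (a3 n k s) Iio_subset_Iic_self
      let := mL (Iic ξ)
      exact h2.and (h5.and (by fun_prop (disch := simp)))) fun s => (a4 n le_rfl).2.1 k s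
  choose t d1 d2 d3 using c3
  have d4 : Measurable[mL (Iic ξ)] fun x => κ (tr (x ξ).1 ((q.f ξ x).2.1 n)) x := by
    let := mL (Iic ξ)
    exact meas_disc (by fun_prop (disch := simp)) fun s => meas_up (c1 s) Iio_subset_Iic_self
  have e0 := lefn_join (j := n) b1.1
  have e1 : (glue hL' (join hL r q) d4 t).f ξ = q.f ξ :=
    (glue_in hL' _ d4 t le_rfl).trans (join_out hL _ _ (lt_irrefl ξ))
  have e2 : ∀ x ∈ bd L (glue hL' (join hL r q) d4 t),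
      x ∈ bd L (t (κ (tr (x ξ).1 ((q.f ξ x).2.1 n)) x)) ∩ ⋃ s, {y | y ∈ bd (Iic ξ) q ∧
        Pos n (κ (tr (x ξ).1 ((q.f ξ x).2.1 n)) x) s y ∧ Agree (y ξ).1 s 0 ((q.f ξ y).2.1 n)} := by
    intro x hx
    have f1 := ((mem_bd_glue hL' _ d4 t hξ).1 hx).1
    have f2 := e0.1 f1
    have f3 := join_le_left hL r q Iio_subset_Iic_self f1
    have f4 : x ∈ ⋃ s, {y | y ∈ bd (Iic ξ) q ∧
        Pos n (κ (tr (x ξ).1 ((q.f ξ x).2.1 n)) x) s y ∧ Agree (y ξ).1 s 0 ((q.f ξ y).2.1 n)} := by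
      refine mem_iUnion.2 ⟨_, f2, c2 _ x ?_, agree_tr _ _⟩
      by_contra hc
      exact b2 _ x f3 ⟨tr_mem (q.valid ξ x) (f2 ξ le_rfl) n, fun a ha => (mem_tr.1 ha).1,
        not_exists.1 hc⟩
    exact ⟨glue_mem hL' _ d4 t hx (d2 _ f4), f4⟩
  refine ⟨V, glue hL' (join hL r q) d4 t, κ, a1, ⟨fun x hx => d1 _ (e2 x hx).1, fun η hη x hx => ?_⟩,
    c1, fun k => (d3 k).mono (fun _ h => h) fun x hx => ?_⟩
  · have f1 : η ≤ ξ := hF hη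
    rw [bd_glue_low hL' _ d4 t (Iio_subset_Iic_self.trans (Iic_subset_Iic.2 f1)),
      bd_join_low hL _ _ (Iio_subset_Iio f1)] at hx
    have f2 := a2.2 η (Finset.mem_insert_of_mem hη) x
      (bd_le_down (isLowerSet_Iio η) (Iio_subset_Iio f1) b1.1 hx)
    rcases lt_or_eq_of_le f1 with h | rfl
    · rw [glue_in hL' _ d4 t f1, join_in hL _ _ h]
      exact (b1.2 η (Finset.mem_erase.2 ⟨h.ne, hη⟩) x hx).trans f2
    · rw [e1]; exact f2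
  · have := e2 x hx.1
    have f1 := hx.2
    rw [e1] at f1
    rwa [f1] at this

theorem pa_step (hAB : ∀ η ∈ L, PA (Iio η) ∧ PB (Iio η)) (hL : IsLowerSet L) : PA L := by
  intro D hD V p F n hF hd
  rcases F.eq_empty_or_nonempty with rfl | hne
  · obtain ⟨V', q, a, b, c⟩ := hd V p (Als.refl _) subset_rfl
    exact ⟨V', q, a, ⟨b, by simp⟩, Cov.single c⟩
  · have h := hF (F.max'_mem hne)
    obtain ⟨V', q, κ, a, b, -, c⟩ := aplus (Y := Unit) (D := fun _ => D) (p := p) (low_Iic hL h)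
      (hAB _ h).1 (hAB _ h).2 (fun _ => hD) n V
      (fun V' p' a b => let ⟨V'', q, c, d, e⟩ := hd V' p' a b; ⟨V'', q, c, d, (), e⟩) F
      fun η hη => F.le_max' η hη
    exact ⟨V', q, a, b, (c ()).mono (fun _ h => h) fun x hx => ⟨hx, rfl⟩⟩

theorem pab_Iio (ξ : ι) : PA (Iio ξ) ∧ PB (Iio ξ) := by
  induction ξ using WellFoundedLT.induction with
  | ind ξ ih =>
    have h := pa_step ih (isLowerSet_Iio ξ)
    exact ⟨h, pb_step (isLowerSet_Iio ξ) h fun η hη => (ih η hη).2⟩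

theorem pa (hL : IsLowerSet L) : PA L := pa_step (fun η _ => pab_Iio η) hL

theorem pb (hL : IsLowerSet L) : PB L := pb_step hL (pa hL) fun η _ => (pab_Iio η).2

end Pool.Agent.Lib.Common.Iter
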