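import Mathlib
import Pool.Agent.Lib.Common.Iter.Build

/-!
A normed version of Hindman's theorem, and a sparse thinning.
-/

set_option autoImplicit false

namespace Pool.Agent.Lib.Common.Iter

open Set Filter

/-- Finite sets under union. -/
def FU : Type := Finset ℕ

instance : Semigroup FU where
  mul a b := @Union.union (Finset ℕ) _ a b
  mul_assoc a b c := Finset.union_assoc (α := ℕ) a b c

attribute [local instance] Ultrafilter.mul Ultrafilter.semigroup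

theorem exists_pos_ultrafilter {c : Raw} (hc : Valid c) :
    ∃ w : Ultrafilter ℕ, ∀ Y ∈ w, LimL c fun _ t => ∀ a ∈ t, a ∈ Y := by
  let F : Filter ℕ :=
    { sets := {Y | ¬ LimL c fun _ t => ∀ a ∈ t, a ∉ Y}
      univ_sets := fun h => by
        obtain ⟨l, -, H, h1, h2⟩ := h 0 0
        obtain ⟨t, ht, a, ha⟩ := h2.nonempty
        exact (h1 t ht).2 a ha trivial
      sets_of_superset := fun h h' h'' => h (h''.mono fun _ t ht a ha hx => ht a ha (h' hx))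
      inter_sets := fun {Y Z} hY hZ h => by
        rcases h.split Y with h1 | h1
        · exact hZ (h1.mono fun _ t ht a ha hz => ht.1 a ha ⟨ht.2 a ha, hz⟩)
        · exact hY (h1.mono fun _ t ht => ht.2) }
  have : F.NeBot := ⟨fun h => by
    have : (∅ : Set ℕ) ∈ F := by rw [h]; trivial
    exact this ((limL_true hc).mono fun _ _ _ a _ => notMem_empty a)⟩
  refine ⟨Ultrafilter.of F, fun Y hY => ?_⟩
  by_contra h
  have h1 : Yᶜ ∈ F := fun h' => h (h'.mono fun _ t ht a ha => not_not.1 (ht a ha))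
  exact (Ultrafilter.compl_mem_iff_notMem.1 (Ultrafilter.of_le F h1)) hY

/-- Nonempty finite unions of block elements located beyond the `N`-th cut. -/
def Tail (c : Raw) (N : ℕ) (t : Finset ℕ) : Prop :=
  t.Nonempty ∧ (∀ a ∈ t, c.2.1 N ≤ a) ∧ ∀ l, Blk c l t

theorem Tail.anti {c : Raw} (hc : Valid c) {N M : ℕ} {t : Finset ℕ} (h : Tail c M t)
    (hN : N ≤ M) : Tail c N t := ⟨h.1, fun a ha => (hc.mono hN).trans (h.2.1 a ha), h.2.2⟩

theorem Tail.union {c : Raw} (hc : Valid c) {N M : ℕ} {s t : Finset ℕ} (hs : Tail c N s)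
    (ht : Tail c M t) (hN : N ≤ M) (hb : ∀ a ∈ s, a < c.2.1 M) : Tail c N (s ∪ t) := by
  refine ⟨hs.1.mono Finset.subset_union_left, fun a ha => ?_, fun l => ?_⟩
  · exact (Finset.mem_union.1 ha).elim (hs.2.1 a) ((ht.anti hc hN).2.1 a)
  · rcases lt_or_ge l M with h | h
    · refine (hs.2.2 l).congr fun m _ h2 => ?_
      rw [Finset.coe_union]
      exact ⟨fun h3 => h3.elim id fun h4 =>
        absurd (ht.2.1 m h4) (not_le.2 (h2.trans_le (hc.mono h))), Or.inl⟩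
    · refine (ht.2.2 l).congr fun m h1 _ => ?_
      rw [Finset.coe_union]
      exact ⟨fun h3 => h3.elim (fun h4 => absurd (hb m h4) (not_lt.2 ((hc.mono h).trans h1))) id,
        Or.inr⟩

theorem exists_idem {c : Raw} (hc : Valid c) : ∃ (w : Ultrafilter ℕ) (U : Ultrafilter FU),
    U * U = U ∧ ∀ N, ∀ Y ∈ w, ∀ᶠ t : FU in U, Tail c N t ∧ ∀ a ∈ (show Finset ℕ from t), a ∈ Y := by
  obtain ⟨w, hw⟩ := exists_pos_ultrafilter hc
  let Z : ℕ → Set ℕ → Set FU := fun N Y => {t | Tail c N t ∧ ∀ a ∈ (show Finset ℕ from t), a ∈ Y}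
  let S : Set (Ultrafilter FU) := {U | ∀ N, ∀ Y ∈ w, Z N Y ∈ U}
  let G : Filter FU :=
    { sets := {A | ∃ N, ∃ Y ∈ w, Z N Y ⊆ A}
      univ_sets := ⟨0, univ, univ_mem, subset_univ _⟩
      sets_of_superset := fun ⟨N, Y, h1, h2⟩ h => ⟨N, Y, h1, h2.trans h⟩
      inter_sets := fun ⟨N, Y, h1, h2⟩ ⟨N', Y', h1', h2'⟩ =>
        ⟨max N N', Y ∩ Y', inter_mem h1 h1', fun t ht =>
          ⟨h2 ⟨ht.1.anti hc (le_max_left _ _), fun a ha => (ht.2 a ha).1⟩,
            h2' ⟨ht.1.anti hc (le_max_right _ _), fun a ha => (ht.2 a ha).2⟩⟩⟩ }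
  have : G.NeBot := ⟨fun h => by
    have : (∅ : Set FU) ∈ G := by rw [h]; trivial
    obtain ⟨N, Y, h1, h2⟩ := this
    obtain ⟨l, hl, H, h3, h4⟩ := hw Y h1 0 N
    obtain ⟨t, ht, hne⟩ := h4.nonempty
    exact h2 (a := t) ⟨⟨hne, fun a ha => (hc.mono hl).trans (hc.sub l t (h3 t ht).1 a ha).1,
      blk_single hc (h3 t ht).1⟩, (h3 t ht).2⟩⟩
  obtain ⟨U, hU, hUU⟩ := exists_idempotent_in_compact_subsemigroup
    (M := Ultrafilter FU) Ultrafilter.continuous_mul_left S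
    ⟨Ultrafilter.of G, fun N Y hY => Ultrafilter.of_le G ⟨N, Y, hY, subset_rfl⟩⟩
    (IsClosed.isCompact (by
      simp only [S, ofPred_forall]
      exact isClosed_iInter fun N => isClosed_iInter fun Y => isClosed_iInter fun _ =>
        ultrafilter_isClosed_basic _))
    (fun U hU V hV N Y hY => by
      refine (Ultrafilter.eventually_mul U V (· ∈ Z N Y)).2 ?_
      filter_upwards [hU N Y hY] with s hs
      obtain ⟨M, hM⟩ := (show Finset ℕ from s).bddAbove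
      filter_upwards [hV (max N (M + 1)) Y hY] with t ht
      refine ⟨hs.1.union hc ht.1 (le_max_left _ _) fun a ha => ?_, fun a ha => ?_⟩
      · have h1 := hM ha
        have h2 := hc.le (max N (M + 1))
        omega
      · exact (Finset.mem_union.1 ha).elim (hs.2 a) (ht.2 a))
  exact ⟨w, U, hUU, hU⟩

theorem exists_L0 {w : Ultrafilter ℕ} {Z : Set (Finset ℕ)}
    (h : ∀ Y ∈ w, ∃ t ∈ Z, t.Nonempty ∧ ∀ a ∈ t, a ∈ Y) (m : ℕ) :
    ∃ G : Finset (Finset ℕ), (∀ t ∈ G, t ∈ Z) ∧ L0 m G := by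
  classical
  let O : Z → Set (ℕ → Fin (m + 1)) := fun t =>
    {χ | t.1.Nonempty ∧ ∀ a ∈ t.1, ∀ b ∈ t.1, χ a = χ b}
  have hO : ∀ t, IsOpen (O t) := fun t => by
    simp only [O, ofPred_and, ofPred_forall]
    refine isOpen_const.inter (isOpen_biInter_finset fun a _ => isOpen_biInter_finset fun b _ => ?_)
    exact (isOpen_discrete {p : Fin (m + 1) × Fin (m + 1) | p.1 = p.2}).preimage
      (f := fun χ : ℕ → Fin (m + 1) => (χ a, χ b)) (by fun_prop)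
  obtain ⟨T, hT⟩ := isCompact_univ.elim_finite_subcover O hO fun χ _ => by
    obtain ⟨i, hi⟩ : ∃ i, {a | χ a = i} ∈ w :=
      (Ultrafilter.eventually_exists_iff (f := w) (P := fun i a => χ a = i)).1
        (Eventually.of_forall fun a => ⟨χ a, rfl⟩)
    obtain ⟨t, h1, h2, h3⟩ := h _ hi
    exact mem_iUnion.2 ⟨⟨t, h1⟩, h2, fun a ha b hb => (h3 a ha).trans (h3 b hb).symm⟩
  refine ⟨T.image Subtype.val, fun t ht => ?_, fun χ => ?_⟩
  · obtain ⟨t', -, rfl⟩ := Finset.mem_image.1 ht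
    exact t'.2
  · obtain ⟨t, ht, h1⟩ := mem_iUnion₂.1 (hT (mem_univ χ))
    exact ⟨t.1, Finset.mem_image_of_mem _ ht, h1⟩

/-- All finite branches going beyond the stem satisfy `ε`. -/
def All (c : Raw) (ε : Finset ℕ → Prop) : Prop :=
  ∀ s : Finset ℕ, (s : Set ℕ) ∈ K c → (∃ a, a ∈ s ∧ c.2.1 0 ≤ a) → ε s

theorem exists_hind {c : Raw} (hc : Valid c) (ε : Finset ℕ → Prop) :
    ∃ c', Valid c' ∧ Sub c' c ∧ (All c' ε ∨ All c' fun s => ¬ ε s) := by
  classical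
  obtain ⟨w, U, hUU, hU⟩ := exists_idem hc
  let u := tr c.1 (c.2.1 0)
  suffices H : ∀ ε : Finset ℕ → Prop, (∀ᶠ t : FU in U, ε (u ∪ t)) →
      ∃ c', Valid c' ∧ Sub c' c ∧ All c' ε by
    rcases U.em fun t : FU => ε (u ∪ t) with h | h
    · exact (H ε h).imp fun c' h' => ⟨h'.1, h'.2.1, Or.inl h'.2.2⟩
    · exact (H (fun s => ¬ ε s) h).imp fun c' h' => ⟨h'.1, h'.2.1, Or.inr h'.2.2⟩
  intro ε hε
  let St : FU → Prop := fun t => ε (u ∪ t) ∧ ∀ᶠ t' : FU in U, ε (u ∪ (t * t' : FU))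
  have h1 : ∀ᶠ t in U, St t := by
    refine hε.and ((Ultrafilter.eventually_mul U U fun t : FU => ε (u ∪ t)).1 ?_)
    rwa [hUU]
  have h2 : ∀ t, St t → ∀ᶠ t' in U, St (t * t') := fun t ht => by
    refine ht.2.and ?_
    have := (Ultrafilter.eventually_mul U U fun t' : FU => ε (u ∪ (t * t' : FU))).1
      (by rw [hUU]; exact ht.2)
    simpa only [mul_assoc] using this
  refine (build hc 0 (fun s => (s : Set ℕ) ∈ K c ∧
      (((∀ a ∈ s, a < c.2.1 0) ∧ s = u) ∨ ∃ t, St t ∧ s = u ∪ t)) (fun _ _ => True)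
    (fun s hs hb => ⟨hs, Or.inl ⟨hb, ?_⟩⟩) fun S m N _ hS => ?_).imp
    fun c' ⟨a1, a2, a3, _⟩ => ⟨a1, fun s hs => (a3 s hs).1, fun s hs ⟨a, ha, hb⟩ => ?_⟩
  · exact (tr_eq hb).symm.trans (tr_congr hs.1)
  · have h3 : ∀ᶠ t' : FU in U, St t' ∧ ∀ s ∈ S, ∀ t, St t → s = u ∪ t → ∃ t'', St t'' ∧
        s ∪ t' = u ∪ t'' := by
      refine h1.and ((eventually_all_finset S).2 fun s _ => ?_)
      by_cases h : ∃ t, St t ∧ s = u ∪ t
      · obtain ⟨t, ht, rfl⟩ := h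
        filter_upwards [h2 t ht] with t' ht' _ _ _
        exact ⟨t * t', ht', Finset.union_assoc _ _ _⟩
      · exact Eventually.of_forall fun _ t h4 h5 => absurd ⟨t, h4, h5⟩ h
    obtain ⟨G, h4, h5⟩ := exists_L0 (w := w) (Z := {t' : Finset ℕ | Tail c N t' ∧ St t' ∧
      ∀ s ∈ S, ∀ t, St t → s = u ∪ t → ∃ t'', St t'' ∧ s ∪ t' = u ∪ t''}) (fun Y hY => by
        obtain ⟨t, h6, h7⟩ := ((hU N Y hY).and h3).exists
        exact ⟨t, ⟨h6.1, h7⟩, h6.1.1, h6.2⟩) m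
    obtain ⟨M, hM⟩ := (G.biUnion id).bddAbove
    refine ⟨max N M + 1, by omega, G, h5, fun t ht a ha => ⟨?_, ?_⟩, trivial,
      fun t ht s hs => ⟨?_, Or.inr ?_⟩⟩
    · exact (hc.le N).trans ((h4 t ht).1.2.1 a ha)
    · have := hM (Finset.mem_coe.2 (Finset.mem_biUnion.2 ⟨t, ht, ha⟩))
      omega
    · rw [Finset.coe_union]
      exact union_mem hc (j := N) (hS s hs).1.1
        (fun a ha => ((hS s hs).2 a ha).trans_le (hc.le N)) (h4 t ht).1.2.1
        fun l _ => (h4 t ht).1.2.2 l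
    · rcases (hS s hs).1.2 with ⟨-, rfl⟩ | ⟨t₀, h6, h7⟩
      · exact ⟨t, (h4 t ht).2.1, rfl⟩
      · exact (h4 t ht).2.2 s hs t₀ h6 h7
  · rcases (a3 s hs).2 with ⟨h, -⟩ | ⟨t, h6, rfl⟩
    · rw [a2.2.1 0 le_rfl] at hb
      exact absurd (h a ha) (not_lt.2 hb)
    · exact h6.1

theorem exists_sparse {c : Raw} (hc : Valid c) {E : ℕ → ℕ} (hE : Monotone E) (hE' : ∀ v, v ≤ E v)
    {V : Set ℕ} {ζ : ℕ → Finset ℕ → Prop}
    (h : ∀ N, ∃ i, N ≤ i ∧ ∃ m, (c.2.1 (E i + 1) ≤ m ∧ ∀ s : Finset ℕ,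
      (∀ a, a ∈ s → a < c.2.1 (E i + 1)) → (s : Set ℕ) ∈ K c → (∃ a, a ∈ s ∧ c.2.1 0 ≤ a) →
        ∀ v, m ≤ v → ζ v s) ∧ ∀ v ∈ V, ¬ (i ≤ v ∧ v < m)) :
    ∃ c', Valid c' ∧ Sub c' c ∧ ∀ s : Finset ℕ, (s : Set ℕ) ∈ K c' → ∀ v, v ∈ V →
      (∃ a, a ∈ s ∧ c.2.1 0 ≤ a ∧ a < E (v + 1)) → ζ v (tr s (E (v + 1))) := by
  refine (build hc 0 (fun s => (s : Set ℕ) ∈ K c ∧ ∀ v, v ∈ V →
      (∃ a, a ∈ s ∧ c.2.1 0 ≤ a ∧ a < E (v + 1)) → ζ v (tr s (E (v + 1)))) (fun _ _ => True)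
    (fun s hs hb => ⟨hs, fun v _ ⟨a, h1, h2, _⟩ => absurd (hb a h1) (not_lt.2 h2)⟩)
    fun S m N hN hS => ?_).imp
    fun c' ⟨a1, _, a3, _⟩ => ⟨a1, fun s hs => (a3 s hs).1, fun s hs => (a3 s hs).2⟩
  obtain ⟨i, hi, m', ⟨h1, h2⟩, h3⟩ := h (max N m)
  have h4 := hE' i
  have h5 := hc.le (E i)
  have h6 := hc.lt (E i)
  have hmem : ∀ t ∈ c.2.2 (E i), ∀ s ∈ S, ((s ∪ t : Finset ℕ) : Set ℕ) ∈ K c := fun t ht s hs => by
    rw [Finset.coe_union]
    exact union_single_mem hc (hS s hs).1.1 (fun a ha => by have := (hS s hs).2 a ha; omega) ht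
  refine ⟨c.2.1 (E i + 1), by omega, c.2.2 (E i), (hc.large _).anti (by omega),
    fun t ht a ha => ?_, trivial, fun t ht s hs => ⟨hmem t ht s hs, fun v hv ⟨a, b1, b2, b3⟩ => ?_⟩⟩
  · have := hc.sub _ t ht a ha
    omega
  · rcases lt_or_ge v i with h7 | h7
    · have h8 : E (v + 1) ≤ E i := hE h7
      have h9 : ∀ b ∈ t, ¬ b < E (v + 1) := fun b hb => by
        have := hc.sub _ t ht b hb
        omega
      have h10 : tr (s ∪ t : Finset ℕ) (E (v + 1)) = tr s (E (v + 1)) := tr_congr fun b _ hb => by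
        rw [Finset.coe_union]
        exact ⟨fun h => h.elim id fun h' => absurd hb (h9 b h'), Or.inl⟩
      rw [h10]
      exact (hS s hs).1.2 v hv ⟨a, (Finset.mem_union.1 b1).resolve_right fun h => h9 a h b3, b2, b3⟩
    · have h8 : m' ≤ v := not_lt.1 fun h => h3 v hv ⟨h7, h⟩
      have h9 : ∀ b ∈ s ∪ t, b < c.2.1 (E i + 1) := fun b hb => by
        rcases Finset.mem_union.1 hb with h | h
        · have := (hS s hs).2 b h
          omega
        · exact (hc.sub _ t ht b h).2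
      have h10 := hE' (v + 1)
      rw [tr_eq fun b hb => by have := h9 b hb; omega]
      exact h2 _ h9 (hmem t ht s hs) ⟨a, b1, b2⟩ v h8

end Pool.Agent.Lib.Common.Iter
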