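import Mathlib
import Pool.Agent.Lib.Common.Iter.APlus
import Pool.Agent.Lib.Common.Iter.Hind

/-!
The ground model infinite sets remain a reaping family: basic consequences and successor step.
-/

set_option autoImplicit false

namespace Pool.Agent.Lib.Common.Iter

open Set MeasureTheory

variable {ι : Type} [LinearOrder ι]

/-- `q` decides that `z` does not split `V`. -/
def Dec (L : Set ι) (z : Pt ι → Set ℕ) (V : X) (q : Cond ι) : Prop :=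
  ∃ m, (∀ x ∈ bd L q, ∀ v ∈ V.1, m ≤ v → v ∈ z x) ∨ ∀ x ∈ bd L q, ∀ v ∈ V.1, m ≤ v → v ∉ z x

/-- Preservation of reaping. -/
def PR (L : Set ι) : Prop :=
  ∀ z : Pt ι → Set ℕ, Measurable[mL L] z → ∀ V p,
    ∃ V' q, Als V' V ∧ bd L q ⊆ bd L p ∧ Dec L z V' q

theorem lefn_up {L M : Set ι} (hM : IsLowerSet M) {F : Finset ι} (hF : ↑F ⊆ M) {n : ℕ}
    {p q r : Cond ι} (h : LeFn M F n r p) (h1 : ∀ η ∈ M, q.f η = r.f η) (h2 : bd L q ⊆ bd L p) :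
    LeFn L F n q p := ⟨h2, fun η hη x hx => by
  rw [h1 η (hF hη)]
  exact h.2 η hη x fun ζ hζ => h1 ζ (low_Iio hM (hF hη) hζ) ▸ hx ζ hζ⟩

theorem exists_alt {M : ℕ → ℕ → Prop} (h : ∀ i, ∃ m, M i m) : ∃ y : Set ℕ,
    (∀ N, ∃ i, N ≤ i ∧ ∃ m, M i m ∧ ∀ v, i ≤ v → v < m → v ∈ y) ∧
      ∀ N, ∃ i, N ≤ i ∧ ∃ m, M i m ∧ ∀ v, i ≤ v → v < m → v ∉ y := by
  choose μ hμ using h
  let a : ℕ → ℕ := fun k => Nat.rec 0 (fun _ b => max (μ b) (b + 1)) k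
  have h1 : ∀ k, a (k + 1) = max (μ (a k)) (a k + 1) := fun _ => rfl
  have h2 : StrictMono a := strictMono_nat_of_lt_succ fun k => by rw [h1]; omega
  refine ⟨{v | ∃ k, a (2 * k) ≤ v ∧ v < a (2 * k + 1)}, fun N => ⟨a (2 * N), ?_, _, hμ _,
    fun v b c => ⟨N, b, by rw [h1]; omega⟩⟩, fun N => ⟨a (2 * N + 1), ?_, _, hμ _, ?_⟩⟩
  · have := h2.id_le (2 * N)
    simp only [id] at this
    omega
  · have := h2.id_le (2 * N + 1)
    simp only [id] at this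
    omega
  · rintro v b c ⟨k, d, e⟩
    have h3 := (h2.lt_iff_lt (a := 2 * N + 1) (b := 2 * k + 1)).1 (b.trans_lt e)
    have h5 := h1 (2 * N + 1)
    have h4 := (h2.lt_iff_lt (a := 2 * k) (b := 2 * N + 1 + 1)).1 (d.trans_lt (by omega))
    omega

variable [WellFoundedLT ι] {L : Set ι}

theorem PR.omega (hL : IsLowerSet L) (hR : PR L) {I : Type} [Countable I]
    (z : I → Pt ι → Set ℕ) (hz : ∀ i, Measurable[mL L] (z i)) (V : X) (p : Cond ι) (F : Finset ι)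
    (n : ℕ) (hF : ↑F ⊆ L) : ∃ V' q, Als V' V ∧ LeFn L F n q p ∧ ∀ i, ∀ x ∈ bd L q,
      (∃ m, ∀ v, v ∈ V'.1 → m ≤ v → v ∈ z i x) ∨ ∃ m, ∀ v, v ∈ V'.1 → m ≤ v → v ∉ z i x := by
  obtain ⟨V', q, h1, h2, h3⟩ := (pa hL).omega hL (fun i => Dec L (z i))
    (fun i V V' r ⟨m, h⟩ ⟨m', h'⟩ => ⟨max m m', h.imp
      (fun h x hx v a b => h x hx v (h' v (le_of_max_le_right b) a) (le_of_max_le_left b))
      fun h x hx v a b => h x hx v (h' v (le_of_max_le_right b) a) (le_of_max_le_left b)⟩)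
    V p F n hF fun i V' p' _ _ => hR (z i) (hz i) V' p'
  refine ⟨V', q, h1, h2, fun i x hx => ?_⟩
  obtain ⟨_, -, h4⟩ := h3 i
  obtain ⟨r, -, a, m, b⟩ := h4 x hx
  exact b.imp (fun h => ⟨m, h x a⟩) fun h => ⟨m, h x a⟩

theorem PR.int (hL : IsLowerSet L) (hR : PR L) (M : Pt ι → ℕ → ℕ → Prop)
    (hM : ∀ i m, Measurable[mL L] fun x => M x i m) (V : X) (p : Cond ι) (F : Finset ι)
    (n : ℕ) (hF : ↑F ⊆ L) (h : ∀ x ∈ bd L p, ∀ i, ∃ m, M x i m) :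
    ∃ V' q, Als V' V ∧ LeFn L F n q p ∧ ∀ x ∈ bd L q,
      ∀ N, ∃ i, N ≤ i ∧ ∃ m, M x i m ∧ ∀ v ∈ V'.1, ¬ (i ≤ v ∧ v < m) := by
  obtain ⟨q₁, y, a1, a2, a3⟩ := unif hL (pa hL) (pb hL) (fun x (y : Set ℕ) =>
    (∀ N, ∃ i, N ≤ i ∧ ∃ m, M x i m ∧ ∀ v, i ≤ v → v < m → v ∈ y) ∧
      ∀ N, ∃ i, N ≤ i ∧ ∃ m, M x i m ∧ ∀ v, i ≤ v → v < m → v ∉ y)
    (by
      let := mL L
      have h1 : ∀ i m, Measurable fun w : Pt ι × Set ℕ => M w.1 i m :=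
        fun i m => (hM i m).comp measurable_fst
      refine Measurable.and ?_ ?_ <;>
        exact .forall fun N => .exists fun i => .and measurable_const
          (.exists fun m => (h1 i m).and (by fun_prop)))
    p F n hF fun x hx => exists_alt (h x hx)
  obtain ⟨V', q, b1, b2, b3⟩ := hR.omega hL (I := Unit) (fun _ => y) (fun _ => a1) V q₁ F n hF
  refine ⟨V', q, b1, b2.trans hL hF a2, fun x hx N => ?_⟩
  rcases b3 () x hx with ⟨m₀, h1⟩ | ⟨m₀, h1⟩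
  · obtain ⟨i, c1, m, c2, c3⟩ := (a3 x (b2.1 hx)).2 (max N m₀)
    exact ⟨i, le_of_max_le_left c1, m, c2, fun v hv h2 =>
      c3 v h2.1 h2.2 (h1 v hv ((le_of_max_le_right c1).trans h2.1))⟩
  · obtain ⟨i, c1, m, c2, c3⟩ := (a3 x (b2.1 hx)).1 (max N m₀)
    exact ⟨i, le_of_max_le_left c1, m, c2, fun v hv h2 =>
      h1 v hv ((le_of_max_le_right c1).trans h2.1) (c3 v h2.1 h2.2)⟩

theorem exists_read {ξ : ι} {z : Pt ι → Set ℕ} (hz : Measurable[mL (Iic ξ)] z) (p : Cond ι) :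
    ∃ (q : Cond ι) (κ : ℕ → Finset ℕ → Pt ι → Bool), bd (Iic ξ) q ⊆ bd (Iic ξ) p ∧
      (∀ v s, Measurable[mL (Iio ξ)] (κ v s)) ∧ ∀ x ∈ bd (Iic ξ) q, ∀ v,
        (v ∈ z x ↔ κ v (tr (x ξ).1 ((q.f ξ x).2.1 (v + 1))) x = true) := by
  have hL := isLowerSet_Iic ξ
  obtain ⟨s, q, h0, h1, h2⟩ := fusion hL (σ := Cond ι × (Finset ℕ → Pt ι → Bool)) Prod.fst
    (fun _ _ => True) (fun k _ s' => (∀ s, Measurable[mL (Iio ξ)] (s'.2 s)) ∧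
      ∀ x ∈ bd (Iic ξ) s'.1, (k ∈ z x ↔ s'.2 (tr (x ξ).1 ((s'.1.f ξ x).2.1 (1 + k))) x = true))
    1 (s₀ := (p, fun _ _ => true)) (F₀ := {ξ}) trivial (by simp) fun k s F _ _ hF _ _ _ => by
      obtain ⟨V, q, κ, -, a1, a2, a3⟩ := aplus (Y := Bool) (p := s.1) (L := Iic ξ)
        (D := fun b _ r => ∀ x ∈ bd (Iic ξ) r, (k ∈ z x ↔ b = true)) subset_rfl (pab_Iio ξ).1
        (pab_Iio ξ).2 (fun _ _ _ _ h _ => h) (1 + k) default (fun V' p' _ _ => by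
          obtain ⟨r, b1, b2⟩ := pb hL (fun x => k ∈ z x) (by let := mL (Iic ξ); fun_prop) p'
          refine ⟨V', r, Als.refl _, b1, b2.elim (fun h => ⟨true, ?_⟩) fun h => ⟨false, ?_⟩⟩ <;>
            simpa using h) F hF
      refine ⟨(q, κ), trivial, ⟨a2, fun x hx => ?_⟩, a1⟩
      obtain ⟨_, -, b⟩ := a3 (κ (tr (x ξ).1 ((q.f ξ x).2.1 (1 + k))) x)
      obtain ⟨r, -, c1, c2⟩ := b x ⟨hx, rfl⟩
      exact c2 x c1
  refine ⟨q, fun v => (s (v + 1)).2, by simpa only [h0] using (h2 0).1, fun v => (h1 v).1,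
    fun x hx v => ?_⟩
  rw [(h1 v).2 x ((h2 (v + 1)).1 hx),
    ((h2 (v + 1)).same (mem_bd_Iic.1 hx).1).2.1 (v + 1) (by omega), Nat.add_comm 1 v]

theorem succ_side {ξ : ι} (hR : PR (Iio ξ)) {q r : Cond ι} {κ : ℕ → Finset ℕ → Pt ι → Bool}
    (hκ : ∀ v s, Measurable[mL (Iio ξ)] (κ v s)) {g : Pt ι → Raw} (hg : Measurable[mL (Iio ξ)] g)
    (hr : bd (Iio ξ) r ⊆ bd (Iio ξ) q) {V : X} {b : Bool}
    (h : ∀ x ∈ bd (Iio ξ) r, Valid (g x) ∧ Sub (g x) (q.f ξ x) ∧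
      All (g x) fun s => ∃ m, ∀ v, v ∈ V.1 → m ≤ v → κ v s x = b) :
    ∃ V' q', Als V' V ∧ bd (Iic ξ) q' ⊆ bd (Iic ξ) q ∧ ∀ x ∈ bd (Iic ξ) q',
      ∃ m, ∀ v, v ∈ V'.1 → m ≤ v → κ v (tr (x ξ).1 ((q.f ξ x).2.1 (v + 1))) x = b := by
  classical
  have hL := isLowerSet_Iio ξ
  have h1 := q.meas ξ
  obtain ⟨B, hB, hB'⟩ : ∃ B : ℕ → Pt ι → ℕ, (∀ i, Measurable[mL (Iio ξ)] (B i)) ∧
      ∀ i x, (g x).2.1 ((q.f ξ x).2.1 i + 1) = B i x := ⟨_, fun i => by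
    let := mL (Iio ξ)
    exact meas_disc (g := fun k x => (g x).2.1 k) (by fun_prop) (by fun_prop), fun _ _ => rfl⟩
  obtain ⟨ζ, hζ, hζ'⟩ : ∃ ζ : ℕ → Finset ℕ → Pt ι → Prop, (∀ v s, Measurable[mL (Iio ξ)] (ζ v s)) ∧
      ∀ v s x, (v ∈ V.1 → κ v s x = b) = ζ v s x := ⟨_, fun v s => by
    let := mL (Iio ξ)
    exact measurable_const.imp (meas_eq (hκ v s) measurable_const), fun _ _ _ => rfl⟩
  obtain ⟨ζ', hζ1, hζ2⟩ : ∃ ζ' : ℕ → Finset ℕ → Pt ι → Prop,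
      (∀ v s, Measurable[mL (Iio ξ)] (ζ' v s)) ∧
      ∀ v (s : Finset ℕ) x, ζ v (tr s ((q.f ξ x).2.1 (v + 1))) x = ζ' v s x := ⟨_, fun v s => by
    let := mL (Iio ξ)
    exact meas_disc (g := fun s x => ζ v s x) (by fun_prop) (hζ v), fun _ _ _ => rfl⟩
  obtain ⟨V', r₁, a1, a2, a3⟩ := hR.int hL (fun x i m => B i x ≤ m ∧ ∀ s : Finset ℕ,
    (∀ a, a ∈ s → a < B i x) → (s : Set ℕ) ∈ K (g x) → (∃ a, a ∈ s ∧ (g x).2.1 0 ≤ a) →
      ∀ v, m ≤ v → ζ v s x) (fun i m => by let := mL (Iio ξ); fun_prop) V r ∅ 0 (by simp)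
    fun x hx i => by
      choose! μ hμ using (h x hx).2.2
      refine ⟨B i x + (Finset.range (B i x)).powerset.sup μ, by omega, fun s b1 b2 b3 v b4 => ?_⟩
      rw [← hζ']
      have := Finset.le_sup (f := μ)
        (Finset.mem_powerset.2 fun a ha => Finset.mem_range.2 (b1 a ha))
      exact fun hv => hμ s b2 b3 v hv (by omega)
  obtain ⟨r₂, g', b1, b2, b3⟩ := unif hL (pa hL) (pb hL) (fun x c => Valid c ∧ Sub c (g x) ∧
    ∀ s : Finset ℕ, (s : Set ℕ) ∈ K c → ∀ v, v ∈ V'.1 →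
      (∃ a, a ∈ s ∧ (g x).2.1 0 ≤ a ∧ a < (q.f ξ x).2.1 (v + 1)) → ζ' v s x)
    (by let := mL (Iio ξ); fun_prop) r₁ ∅ 0 (by simp) fun x hx => by
      simp only [← hζ2]
      refine exists_sparse (h x (a2.1 hx)).1 (q.valid ξ x).strictMono.monotone
        (q.valid ξ x).le (ζ := fun v s => ζ v s x) ?_
      simpa only [hB'] using a3 x hx
  obtain ⟨q', -, c1, c2, c3⟩ := exists_put (p := q) b1 (b2.1.trans (a2.1.trans hr))
    fun x hx => ⟨(b3 x hx).1, ((b3 x hx).2.1.subset (b3 x hx).1).trans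
      ((h x (a2.1 (b2.1 hx))).2.1.subset (h x (a2.1 (b2.1 hx))).1)⟩
  refine ⟨V', q', a1, c3 _ Iio_subset_Iic_self, fun x hx => ?_⟩
  obtain ⟨d1, d2⟩ := mem_bd_Iic.1 hx
  rw [c1] at d1
  rw [c2 x d1] at d2
  obtain ⟨a, d3, d4⟩ := (x ξ).2.exists_gt ((g x).2.1 0)
  obtain ⟨m, hm⟩ := a1
  refine ⟨max a m, fun v hv d5 => ?_⟩
  have d6 := (q.valid ξ x).le (v + 1)
  have d7 := (b3 x d1).1.le ((q.f ξ x).2.1 (v + 1))
  have d8 := (b3 x d1).2.2 _ (tr_mem (b3 x d1).1 d2 ((q.f ξ x).2.1 (v + 1))) v hv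
    ⟨a, mem_tr.2 ⟨by omega, d3⟩, d4.le, by omega⟩
  rw [← hζ2, ← hζ', ← tr_congr ((agree_tr _ _).mono le_rfl d7)] at d8
  exact d8 (hm v (by omega) hv)

theorem pr_succ {ξ : ι} (hR : PR (Iio ξ)) : PR (Iic ξ) := by
  intro z hz V p
  have hL := isLowerSet_Iio ξ
  have hL' := isLowerSet_Iic ξ
  obtain ⟨q, κ, a1, a2, a3⟩ := exists_read hz p
  have h1 := q.meas ξ
  obtain ⟨V₂, r₂, b1, b2, b3⟩ := hR.omega hL (fun s x => {v | κ v s x = true}) (fun s => by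
    let := mL (Iio ξ)
    exact measurable_set_iff.2 fun v => meas_eq (a2 v s) measurable_const) V q ∅ 0 (by simp)
  obtain ⟨ε, hε, hε'⟩ : ∃ ε : Finset ℕ → Pt ι → Prop, (∀ s, Measurable[mL (Iio ξ)] (ε s)) ∧
      ∀ s x, (∃ m, ∀ v, v ∈ V₂.1 → m ≤ v → κ v s x = true) = ε s x := ⟨_, fun s => by
    let := mL (Iio ξ)
    exact .exists fun m => .forall fun v => measurable_const.imp
      (measurable_const.imp (meas_eq (a2 v s) measurable_const)), fun _ _ => rfl⟩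
  obtain ⟨r₃, g, c1, c2, c3⟩ := unif hL (pa hL) (pb hL) (fun x c => Valid c ∧ Sub c (q.f ξ x) ∧
    (All c (fun s => ε s x) ∨ All c fun s => ¬ ε s x))
    (by let := mL (Iio ξ); unfold All; fun_prop) r₂ ∅ 0 (by simp)
    fun x _ => exists_hind (q.valid ξ x) _
  obtain ⟨r₄, d1, d2⟩ := pb hL (fun x => All (g x) fun s => ε s x)
    (by let := mL (Iio ξ); unfold All; fun_prop) r₃
  obtain ⟨b, hb⟩ : ∃ b : Bool, ∀ x ∈ bd (Iio ξ) r₄,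
      All (g x) fun s => ∃ m, ∀ v, v ∈ V₂.1 → m ≤ v → κ v s x = b := by
    rcases d2 with h | h
    · exact ⟨true, by simpa only [hε'] using h⟩
    · refine ⟨false, fun x hx s e1 e2 => ?_⟩
      have e3 := (c3 x (d1 hx)).2.2.resolve_left (h x hx) s e1 e2
      beta_reduce at e3
      rw [← hε'] at e3
      simpa only [mem_ofPred_eq, Bool.not_eq_true] using
        (b3 s x (c2.1 (d1 hx))).resolve_left e3
  obtain ⟨V', q', e1, e2, e3⟩ := succ_side hR a2 c1 (d1.trans (c2.1.trans b2.1))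
    fun x hx => ⟨(c3 x (d1 hx)).1, (c3 x (d1 hx)).2.1, hb x hx⟩
  obtain ⟨q'', f1, m, f2⟩ := (pa hL').fix hL' (pb hL')
    (fun m x => ∀ v, v ∈ V'.1 → m ≤ v → (v ∈ z x ↔ b = true))
    (fun m => by let := mL (Iic ξ); fun_prop) q' fun x hx => by
      obtain ⟨m, hm⟩ := e3 x hx
      exact ⟨m, fun v h2 h3 => by rw [a3 x (e2 hx) v, hm v h2 h3]⟩
  refine ⟨V', q'', e1.trans b1, f1.trans (e2.trans a1), m, ?_⟩
  cases b
  · exact Or.inr (by simpa using f2)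
  · exact Or.inl (by simpa using f2)

end Pool.Agent.Lib.Common.Iter
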