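import Mathlib
import Pool.Agent.Lib.Common.Iter.Reap

/-!
The ground model infinite sets remain a reaping family: limit step and conclusion.
-/

set_option autoImplicit false

namespace Pool.Agent.Lib.Common.Iter

open Set MeasureTheory

variable {ι : Type} [LinearOrder ι]

/-- Over stage `α`, every initial segment of `U` can be forced into `z`. -/
def Poss (L : Set ι) (z : Pt ι → Set ℕ) (U : Set ℕ) (q : Cond ι) (α : ι) : Prop :=
  ∀ i r, bd (Iio α) r ⊆ bd (Iio α) q → ∃ q', bd L q' ⊆ bd L q ∧ bd L q' ⊆ bd (Iio α) r ∧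
    ∀ x ∈ bd L q', ∀ v ∈ U, v < i → v ∈ z x

variable {L : Set ι} {z : Pt ι → Set ℕ}

theorem Poss.mono {U U' : Set ℕ} {q : Cond ι} {α : ι} (h : Poss L z U q α) (hU : U' ⊆ U) :
    Poss L z U' q α := fun i r hr =>
  let ⟨q', a, b, c⟩ := h i r hr
  ⟨q', a, b, fun x hx v hv => c x hx v (hU hv)⟩

theorem Poss.anti {U : Set ℕ} {q : Cond ι} {α α' : ι} (h : Poss L z U q α) (hα : α' ≤ α) :
    Poss L z U q α' := fun i r hr =>
  let ⟨q', a, b, c⟩ := h i (join (isLowerSet_Iio α') r q) (join_le _ (Iio_subset_Iio hα) hr)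
  ⟨q', a, b.trans (join_le_left _ _ _ (Iio_subset_Iio hα)), c⟩

variable [WellFoundedLT ι]

theorem exists_poss (hL : IsLowerSet L) (hz : Measurable[mL L] z) {α : ι} (hα : α ∈ L)
    (hR : PR (Iio α)) (V : X) (p : Cond ι) : ∃ V' q, Als V' V ∧ bd L q ⊆ bd L p ∧
      (Poss L z V'.1 q α ∨ Poss L (fun x => (z x)ᶜ) V'.1 q α) := by
  have hM := isLowerSet_Iio α
  have hα' := low_Iio hL hα
  obtain ⟨s, r, h0, h1, h2⟩ := fusion hM (σ := Cond ι × (Pt ι → Prop)) Prod.fst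
    (fun _ _ => True) (fun k s s' => bd L s'.1 ⊆ bd L s.1 ∧ Measurable[mL (Iio α)] s'.2 ∧
      ∀ x ∈ bd L s'.1, (k ∈ z x ↔ s'.2 x))
    0 (s₀ := (p, fun _ => True)) (F₀ := ∅) trivial (by simp) fun k s F _ _ hF _ _ _ => by
      obtain ⟨r, a1, a2⟩ := (pa hM).omega' hM (I := Unit) (fun _ r => bd L r ⊆ bd L s.1 ∧
        ((∀ x ∈ bd L r, k ∈ z x) ∨ ∀ x ∈ bd L r, k ∉ z x)) s.1 F (0 + k) hF fun _ p' hp => by
          obtain ⟨r, b1, b2⟩ := pb hL (fun x => k ∈ z x) (by let := mL L; fun_prop)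
            (join hM p' s.1)
          exact ⟨r, bd_down hM (meas_bd hM p') (b1.trans (join_le_left hM _ _ hα')),
            b1.trans (join_le hM hα' hp), b2⟩
      obtain ⟨rr, i, b1, b2⟩ := (a2 ()).idx hM
      have b3 : ∀ x ∈ bd L (glue hM r b1 rr), x ∈ bd (Iio α) r ∧ x ∈ bd L (rr (i x)) :=
        fun x hx =>
          have h := ((mem_bd_glue hM r b1 rr hα').1 hx).1
          ⟨h, glue_mem hM r b1 rr hx (b2 x h).1⟩
      refine ⟨(glue hM r b1 rr, fun x => ∀ y ∈ bd L (rr (i x)), k ∈ z y), trivial,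
        ⟨fun x hx => (b2 x (b3 x hx).1).2.1 (b3 x hx).2,
          (measurable_of_countable fun j => ∀ y ∈ bd L (rr j), k ∈ z y).comp b1,
          fun x hx => ⟨fun h => (b2 x (b3 x hx).1).2.2.resolve_right fun h' => h' x (b3 x hx).2 h,
            fun h => h x (b3 x hx).2⟩⟩,
        lefn_up hM hF a1 (fun η hη => glue_in hM r b1 rr hη) ?_⟩
      exact (bd_glue_low hM r b1 rr subset_rfl).subset.trans a1.1
  obtain ⟨V', r', a1, a2, m, a3⟩ := hR (fun x => {k | (s (k + 1)).2 x})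
    (by let := mL (Iio α); exact measurable_set_iff.2 fun k => (h1 k).2.1) V r
  have h3 : Antitone fun k => bd L (s k).1 := antitone_nat_of_succ_le fun k => (h1 k).1
  have h4 : ∀ k, bd L (s k).1 ⊆ bd L p := fun k => by
    simpa only [h0] using h3 (Nat.zero_le k)
  have h5 : bd (Iio α) r' ⊆ bd (Iio α) p := a2.trans (by simpa only [h0] using (h2 0).1)
  have key : ∀ i r₁, bd (Iio α) r₁ ⊆ bd (Iio α) (join hM r' p) → ∃ q',
      bd L q' ⊆ bd L (join hM r' p) ∧ bd L q' ⊆ bd (Iio α) r₁ ∧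
        ∀ x ∈ bd L q', x ∈ bd (Iio α) r' ∧ ∀ v < i, (v ∈ z x ↔ (s (v + 1)).2 x) := by
    intro i r₁ hr
    rw [bd_join_low hM _ _ subset_rfl] at hr
    have b1 := join_le hM hα' (hr.trans (a2.trans (h2 i).1))
    have b2 := join_le_left hM r₁ (s i).1 hα'
    exact ⟨_, fun x hx => (mem_bd_join hM _ _ hα').2
      ⟨hr (b2 hx), fun η hη _ => h4 i (b1 hx) η hη⟩, b2,
      fun x hx => ⟨hr (b2 hx), fun v hv => (h1 v).2.2 x (h3 hv (b1 hx))⟩⟩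
  refine ⟨⟨V'.1 \ Iio m, V'.2.sdiff (finite_Iio m)⟩, join hM r' p,
    (Als.of_subset sdiff_subset).trans a1, join_le hM hα' h5,
    a3.imp (fun h i r₁ hr => ?_) fun h i r₁ hr => ?_⟩
  · obtain ⟨q', b1, b2, b3⟩ := key i r₁ hr
    exact ⟨q', b1, b2, fun x hx v hv hi =>
      ((b3 x hx).2 v hi).2 (h x (b3 x hx).1 v hv.1 (not_lt.1 hv.2))⟩
  · obtain ⟨q', b1, b2, b3⟩ := key i r₁ hr
    exact ⟨q', b1, b2, fun x hx v hv hi h' =>
      h x (b3 x hx).1 v hv.1 (not_lt.1 hv.2) (((b3 x hx).2 v hi).1 h')⟩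

/-- `Poss` holds densely at every stage. -/
def Ein (L : Set ι) (z : Pt ι → Set ℕ) (V : X) (p : Cond ι) : Prop :=
  ∀ α ∈ L, Dense2 L (fun V' q => Poss L z V'.1 q α) V p

theorem lim_step (hL : IsLowerSet L) {V U : X} {p q : Cond ι} (hE : Ein L z V p) (hU : Als U V)
    (hq : bd L q ⊆ bd L p) {α α' : ι} (hα : α ≤ α') (hα' : α' ∈ L) (hR : PR (Iio α))
    (hP : Poss L z U.1 q α) {F : Finset ι} (hF : ↑F ⊆ Iio α) (n v : ℕ) (hv : v ∈ U.1) :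
    ∃ (U' : X) (q' : Cond ι), U'.1 ⊆ U.1 ∧ LeFn L F n q' q ∧ Poss L z U'.1 q' α' ∧
      ∀ x ∈ bd L q', v ∈ z x := by
  have hM := isLowerSet_Iio α
  have hM' := isLowerSet_Iio α'
  have hL' := low_Iio hL hα'
  have hαα := Iio_subset_Iio hα
  have hLα := hαα.trans hL'
  obtain ⟨V₂, r₁, a1, a2, a3⟩ := (pa hM).omega hM (I := ℕ) (fun i V' r => ∃ m, bd L r ⊆ bd L q ∧
    (∀ x ∈ bd L r, ∀ u ∈ U.1, u < i → u ∈ z x) ∧ Poss L z (V'.1 \ Iio m) r α')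
    (fun i V' V'' r ⟨m, b1, b2, b3⟩ ⟨m', b4⟩ => ⟨max m m', b1, b2, b3.mono fun u hu =>
      ⟨b4 u (le_of_max_le_right (not_lt.1 hu.2)) hu.1,
        fun h => hu.2 (mem_Iio.2 (lt_max_of_lt_left h))⟩⟩) U q F n hF fun i V' p' b1 b2 => by
      obtain ⟨q', c1, c2, c3⟩ := hP i p' b2
      obtain ⟨V'', t, d1, d2, d3⟩ := hE α' hα' V' q' (b1.trans hU) (c1.trans hq)
      exact ⟨V'', t, d1, bd_down hM (meas_bd hM p') (d2.trans c2), 0, d2.trans c1,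
        fun x hx => c3 x (d2 hx), d3.mono sdiff_subset⟩
  choose rr hrr using fun i => (a3 i).seq
  obtain ⟨T, hT⟩ : ∃ T : ℕ → ℕ → ℕ → Prop, ∀ i j m, T i j m ↔ bd L (rr i j) ⊆ bd L q ∧
    (∀ x ∈ bd L (rr i j), ∀ u ∈ U.1, u < i → u ∈ z x) ∧ Poss L z (V₂.1 \ Iio m) (rr i j) α' :=
    ⟨_, fun _ _ _ => Iff.rfl⟩
  have hm := fun i j => meas_bd hM (rr i j)
  obtain ⟨V₃, r₂, b1, b2, b3⟩ := hR.int hM (fun x i m => ∃ j, x ∈ bd (Iio α) (rr i j) ∧ T i j m)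
    (fun i m => by let := mL (Iio α); exact .exists fun j => (hm i j).and measurable_const)
    V₂ r₁ F n hF fun x hx i =>
      let ⟨j, c1, m, c2⟩ := hrr i x hx
      ⟨m, j, c1, (hT i j m).2 c2⟩
  obtain ⟨V₄, c1, c2⟩ := b1.exists_sub
  obtain ⟨V₅, c3, c4⟩ := ((Als.of_subset c2).trans a1).exists_sub
  obtain ⟨i, d1, d2⟩ := exists_idx' (L := Iio α) (κ := ℕ × ℕ × ℕ)
    (fun a x => x ∈ bd (Iio α) (rr a.1 a.2.1) ∧ v < a.1 ∧ T a.1 a.2.1 a.2.2 ∧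
      ∀ u ∈ V₃.1, ¬ (a.1 ≤ u ∧ u < a.2.2))
    fun a => by let := mL (Iio α); exact (hm _ _).and measurable_const
  have d3 := fun x (hx : x ∈ bd (Iio α) r₂) => d2 x <|
    let ⟨i, e1, m, ⟨j, e2, e3⟩, e4⟩ := b3 x hx (v + 1)
    ⟨(i, j, m), e2, e1, e3, e4⟩
  have d4 : ∀ M, Iio α ⊆ M → ∀ x ∈ bd M (glue hM r₂ d1 fun a => rr a.1 a.2.1),
      x ∈ bd (Iio α) r₂ ∧ x ∈ bd M (rr (i x).1 (i x).2.1) := fun M hM' x hx =>
    have h := ((mem_bd_glue hM r₂ d1 _ hM').1 hx).1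
    ⟨h, glue_mem hM r₂ d1 _ hx (d3 x h).1⟩
  refine ⟨V₅, glue hM r₂ d1 fun a => rr a.1 a.2.1, c4,
    lefn_up hM hF (b2.trans hM hF a2) (fun η hη => glue_in hM r₂ d1 _ hη) fun x hx =>
      ((hT _ _ _).1 (d3 x (d4 L hLα x hx).1).2.2.1).1 (d4 L hLα x hx).2, fun k r hr => ?_,
    fun x hx => ((hT _ _ _).1 (d3 x (d4 L hLα x hx).1).2.2.1).2.1 x (d4 L hLα x hx).2 v hv
      (d3 x (d4 L hLα x hx).1).2.1⟩
  obtain ⟨r', e1, a, e2⟩ := (pa hM').fix hM' (pb hM') (fun a x => i x = a)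
    (fun a => by let := mL (Iio α'); exact meas_eq (meas_up d1 hαα) measurable_const) r
    fun x _ => ⟨_, rfl⟩
  obtain ⟨y, hy⟩ := bd_nonempty (Iio α') r'
  obtain ⟨-, -, e3, e4⟩ := d3 y (d4 _ hαα y (hr (e1 hy))).1
  rw [e2 y hy] at e3 e4
  obtain ⟨-, e5, e6⟩ := (hT _ _ _).1 e3
  obtain ⟨q'', f1, f2, f3⟩ := e6 k r' fun x hx => e2 x hx ▸ (d4 _ hαα x (hr (e1 hx))).2
  refine ⟨q'', fun x hx => (mem_bd_glue hM r₂ d1 _ hLα).2
    ⟨(d4 _ hαα x (hr (e1 (f2 hx)))).1, fun η hη _ => ?_⟩, f2.trans e1, fun x hx u hu hk => ?_⟩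
  · rw [e2 x (f2 hx)]
    exact f1 hx η hη
  · rcases lt_or_ge u a.1 with h | h
    · exact e5 x (f1 hx) u (c4 hu) h
    · exact f3 x hx u ⟨c2 (c3 hu), fun h' => e4 u (c1 (c3 hu)) ⟨h, h'⟩⟩ hk

theorem lim_main (hL : IsLowerSet L) (hne : L.Nonempty) (hlim : ∀ η ∈ L, ∃ α ∈ L, η < α)
    (hR : ∀ η ∈ L, PR (Iio η)) {V : X} {p : Cond ι} (hE : Ein L z V p) :
    ∃ V' q, Als V' V ∧ bd L q ⊆ bd L p ∧ ∀ x ∈ bd L q, ∀ v ∈ V'.1, v ∈ z x := by
  classical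
  obtain ⟨α₀, hα₀⟩ := hne
  obtain ⟨U₀, q₀, a1, a2, a3⟩ := hE α₀ hα₀ V p (Als.refl _) subset_rfl
  obtain ⟨s, q, h0, h1, h2⟩ := fusion hL (σ := X × Cond ι × ι) (fun s => s.2.1)
    (fun s F => s.1.1 ⊆ U₀.1 ∧ bd L s.2.1 ⊆ bd L p ∧ s.2.2 ∈ L ∧ ↑F ⊆ Iio s.2.2 ∧
      Poss L z s.1.1 s.2.1 s.2.2)
    (fun k _ s' => ∃ v ∈ U₀.1, k ≤ v ∧ ∀ x ∈ bd L s'.2.1, v ∈ z x) 0 (s₀ := (U₀, q₀, α₀))
    (F₀ := ∅) ⟨subset_rfl, a2, hα₀, by simp, a3⟩ (by simp)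
    fun k s F ⟨b1, b2, b3, b4, b5⟩ _ _ G hG _ => by
      have hne := Finset.insert_nonempty s.2.2 G
      obtain ⟨α', c1, c2⟩ := hlim _ (show (insert s.2.2 G).max' hne ∈ L from
        (Finset.mem_insert.1 (Finset.max'_mem _ hne)).elim (fun h => h.symm ▸ b3) fun h => hG h)
      obtain ⟨v, c3, c4⟩ := s.1.2.exists_gt k
      obtain ⟨U', q', d1, d2, d3, d4⟩ := lim_step hL hE ((Als.of_subset b1).trans a1) b2
        ((Finset.le_max' _ _ (Finset.mem_insert_self _ _)).trans c2.le) c1 (hR _ b3) b5 b4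
        (0 + k) v c3
      exact ⟨(U', q', α'), ⟨d1.trans b1, d2.1.trans b2, c1, fun η hη =>
        (Finset.le_max' _ _ (Finset.mem_insert_of_mem hη)).trans_lt c2, d3⟩,
        ⟨v, b1 c3, c4.le, d4⟩, d2⟩
  choose v b1 b2 b3 using h1
  have b4 : (range v).Infinite := infinite_of_not_bddAbove fun ⟨N, hN⟩ => by
    have := hN ⟨N + 1, rfl⟩
    have := b2 (N + 1)
    omega
  refine ⟨⟨range v, b4⟩, q, (Als.of_subset (range_subset_iff.2 b1)).trans a1,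
    Subset.trans (by simpa only [h0] using (h2 0).1) a2, ?_⟩
  rintro x hx _ ⟨k, rfl⟩
  exact b3 k x ((h2 (k + 1)).1 hx)

theorem pr_lim (hL : IsLowerSet L) (hne : L.Nonempty) (hlim : ∀ η ∈ L, ∃ α ∈ L, η < α)
    (hR : ∀ η ∈ L, PR (Iio η)) : PR L := by
  intro z hz V p
  by_cases h : Ein L z V p
  · obtain ⟨V', q, a, b, c⟩ := lim_main hL hne hlim hR h
    exact ⟨V', q, a, b, 0, Or.inl fun x hx v hv _ => c x hx v hv⟩
  · simp only [Ein, Dense2, not_forall, not_exists, not_and] at h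
    obtain ⟨α₁, h1, V₁, p₁, h2, h3, h4⟩ := h
    obtain ⟨V', q, a, b, c⟩ := lim_main (z := fun x => (z x)ᶜ) (V := V₁) (p := p₁) hL hne hlim hR
      fun α hα V' p' a b => by
        have h5 : max α α₁ ∈ L := by rcases le_total α α₁ with h | h <;> simp [*]
        obtain ⟨V'', q, c, d, e⟩ := exists_poss hL hz h5 (hR _ h5) V' p'
        exact ⟨V'', q, c, d, (e.resolve_left fun e =>
          h4 V'' q (c.trans a) (d.trans b) (e.anti (le_max_right _ _))).anti (le_max_left _ _)⟩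
    exact ⟨V', q, a.trans h2, b.trans h3, 0, Or.inr fun x hx v hv _ => c x hx v hv⟩

omit [WellFoundedLT ι] in
theorem pr_empty : PR (∅ : Set ι) := by
  intro z hz V p
  have h : ∀ x, z x = z default := fun x => dep_fun hz fun _ h => h.elim
  by_cases h1 : (V.1 ∩ z default).Infinite
  · exact ⟨⟨_, h1⟩, p, Als.of_subset inter_subset_left, subset_rfl, 0,
      Or.inl fun x _ v hv _ => h x ▸ hv.2⟩
  · refine ⟨⟨_, V.2.sdiff (not_infinite.1 h1)⟩, p, Als.of_subset sdiff_subset, subset_rfl, 0,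
      Or.inr fun x _ v hv _ h2 => hv.2 ⟨hv.1, h x ▸ h2⟩⟩

theorem pr_step (hL : IsLowerSet L) (hR : ∀ η ∈ L, PR (Iio η)) : PR L := by
  rcases L.eq_empty_or_nonempty with rfl | hne
  · exact pr_empty
  by_cases h : ∀ η ∈ L, ∃ α ∈ L, η < α
  · exact pr_lim hL hne h hR
  · push Not at h
    obtain ⟨ξ, h1, h2⟩ := h
    obtain rfl : L = Iic ξ := Subset.antisymm h2 (low_Iic hL h1)
    exact pr_succ (hR ξ h1)

theorem pr_Iio (ξ : ι) : PR (Iio ξ) := by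
  induction ξ using WellFoundedLT.induction with
  | ind ξ ih => exact pr_step (isLowerSet_Iio ξ) ih

theorem pr (hL : IsLowerSet L) : PR L := pr_step hL fun η _ => pr_Iio η

end Pool.Agent.Lib.Common.Iter
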