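import Mathlib
import Pool.Agent.Lib.Common.Iter.Limit
import Pool.Agent.Lib.Common.Forcing.Names

/-!
The forcing properties of the iteration, in the language of the forcing library.
-/

set_option autoImplicit false

namespace Pool.Agent.Lib.Common.Iter

open Set MeasureTheory Cardinal Pool.Agent.Lib.Common.Forcing

/-- The first uncountable ordinal as a type. -/
abbrev O1 : Type := (Ordinal.omega 1).ToType

theorem exists_gt_of_lt_cof {α : Type} [LinearOrder α] {s : Set α} (h : #s < Order.cof α) :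
    ∃ b, ∀ a ∈ s, a < b := not_isCofinal_iff.1 fun h' => (Order.cof_le h').not_gt h

theorem O1.bdd {s : Set O1} (h : s.Countable) : ∃ b, ∀ a ∈ s, a < b :=
  exists_gt_of_lt_cof (by
    rw [Ordinal.cof_toType, Cardinal.cof_omega_one]
    exact (le_aleph0_iff_set_countable.2 h).trans_lt aleph0_lt_aleph_one)

theorem O1.countable_Iio (a : O1) : (Iio a).Countable := by
  rw [← le_aleph0_iff_set_countable, ← Order.lt_succ_iff, succ_aleph0]
  simpa using mk_Iio_lt a (by simp)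

section
variable {P : Type} [Preorder P]

/-- Monotone families of sets of conditions. -/
def Mon {I : Type} (W : I → P → Prop) : Prop := ∀ i p q, W i p → q ≤ p → W i q

/-- `W` is forced, or its negation is. -/
def Lit (b : Bool) (W : P → Prop) (r : P) : Prop := cond b (Dn W r) (Neg W r)

theorem Lit.mono {b : Bool} {W : P → Prop} {p q : P} (h : Lit b W p) (hq : q ≤ p) : Lit b W q := by
  cases b
  exacts [Neg.mono h hq, Dn.mono h hq]

end

/-- The properties of a forcing notion used to get a model with a small reaping family and no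
small splitting family. -/
structure Nice (P : Type) [Preorder P] : Prop where
  bdd : ∀ {I : Type} [Countable I] (E : I → O1 → P → Prop), (∀ n, Mon (E n)) → ∀ p,
    (∀ n, Dn (fun r => ∃ a, E n a r) p) → ∃ q ≤ p, ∃ b, ∀ n, Dn (fun r => ∃ a < b, E n a r) q
  reap : ∀ W : ℕ → P → Prop, Mon W → ∀ p, ∃ q ≤ p, ∃ V : X, ∃ ε, ∀ k ∈ V.1, Lit ε (W k) q
  coll : ∃ C : O1 × X → P → Prop, Mon C ∧ (∀ a V V' q, C (a, V) q → C (a, V') q → V = V') ∧
    ∀ V p, ∃ q ≤ p, ∃ a, C (a, V) q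
  split : ∀ Z : ℕ → ℕ → P → Prop, (∀ n, Mon (Z n)) → ∀ p, ∃ q ≤ p, ∃ s : ℕ → P → Prop, Mon s ∧
    ∀ n, ∀ r ≤ q, (∀ N, Dn (fun t => ∃ k, N ≤ k ∧ Z n k t) r) →
      ∀ ε N, Dn (fun t => ∃ k, N ≤ k ∧ Dn (Z n k) t ∧ Lit ε (s k) t) r
  unsplit : ∀ Z : O1 → ℕ → P → Prop, (∀ a, Mon (Z a)) → ∃ x : ℕ → P → Prop, Mon x ∧
    (∀ N p, ∃ q ≤ p, ∃ k, N ≤ k ∧ x k q) ∧
      ∀ a p, ∃ q ≤ p, ∃ m ε, ∀ n, m ≤ n → ∀ r ≤ q, x n r → Lit ε (Z a n) r

variable {ι : Type} [LinearOrder ι]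

instance : Preorder (Cond ι) where
  le q p := bd univ q ⊆ bd univ p
  le_refl _ := subset_rfl
  le_trans _ _ _ := Subset.trans

theorem Cond.le_def {p q : Cond ι} : q ≤ p ↔ bd univ q ⊆ bd univ p := Iff.rfl

/-- Below `q`, the measurable predicates `z` compute the forcing values `W`. -/
def Reads {I : Type} (q : Cond ι) (z : I → Pt ι → Prop) (W : I → Cond ι → Prop) : Prop :=
  ∀ i, ∀ r ≤ q, ∀ ε, (∀ x ∈ bd univ r, (z i x ↔ ε = true)) → Lit ε (W i) r

variable [WellFoundedLT ι]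

theorem fixU {I : Type} [Countable I] (P : I → Pt ι → Prop) (hP : ∀ i, Measurable[mL univ] (P i))
    (p : Cond ι) (h : ∀ x ∈ bd univ p, ∃ i, P i x) : ∃ q ≤ p, ∃ i, ∀ x ∈ bd univ q, P i x :=
  (pa isLowerSet_univ).fix isLowerSet_univ (pb isLowerSet_univ) P hP p h

theorem coverU {I : Type} [Countable I] (D : I → Cond ι → Prop) (p : Cond ι)
    (h : ∀ i, Dn (D i) p) : ∃ q ≤ p, ∃ r : I → ℕ → Cond ι,
      ∀ i, ∀ x ∈ bd univ q, ∃ j, x ∈ bd univ (r i j) ∧ D i (r i j) := by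
  obtain ⟨q, h1, h2⟩ := (pa isLowerSet_univ).omega' isLowerSet_univ D p ∅ 0 (by simp) h
  choose r hr using fun i => (h2 i).seq
  exact ⟨q, h1.1, r, hr⟩

theorem fix_cover {r : ℕ → Cond ι} {D : ℕ → Prop} {q : Cond ι}
    (h : ∀ x ∈ bd univ q, ∃ j, x ∈ bd univ (r j) ∧ D j) : ∃ t ≤ q, ∃ j, t ≤ r j ∧ D j := by
  obtain ⟨t, h1, j, h2⟩ := fixU (fun j x => x ∈ bd univ (r j) ∧ D j) (fun j => by
    have h1 := meas_bd isLowerSet_univ (r j)
    let := mL (univ : Set ι)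
    exact h1.and measurable_const) q h
  obtain ⟨y, hy⟩ := bd_nonempty univ t
  exact ⟨t, h1, j, fun x hx => (h2 x hx).1, (h2 y hy).2⟩

theorem exists_reads {I : Type} [Countable I] {W : I → Cond ι → Prop} (hW : Mon W) (p : Cond ι) :
    ∃ q ≤ p, ∃ z : I → Pt ι → Prop, (∀ i, Measurable[mL univ] (z i)) ∧ Reads q z W := by
  obtain ⟨q, h1, r, h2⟩ := coverU (fun i r => W i r ∨ Neg (W i) r) p
    fun i q _ => exists_decide (W i) q
  refine ⟨q, h1, fun i x => ∃ j, x ∈ bd univ (r i j) ∧ W i (r i j), fun i => ?_,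
    fun i t ht ε h3 => ?_⟩
  · have h1 := fun j => meas_bd isLowerSet_univ (r i j)
    let := mL (univ : Set ι)
    exact .exists fun j => (h1 j).and measurable_const
  · cases ε
    · intro t' a b
      obtain ⟨t'', c, j, d, e⟩ := fix_cover (q := t') (r := r i) (D := fun j => Neg (W i) (r i j))
        fun x hx =>
          let ⟨j, c, d⟩ := h2 i x (ht (a hx))
          ⟨j, c, d.resolve_left fun e => by simpa using (h3 x (a hx)).1 ⟨j, c, e⟩⟩
      exact e t'' d (hW i _ _ b c)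
    · intro t' a
      obtain ⟨t'', c, j, d, e⟩ := fix_cover (q := t') (r := r i) (D := fun j => W i (r i j))
        fun x hx => (h3 x (a hx)).2 rfl
      exact ⟨t'', c, hW i _ _ e d⟩

theorem nice_bdd {I : Type} [Countable I] (E : I → O1 → Cond ι → Prop) (hE : ∀ n, Mon (E n))
    (p : Cond ι) (h : ∀ n, Dn (fun r => ∃ a, E n a r) p) :
    ∃ q ≤ p, ∃ b, ∀ n, Dn (fun r => ∃ a < b, E n a r) q := by
  obtain ⟨q, h1, r, h2⟩ := coverU _ p h
  have : Nonempty O1 := let ⟨b, _⟩ := O1.bdd countable_empty; ⟨b⟩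
  choose! a ha using fun (k : I × ℕ) (h : ∃ a, E k.1 a (r k.1 k.2)) => h
  obtain ⟨b, hb⟩ := O1.bdd (countable_range a)
  refine ⟨q, h1, b, fun n t ht => ?_⟩
  obtain ⟨t', c, j, d, e⟩ := fix_cover (q := t) (r := r n) (D := fun j => ∃ a, E n a (r n j))
    fun x hx => h2 n x (ht hx)
  exact ⟨t', c, a (n, j), hb _ ⟨_, rfl⟩, hE n _ _ _ (ha (n, j) e) d⟩

theorem nice_reap (W : ℕ → Cond ι → Prop) (hW : Mon W) (p : Cond ι) :
    ∃ q ≤ p, ∃ V : X, ∃ ε, ∀ k ∈ V.1, Lit ε (W k) q := by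
  obtain ⟨q, h1, z, h2, h3⟩ := exists_reads hW p
  obtain ⟨V, q', -, h4, m, h5⟩ := pr isLowerSet_univ (fun x => {k | z k x})
    (by let := mL (univ : Set ι); exact measurable_set_iff.2 h2) default q
  refine ⟨q', h4.trans h1, ⟨_, V.2.sdiff (finite_Iio m)⟩, h5.elim (fun h => ⟨true, fun k hk =>
    h3 k q' h4 _ fun x hx => ?_⟩) fun h => ⟨false, fun k hk => h3 k q' h4 _ fun x hx => ?_⟩⟩
  · simpa using h x hx k hk.1 (not_lt.1 hk.2)
  · simpa using h x hx k hk.1 (not_lt.1 hk.2)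

theorem exists_splitter (y : ℕ → ℕ → Prop) : ∃ s : Set ℕ, ∀ n, (∀ N, ∃ k, N ≤ k ∧ y n k) →
    ∀ (ε : Bool) N, ∃ k, N ≤ k ∧ y n k ∧ (k ∈ s ↔ ε = true) := by
  obtain ⟨s, h1, h2⟩ := exists_alt (M := fun i m => ∀ n ≤ i, (∀ N, ∃ k, N ≤ k ∧ y n k) →
    ∃ k, i ≤ k ∧ k < m ∧ y n k) fun i => by
      choose! μ hμ using fun n (h : ∀ N, ∃ k, N ≤ k ∧ y n k) => h i
      refine ⟨(Finset.range (i + 1)).sup μ + 1, fun n a b => ⟨μ n, (hμ n b).1, ?_, (hμ n b).2⟩⟩
      exact Nat.lt_succ_of_le (Finset.le_sup (f := μ) (Finset.mem_range.2 (by omega)))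
  refine ⟨s, fun n hn ε N => ?_⟩
  cases ε
  · obtain ⟨i, a, m, b, c⟩ := h2 (max N n)
    obtain ⟨k, d, e, f⟩ := b n (by omega) hn
    exact ⟨k, by omega, f, by simpa using c k d e⟩
  · obtain ⟨i, a, m, b, c⟩ := h1 (max N n)
    obtain ⟨k, d, e, f⟩ := b n (by omega) hn
    exact ⟨k, by omega, f, by simpa using c k d e⟩

theorem nice_split (Z : ℕ → ℕ → Cond ι → Prop) (hZ : ∀ n, Mon (Z n)) (p : Cond ι) :
    ∃ q ≤ p, ∃ s : ℕ → Cond ι → Prop, Mon s ∧
    ∀ n, ∀ r ≤ q, (∀ N, Dn (fun t => ∃ k, N ≤ k ∧ Z n k t) r) →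
      ∀ ε N, Dn (fun t => ∃ k, N ≤ k ∧ Dn (Z n k) t ∧ Lit ε (s k) t) r := by
  have hL := isLowerSet_univ (α := ι)
  obtain ⟨q₁, h1, z, h2, h3⟩ := exists_reads (W := fun i : ℕ × ℕ => Z i.1 i.2)
    (fun i => hZ i.1 i.2) p
  obtain ⟨q, s, a1, a2, a3⟩ := unif hL (pa hL) (pb hL) (fun x (s : Set ℕ) => ∀ n,
    (∀ N, ∃ k, N ≤ k ∧ z (n, k) x) → ∀ (ε : Bool) N, ∃ k, N ≤ k ∧ z (n, k) x ∧ (k ∈ s ↔ ε = true))
    (by let := mL (univ : Set ι); fun_prop) q₁ ∅ 0 (by simp)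
    fun x _ => exists_splitter fun n k => z (n, k) x
  refine ⟨q, a2.1.trans h1, fun k t => ∀ x ∈ bd univ t, k ∈ s x,
    fun k _ _ a b x hx => a x (b hx), fun n r hr h ε N t ht => ?_⟩
  obtain ⟨t₁, b1, b2⟩ := (pa hL).null' hL (pb hL) (fun N x => ∀ k, N ≤ k → ¬ z (n, k) x)
    (fun N => by let := mL (univ : Set ι); fun_prop) t ∅ 0 (by simp) fun N t' c d => by
      obtain ⟨t'', e, k, f, g⟩ := h N t' (c.trans ht)
      exact h3 (n, k) t' (c.trans (ht.trans (hr.trans a2.1))) false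
        (fun x hx => by simpa using d x hx k f) t'' e g
  obtain ⟨t₂, c1, k, c2⟩ := fixU (fun k x => N ≤ k ∧ z (n, k) x ∧ (k ∈ s x ↔ ε = true))
    (fun k => by let := mL (univ : Set ι); fun_prop) t₁ fun x hx =>
      a3 x (hr (ht (b1.1 hx))) n (fun N => by simpa using b2 N x hx) ε N
  obtain ⟨y, hy⟩ := bd_nonempty univ t₂
  refine ⟨t₂, c1.trans b1.1, k, (c2 y hy).1, h3 (n, k) t₂
    (c1.trans (Subset.trans b1.1 (ht.trans (hr.trans a2.1)))) true
    fun x hx => by simpa using (c2 x hx).2.1, ?_⟩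
  cases ε
  · intro u hu h4
    obtain ⟨x, hx⟩ := bd_nonempty univ u
    simpa using (c2 x (hu hx)).2.2.1 (h4 x hx)
  · exact fun u hu => ⟨u, le_rfl, fun x hx => (c2 x (hu hx)).2.2.2 rfl⟩

theorem nice_coll (κ : O1 × ℕ → ι) (hκ : Function.Injective κ) :
    ∃ C : O1 × X → Cond ι → Prop, Mon C ∧ (∀ a V V' q, C (a, V) q → C (a, V') q → V = V') ∧
    ∀ V p, ∃ q ≤ p, ∃ a, C (a, V) q := by
  classical
  refine ⟨fun w q => ∀ x ∈ bd univ q, ∀ k, (k ∈ w.2.1 ↔ 0 ∈ (x (κ (w.1, k))).1),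
    fun _ _ _ a b x hx => a x (b hx), fun a V V' q h h' => ?_, fun V p => ?_⟩
  · obtain ⟨x, hx⟩ := bd_nonempty univ q
    exact Subtype.ext (Set.ext fun k => (h x hx k).trans (h' x hx k).symm)
  obtain ⟨a, ha⟩ := O1.bdd ((p.supp.preimage hκ).image Prod.fst)
  have h1 : ∀ k x, p.f (κ (a, k)) x = top := fun k x => by
    by_contra h
    exact lt_irrefl a (ha a ⟨(a, k), ⟨x, h⟩, rfl⟩)
  let q : Cond ι :=
    { f := fun η x => if h : ∃ k, κ (a, k) = η then cut top 1 (if h.choose ∈ V.1 then {0} else ∅)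
        else p.f η x
      meas := fun η => by
        split_ifs
        exacts [measurable_const, measurable_const, p.meas η]
      valid := fun η x => by
        split_ifs
        exacts [valid_top.cut _ _, valid_top.cut _ _, p.valid η x]
      supp := (p.supp.union (countable_range fun k => κ (a, k))).mono fun η ⟨x, hx⟩ => by
        by_cases h : ∃ k, κ (a, k) = η
        · exact Or.inr h
        · exact Or.inl ⟨x, by rwa [dif_neg h] at hx⟩ }
  refine ⟨q, fun x hx η _ => ?_, a, fun x hx k => ?_⟩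
  · by_cases h : ∃ k, κ (a, k) = η
    · obtain ⟨k, rfl⟩ := h
      rw [h1]
      exact mem_top _
    · simpa only [q, dif_neg h] using hx η trivial
  · have h : ∃ k', κ (a, k') = κ (a, k) := ⟨k, rfl⟩
    have h2 := hx (κ (a, k)) trivial
    simp only [q, dif_pos h, (Prod.mk.inj (hκ h.choose_spec)).2] at h2
    rw [(mem_cut_iff.1 h2).1 0 le_rfl Nat.one_pos]
    split_ifs with h3 <;> simp [h3]

end Pool.Agent.Lib.Common.Iter
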