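import Mathlib
import Pool.Agent.Lib.Common.Iter.Props

/-!
Closure points of a long iteration, and the conclusion: a nice forcing exists.
-/

set_option autoImplicit false

namespace Pool.Agent.Lib.Common.Iter

open Set MeasureTheory Cardinal Pool.Agent.Lib.Common.Forcing

variable {ι : Type}

theorem exists_dep {L : Set ι} {β : Type} [MeasurableSpace β] [StandardBorelSpace β]
    {g : Pt ι → β} (hg : Measurable[mL L] g) :
    ∃ C ⊆ L, C.Countable ∧ ∀ x y, (∀ η ∈ C, x η = y η) → g x = g y := by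
  obtain ⟨C, h1, h2, h3⟩ := exists_countable_dep (L := L) (Z := β) (R := fun w => g w.1 = w.2)
    (by
      let := mL L
      exact measurableSet_setOfPred.1 (measurableSet_eq_fun (by fun_prop) measurable_snd))
  exact ⟨C, h1, h2, fun x y h => (h3 x y _ h rfl).symm⟩

theorem meas_of_dep {L : Set ι} {β : Type} [MeasurableSpace β] {g : Pt ι → β}
    (hg : Measurable[mL univ] g) (h : ∀ x y, (∀ η ∈ L, x η = y η) → g x = g y) :
    Measurable[mL L] g := by
  classical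
  have h1 : @Measurable _ _ (mL L) (mL univ)
      fun (x : Pt ι) η => if η ∈ L then x η else default := by
    refine Measurable.of_le_map (iSup₂_le fun η _ => MeasurableSpace.comap_le_iff_le_map.2
      (@Measurable.le_map _ _ (mL L) _ (fun x : Pt ι => if η ∈ L then x η else default) ?_))
    split_ifs with h
    exacts [meas_ev h, measurable_const]
  have h2 : g = g ∘ fun (x : Pt ι) η => if η ∈ L then x η else default :=
    funext fun x => h _ _ fun η hη => (if_pos hη).symm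
  rw [h2]
  exact hg.comp h1

variable [LinearOrder ι]

/-- The support of `p` is below `γ`. -/
def Lives (γ : ι) (p : Cond ι) : Prop := ∀ η, γ ≤ η → ∀ x, p.f η x = top

open Classical in
/-- The function described by countably many coordinates and countably many functions. -/
noncomputable def code (e : ℕ → ι) (g : ℕ → (ℕ → X) → Raw) (η : ι) (x : Pt ι) : Raw :=
  if h : ∃ n, e n = η then g h.choose fun k => x (e k) else top

theorem exists_code {γ : ι} {p : Cond ι} (h : Lives γ p) :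
    ∃ (e : ℕ → Iic γ) (g : ℕ → (ℕ → X) → Raw), p.f = code (fun n => (e n).1) g := by
  classical
  choose C h1 h2 h3 using fun η => exists_dep (p.meas η)
  have h4 : ∀ η, (∃ x, p.f η x ≠ top) → η < γ := fun η ⟨x, hx⟩ => not_le.1 fun h' => hx (h η h' x)
  obtain ⟨e, he⟩ := ((p.supp.union (p.supp.biUnion fun η _ => h2 η)).insert γ).exists_eq_range
    (insert_nonempty _ _)
  have h5 : ∀ n, e n ≤ γ := fun n => by
    rcases he.superset ⟨n, rfl⟩ with h | h | h
    · exact h.le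
    · exact (h4 _ h).le
    · obtain ⟨η, a, b⟩ := mem_iUnion₂.1 h
      exact (h1 η b).le.trans (h4 η a).le
  refine ⟨fun n => ⟨e n, h5 n⟩, fun n u => p.f (e n) fun η =>
    if h : ∃ k, e k = η then u h.choose else default, funext fun η => funext fun x => ?_⟩
  show _ = code e _ η x
  unfold code
  beta_reduce
  by_cases h6 : ∃ x, p.f η x ≠ top
  · have h7 : ∃ n, e n = η := he.subset (Or.inr (Or.inl h6))
    rw [dif_pos h7, h7.choose_spec]
    refine h3 η _ _ fun ζ hζ => ?_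
    have h8 : ∃ n, e n = ζ := he.subset (Or.inr (Or.inr (mem_biUnion h6 hζ)))
    simp only [dif_pos h8, h8.choose_spec]
  · push Not at h6
    split_ifs with h7
    · rw [h7.choose_spec, h6, h6]
    · exact h6 x

theorem exists_closed [WellFoundedLT ι] (hb : ∀ s : Set ι, #s ≤ ℵ₁ → ∃ b, ∀ a ∈ s, a < b)
    (B : ι → ι) : ∃ ξ, ∀ C : Set ι, C.Countable → C ⊆ Iio ξ → ∃ γ, C ⊆ Iio γ ∧ B γ ≤ ξ := by
  have hb' : ∀ s : Set ι, s.Countable → ∃ b, ∀ a ∈ s, a < b := fun s hs =>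
    hb s ((le_aleph0_iff_set_countable.2 hs).trans aleph0_lt_aleph_one.le)
  obtain ⟨b₀, -⟩ := hb' ∅ countable_empty
  have : Nonempty ι := ⟨b₀⟩
  choose! ub hub using hb'
  let s : O1 → ι := (wellFounded_lt (α := O1)).fix fun a ih =>
    ub ((range fun b : Iio a => ih b b.2) ∪ range fun b : Iio a => B (ih b b.2))
  have hs : ∀ a, s a = ub ((range fun b : Iio a => s b) ∪ range fun b : Iio a => B (s b)) :=
    fun a => by simp only [s]; rw [WellFounded.fix_eq]
  have h1 : ∀ a b, b < a → s b < s a ∧ B (s b) < s a := fun a b h => by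
    have := (O1.countable_Iio a).to_subtype
    have h2 := hub _ ((countable_range fun b : Iio a => s b).union
      (countable_range fun b : Iio a => B (s b)))
    rw [← hs] at h2
    exact ⟨h2 _ (Or.inl ⟨⟨b, h⟩, rfl⟩), h2 _ (Or.inr ⟨⟨b, h⟩, rfl⟩)⟩
  obtain ⟨b, hb⟩ := hb (range s) (mk_range_le.trans (by simp))
  obtain ⟨ξ, h2, h3⟩ := (wellFounded_lt (α := ι)).has_min {ξ | ∀ a, s a ≤ ξ}
    ⟨b, fun a => (hb _ ⟨a, rfl⟩).le⟩
  refine ⟨ξ, fun C hC h4 => ?_⟩
  have h5 : ∀ η : C, ∃ a, η < s a := fun η => by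
    by_contra! h
    exact h3 η h (h4 η.2)
  choose a ha using h5
  have := hC.to_subtype
  obtain ⟨a', h6⟩ := O1.bdd (countable_range a)
  obtain ⟨a'', h7⟩ := O1.bdd (countable_singleton a')
  exact ⟨s a', fun η hη => (ha ⟨η, hη⟩).trans (h1 _ _ (h6 _ ⟨_, rfl⟩)).1,
    (h1 _ _ (h7 _ rfl)).2.le.trans (h2 _)⟩

/-- The bound for the number of conditions. -/
noncomputable def cc : Cardinal.{0} := #(O1 × (ℕ → (ℕ → X) → Raw)) ^ ℵ₀

theorem le_cc : #(O1 × (ℕ → (ℕ → X) → Raw)) ≤ cc := self_le_power _ one_le_aleph0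

theorem aleph_one_le_cc : ℵ₁ ≤ cc := by
  refine le_trans ?_ le_cc
  have : Nonempty Raw := ⟨top⟩
  simpa using mk_le_of_surjective (Prod.fst_surjective (α := O1) (β := ℕ → (ℕ → X) → Raw))

theorem aleph0_le_cc : ℵ₀ ≤ cc := aleph0_lt_aleph_one.le.trans aleph_one_le_cc

theorem cc_pow : cc ^ ℵ₀ = cc := by rw [cc, ← power_mul, aleph0_mul_aleph0]

variable [WellFoundedLT ι]

theorem exists_stage_reads (hb : ∀ s : Set ι, #s ≤ cc → ∃ b, ∀ a ∈ s, a < b)
    (hI : ∀ γ : ι, #(Iic γ) ≤ cc) (Z : O1 → ℕ → Cond ι → Prop) (hZ : ∀ a, Mon (Z a)) :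
    ∃ ξ, ∀ a p, ∃ q ≤ p, ∃ z : ℕ → Pt ι → Prop,
      (∀ n, Measurable[mL (Iio ξ)] (z n)) ∧ Reads q z (Z a) := by
  classical
  have h1 : ∀ a p, ∃ β, ∃ q ≤ p, ∃ z : ℕ → Pt ι → Prop, Lives β q ∧
      (∀ n, Measurable[mL (Iio β)] (z n)) ∧ Reads q z (Z a) := fun a p => by
    obtain ⟨q, a1, z, a2, a3⟩ := exists_reads (hZ a) p
    choose C _ b2 b3 using fun n => exists_dep (a2 n)
    obtain ⟨β, hβ⟩ := hb _ ((le_aleph0_iff_set_countable.2
      (q.supp.union (countable_iUnion b2))).trans aleph0_le_cc)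
    refine ⟨β, q, a1, z, fun η hη x => ?_, fun n => meas_of_dep (a2 n) fun x y h =>
      b3 n x y fun η hη => h η (hβ η (Or.inr (mem_iUnion.2 ⟨n, hη⟩))), a3⟩
    by_contra h
    exact (hβ η (Or.inl ⟨x, h⟩)).not_ge hη
  choose β hβ using h1
  have h2 : ∀ γ, ∃ b, ∀ a p, Lives γ p → β a p < b := fun γ => by
    obtain ⟨b, hb⟩ := hb (range fun w : (O1 × (ℕ → (ℕ → X) → Raw)) × (ℕ → Iic γ) =>
      if h : ∃ p : Cond ι, p.f = code (fun n => (w.2 n).1) w.1.2 then β w.1.1 h.choose else γ)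
      (mk_range_le.trans (by
        rw [mk_prod, lift_id, lift_id, ← mul_eq_self aleph0_le_cc]
        refine mul_le_mul' le_cc ?_
        rw [← cc_pow, ← power_def, mk_nat]
        exact power_le_power_right (hI γ)))
    refine ⟨b, fun a p hp => hb _ ?_⟩
    obtain ⟨e, g, h⟩ := exists_code hp
    have h3 : ∃ p : Cond ι, p.f = code (fun n => (e n).1) g := ⟨p, h⟩
    refine ⟨((a, g), e), ?_⟩
    have h4 : ∀ p' : Cond ι, p'.f = p.f → p' = p := by
      rintro ⟨f', _, _, _⟩ h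
      cases p
      cases h
      rfl
    simp only [dif_pos h3, h4 _ (h3.choose_spec.trans h.symm)]
  choose B hB using h2
  obtain ⟨ξ, hξ⟩ := exists_closed (fun s hs => hb s (hs.trans aleph_one_le_cc)) B
  refine ⟨ξ, fun a p => ?_⟩
  have hL := isLowerSet_Iio ξ
  obtain ⟨γ, h3, h4⟩ := hξ ({η | ∃ x, p.f η x ≠ top} ∩ Iio ξ) (p.supp.mono inter_subset_left)
    inter_subset_right
  have h5 : β a (join hL p default) ≤ ξ := (hB γ a _ fun η hη x => by
    by_cases h : η < ξ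
    · rw [join_in hL _ _ h]
      by_contra h'
      exact (h3 ⟨⟨x, h'⟩, h⟩).not_ge hη
    · rw [join_out hL _ _ h]
      rfl).le.trans h4
  obtain ⟨q, a1, z, a2, a3, a4⟩ := hβ a (join hL p default)
  refine ⟨join hL q p, join_le hL (subset_univ _) ((bd_le_down hL (subset_univ _) a1).trans
    (bd_join_low hL _ _ subset_rfl).subset), z, fun n => meas_up (a3 n) (Iio_subset_Iio h5),
    fun n r hr => a4 n r (hr.trans fun x hx η _ => ?_)⟩
  by_cases h : η < ξ
  · exact join_le_left hL q p (subset_univ _) hx η h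
  · rw [a2 η (h5.trans (not_lt.1 h))]
    exact mem_top _

theorem nice_unsplit (hb : ∀ s : Set ι, #s ≤ cc → ∃ b, ∀ a ∈ s, a < b)
    (hI : ∀ γ : ι, #(Iic γ) ≤ cc) (Z : O1 → ℕ → Cond ι → Prop) (hZ : ∀ a, Mon (Z a)) :
    ∃ x : ℕ → Cond ι → Prop, Mon x ∧ (∀ N p, ∃ q ≤ p, ∃ k, N ≤ k ∧ x k q) ∧
      ∀ a p, ∃ q ≤ p, ∃ m ε, ∀ n, m ≤ n → ∀ r ≤ q, x n r → Lit ε (Z a n) r := by
  obtain ⟨ξ, hξ⟩ := exists_stage_reads hb hI Z hZ
  have hL := isLowerSet_Iio ξ
  refine ⟨fun n r => ∀ y ∈ bd univ r, n ∈ (y ξ).1, fun _ _ _ a b y hy => a y (b hy),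
    fun N p => ?_, fun a p => ?_⟩
  · obtain ⟨q, h1, k, h2⟩ := fixU (fun k y => N ≤ k ∧ k ∈ (y ξ).1)
      (fun k => by let := mL (univ : Set ι); fun_prop (disch := simp)) p fun y _ =>
        let ⟨k, a, b⟩ := (y ξ).2.exists_gt N
        ⟨k, b.le, a⟩
    obtain ⟨y, hy⟩ := bd_nonempty univ q
    exact ⟨q, h1, k, (h2 y hy).1, fun y hy => (h2 y hy).2⟩
  obtain ⟨q₁, a1, z, a2, a3⟩ := hξ a p
  have h1 := q₁.meas ξ
  obtain ⟨r, g, b1, b2, b3⟩ := unif hL (pa hL) (pb hL) (fun x c => Valid c ∧ Sub c (q₁.f ξ x) ∧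
    (Ins c {n | z n x} ∨ Ins c {n | z n x}ᶜ))
    (by let := mL (Iio ξ); simp only [Ins, mem_compl_iff, mem_ofPred_eq]; fun_prop) q₁ ∅ 0
    (by simp) fun x _ => exists_hom (q₁.valid ξ x) _
  obtain ⟨r', c1, ⟨m, ε⟩, c2⟩ := (pa hL).fix hL (pb hL) (I := ℕ × Bool)
    (fun k x => (g x).2.1 0 ≤ k.1 ∧ Ins (g x) {n | z n x ↔ k.2 = true})
    (fun k => by let := mL (Iio ξ); simp only [Ins, mem_ofPred_eq]; fun_prop) r fun x hx =>
      (b3 x hx).2.2.elim (fun h => ⟨(_, true), le_rfl, by simpa using h⟩)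
        fun h => ⟨(_, false), le_rfl, by simpa [compl_ofPred] using h⟩
  obtain ⟨q, -, d1, d2, d3⟩ := exists_put (p := q₁) b1 (c1.trans b2.1)
    fun x hx => ⟨(b3 x (c1 hx)).1, (b3 x (c1 hx)).2.1.subset (b3 x (c1 hx)).1⟩
  refine ⟨q, le_trans (d3 univ (subset_univ _)) a1, m, ε, fun n hn t ht h2 =>
    a3 n t (ht.trans (d3 univ (subset_univ _))) ε fun y hy => ?_⟩
  have h3 : y ∈ bd (Iio ξ) r' := d1 ▸ bd_anti (subset_univ _) q (ht hy)
  exact (c2 y h3).2.spec (b3 y (c1 h3)).1 (d2 y h3 ▸ ht hy ξ trivial) (h2 y hy)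
    ((c2 y h3).1.trans hn)

theorem exists_nice : ∃ (P : Type) (_ : Preorder P), Nonempty P ∧ Nice P := by
  let ι := (Order.succ cc).ord.ToType
  have hb : ∀ s : Set ι, #s ≤ cc → ∃ b, ∀ a ∈ s, a < b := fun s hs => exists_gt_of_lt_cof (by
    rw [Ordinal.cof_toType, (isRegular_succ aleph0_le_cc).cof_ord]
    exact Order.lt_succ_of_le hs)
  have hI : ∀ γ : ι, #(Iic γ) ≤ cc := fun γ => by
    obtain ⟨b, h⟩ := hb {γ} ((le_aleph0_iff_set_countable.2 (countable_singleton γ)).trans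
      aleph0_le_cc)
    refine (mk_le_mk_of_subset (Iic_subset_Iio.2 (h γ rfl))).trans (Order.lt_succ_iff.1 ?_)
    simpa [ι] using mk_Iio_lt b (by simp [ι])
  obtain ⟨κ⟩ : Nonempty (O1 × ℕ ↪ ι) := by
    rw [← Cardinal.le_def]
    simp only [ι, mk_prod, lift_id, mk_toType, card_ord, mk_nat, Ordinal.card_omega]
    rw [mul_eq_left aleph0_lt_aleph_one.le aleph0_lt_aleph_one.le aleph0_ne_zero]
    exact aleph_one_le_cc.trans (Order.le_succ _)
  exact ⟨Cond ι, inferInstance, inferInstance, nice_bdd, nice_reap, nice_coll κ κ.injective,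
    nice_split, nice_unsplit hb hI⟩

end Pool.Agent.Lib.Common.Iter
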